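import Mathlib

/-!
# Packed linear combinations

A sparse row is a natural number; its digits to the base `2 ^ 40` are `coefficient + 2 ^ 24 * gap`.
A packed row is the sum of `coefficient * 2 ^ (64 * index)`.
-/

set_option autoImplicit false

namespace Pool.Agent.SWL57

open Finset

/-- The modulus `3 ^ 15`. -/
def q : ℕ := 14348907

theorem q_eq : q = 3 ^ 15 := by norm_num [q]

/-- The base `2 ^ 64` of the packed rows. -/
def bs : ℕ := 18446744073709551616

theorem bs_eq : bs = 2 ^ 64 := by norm_num [bs]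

theorem bs_pos : 0 < bs := by norm_num [bs]

theorem q_pos : 0 < q := by norm_num [q]

theorem q_bs : q * 2 ^ 40 < bs := by norm_num [q, bs]

theorem one_lt_bs : 1 < bs := by norm_num [bs]

theorem bs_lit : bs = 18446744073709551616 := rfl

theorem q_lit : q = 14348907 := rfl

/-- The mask with `n` digits. -/
def mask : ℕ → ℕ
  | 0 => 0
  | n + 1 => 18446742974197923840 + 18446744073709551616 * mask n

theorem mask_succ (n : ℕ) : mask (n + 1) = 18446742974197923840 + bs * mask n := by
  rw [mask, bs]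

theorem land_split (Q a b : ℕ) (ha : a < bs) (h : Q &&& (a + bs * b) = 0) :
    (Q % bs) &&& a = 0 ∧ (Q / bs) &&& b = 0 := by
  rw [bs_eq] at ha h ⊢
  constructor
  · have h1 := Nat.and_mod_two_pow (n := 64) (a := Q) (b := a + 2 ^ 64 * b)
    rw [h, Nat.add_mul_mod_self_left, Nat.mod_eq_of_lt ha] at h1
    simpa using h1.symm
  · have h1 := Nat.shiftRight_and_distrib (a := Q) (b := a + 2 ^ 64 * b) (i := 64)
    rw [h] at h1
    simp only [Nat.shiftRight_eq_div_pow] at h1
    rw [Nat.add_mul_div_left _ _ (by norm_num), Nat.div_eq_of_lt ha, Nat.zero_add] at h1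
    simpa using h1.symm

theorem lt_of_land {x : ℕ} (hx : x < bs) (h : x &&& 18446742974197923840 = 0) :
    x < 2 ^ 40 := by
  rw [bs_eq] at hx
  have h1 := Nat.shiftRight_and_distrib (a := x) (b := 18446742974197923840) (i := 40)
  rw [h] at h1
  simp only [Nat.shiftRight_eq_div_pow] at h1
  have h2 : (18446742974197923840 : ℕ) / 2 ^ 40 = 2 ^ 24 - 1 := by norm_num
  rw [h2, Nat.and_two_pow_sub_one_eq_mod] at h1
  have h3 : x / 2 ^ 40 < 2 ^ 24 := by
    rw [Nat.div_lt_iff_lt_mul (by norm_num)]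
    exact hx.trans_eq (by norm_num)
  rw [Nat.mod_eq_of_lt h3] at h1
  have h4 : x / 2 ^ 40 = 0 := by simpa using h1.symm
  rw [Nat.div_eq_zero_iff] at h4
  rcases h4 with h4 | h4
  · norm_num at h4
  · exact h4

theorem mask_lt : 18446742974197923840 < bs := by norm_num [bs]

attribute [irreducible] bs q

theorem split_key {w p r Q d N : ℕ} (h : d + w * N = p * (r + w * Q)) (hd : d < w)
    (hr : p * r < w) : d = p * r ∧ N = p * Q := by
  have hw : 0 < w := lt_of_le_of_lt (Nat.zero_le _) hd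
  have h1 : d + w * N = p * r + w * (p * Q) := by rw [h]; ring
  have h2 : d = p * r := by
    have h3 := congrArg (· % w) h1
    simp only [Nat.add_mul_mod_self_left] at h3
    rwa [Nat.mod_eq_of_lt hd, Nat.mod_eq_of_lt hr] at h3
  refine ⟨h2, ?_⟩
  rw [h2] at h1
  exact Nat.eq_of_mul_eq_mul_left hw (Nat.add_left_cancel h1)

theorem sum_head (w : ℕ) (D : ℕ → ℕ) (n : ℕ) : ∑ i ∈ range (n + 1), D i * w ^ i =
    D 0 + w * ∑ i ∈ range n, D (i + 1) * w ^ i := by
  rw [sum_range_succ', mul_sum, Nat.add_comm, pow_zero, Nat.mul_one]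
  congr 1
  refine sum_congr rfl fun i _ => ?_
  rw [pow_succ]
  ring

/-- The mask with `n` digits, in closed form. -/
def mk (n : ℕ) : ℕ := Nat.mul 18446742974197923840
  (Nat.div (Nat.sub (Nat.pow 2 (Nat.mul 64 n)) 1) 18446744073709551615)

theorem mk_eq (n : ℕ) : mk n = mask n := by
  have h1 : ∀ n, ∃ s, (bs - 1) * s + 1 = bs ^ n ∧ mask n = 18446742974197923840 * s := by
    intro n
    induction n with
    | zero => exact ⟨0, by rw [pow_zero, Nat.mul_zero, Nat.zero_add], rfl⟩
    | succ n ih =>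
      obtain ⟨s, h1, h2⟩ := ih
      refine ⟨1 + bs * s, ?_, ?_⟩
      · obtain ⟨b, hb⟩ := Nat.exists_eq_add_of_lt bs_pos
        rw [pow_succ, ← h1, hb]
        simp only [Nat.zero_add, Nat.add_sub_cancel]
        ring
      · rw [mask_succ, h2]
        ring
  obtain ⟨s, h2, h3⟩ := h1 n
  have h4 : mk n = 18446742974197923840 * ((2 ^ (64 * n) - 1) / 18446744073709551615) := rfl
  have h5 : (18446744073709551615 : ℕ) = bs - 1 := by rw [bs_lit]
  rw [h4, h3, h5, pow_mul, ← bs_eq, ← h2, Nat.add_sub_cancel,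
    Nat.mul_div_cancel_left _ (Nat.sub_pos_of_lt one_lt_bs)]

theorem dig (n : ℕ) : ∀ (D : ℕ → ℕ) (N : ℕ), (∀ i, D i < bs) →
    N = ∑ i ∈ range n, D i * bs ^ i → N % q = 0 → (N / q) &&& mask n = 0 →
    ∀ i < n, q ∣ D i := by
  induction n with
  | zero => intro D N _ _ _ _ i hi; exact absurd hi (Nat.not_lt_zero _)
  | succ n ih =>
    intro D N hD hN hq hm
    rw [sum_head] at hN
    obtain ⟨Q, hQ⟩ := Nat.dvd_of_mod_eq_zero hq
    have e2 : N / q = Q := by rw [hQ, Nat.mul_div_cancel_left _ q_pos]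
    rw [e2, mask_succ] at hm
    obtain ⟨m1, m2⟩ := land_split Q 18446742974197923840 (mask n) mask_lt hm
    have h0 : Q % bs < 2 ^ 40 := lt_of_land (Nat.mod_lt _ bs_pos) m1
    have h1 : q * (Q % bs) < bs :=
      lt_of_le_of_lt (Nat.mul_le_mul_left _ h0.le) q_bs
    have e3 : D 0 + bs * (∑ i ∈ range n, D (i + 1) * bs ^ i) = q * (Q % bs + bs * (Q / bs)) := by
      rw [← hN, hQ, Nat.mod_add_div]
    obtain ⟨e4, e5⟩ := split_key e3 (hD 0) h1
    intro i hi
    cases i with
    | zero => exact ⟨_, e4⟩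
    | succ i =>
      refine ih (fun i => D (i + 1)) _ (fun i => hD _) rfl ?_ ?_ i (by omega)
      · rw [e5, Nat.mul_mod_right]
      · rw [e5, Nat.mul_div_cancel_left _ q_pos]
        exact m2

/-! ### Representations -/

variable {U : Type} [AddCommGroup U]

/-- `N` is the packed form of a representation of `x` by the family `Y`, all coefficients are at
most `b`. -/
def Rep (Y : ℕ → U) (b N : ℕ) (x : U) : Prop :=
  ∃ (n : ℕ) (D : ℕ → ℕ), (∀ i, D i ≤ b) ∧ (∀ i, n ≤ i → D i = 0) ∧
    N = ∑ i ∈ range n, D i * bs ^ i ∧ x = ∑ i ∈ range n, D i • Y i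

theorem sum_ext1 {D w : ℕ → ℕ} {n : ℕ} (h : ∀ i, n ≤ i → D i = 0) (m : ℕ) :
    ∑ i ∈ range (n + m), D i * w i = ∑ i ∈ range n, D i * w i := by
  rw [sum_range_add]
  rw [sum_eq_zero (s := range m) (f := fun x => D (n + x) * w (n + x)), Nat.add_zero]
  intro i _
  rw [h _ (Nat.le_add_right _ _), Nat.zero_mul]

theorem sum_ext2 {D : ℕ → ℕ} {Y : ℕ → U} {n : ℕ} (h : ∀ i, n ≤ i → D i = 0) (m : ℕ) :
    ∑ i ∈ range (n + m), D i • Y i = ∑ i ∈ range n, D i • Y i := by
  rw [sum_range_add]
  rw [sum_eq_zero (s := range m) (f := fun x => D (n + x) • Y (n + x)), add_zero]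
  intro i _
  rw [h _ (Nat.le_add_right _ _), zero_smul]

theorem Rep.zero (Y : ℕ → U) : Rep Y 0 0 0 :=
  ⟨0, fun _ => 0, fun _ => le_rfl, fun _ _ => rfl, by rw [range_zero, sum_empty],
    by rw [range_zero, sum_empty]⟩

theorem Rep.mono {Y : ℕ → U} {b b' N : ℕ} {x : U} (h : Rep Y b N x) (hb : b ≤ b') :
    Rep Y b' N x := by
  obtain ⟨n, D, h1, h2, h3, h4⟩ := h
  exact ⟨n, D, fun i => (h1 i).trans hb, h2, h3, h4⟩

theorem Rep.add {Y : ℕ → U} {b b' N N' : ℕ} {x x' : U} (h : Rep Y b N x)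
    (h' : Rep Y b' N' x') : Rep Y (b + b') (N + N') (x + x') := by
  obtain ⟨n, D, h1, h2, h3, h4⟩ := h
  obtain ⟨n', D', h1', h2', h3', h4'⟩ := h'
  refine ⟨n + n', fun i => D i + D' i, fun i => Nat.add_le_add (h1 i) (h1' i), ?_, ?_, ?_⟩
  · intro i hi
    show D i + D' i = 0
    rw [h2 i (by omega), h2' i (by omega)]
  · rw [h3, h3', ← sum_ext1 h2 n', ← sum_ext1 h2' n, Nat.add_comm n' n, ← sum_add_distrib]
    exact sum_congr rfl fun i _ => (Nat.add_mul _ _ _).symm
  · rw [h4, h4', ← sum_ext2 h2 n', ← sum_ext2 h2' n, Nat.add_comm n' n, ← sum_add_distrib]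
    exact sum_congr rfl fun i _ => by rw [add_smul]

theorem Rep.smul {Y : ℕ → U} {b N : ℕ} {x : U} (c : ℕ) (h : Rep Y b N x) :
    Rep Y (c * b) (c * N) (c • x) := by
  obtain ⟨n, D, h1, h2, h3, h4⟩ := h
  refine ⟨n, fun i => c * D i, fun i => Nat.mul_le_mul_left _ (h1 i), ?_, ?_, ?_⟩
  · intro i hi
    show c * D i = 0
    rw [h2 i hi, Nat.mul_zero]
  · rw [h3, mul_sum]
    exact sum_congr rfl fun i _ => (Nat.mul_assoc _ _ _).symm
  · rw [h4, smul_sum]
    exact sum_congr rfl fun i _ => by rw [mul_smul]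

/-- A sequence with a new first member. -/
def cns (c : ℕ) (D : ℕ → ℕ) : ℕ → ℕ
  | 0 => c
  | i + 1 => D i

theorem Rep.cons {Y : ℕ → U} {b N : ℕ} {x : U} (c : ℕ) (hc : c ≤ b)
    (h : Rep (fun i => Y (i + 1)) b N x) :
    Rep Y b (c + bs * N) (c • Y 0 + x) := by
  obtain ⟨n, D, h1, h2, h3, h4⟩ := h
  refine ⟨n + 1, cns c D, ?_, ?_, ?_, ?_⟩
  · intro i
    cases i with
    | zero => exact hc
    | succ i => exact h1 i
  · intro i hi
    cases i with
    | zero => omega
    | succ i => exact h2 i (by omega)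
  · rw [sum_head, h3]
    rfl
  · rw [sum_range_succ', h4, add_comm]
    rfl

theorem Rep.shift {b N : ℕ} {x : U} (g : ℕ) : ∀ {Y : ℕ → U}, Rep (fun i => Y (g + i)) b N x →
    Rep Y b (bs ^ g * N) x := by
  induction g with
  | zero =>
    intro Y h
    have e : (fun i => Y (0 + i)) = Y := by
      funext i
      rw [Nat.zero_add]
    rw [e] at h
    rw [pow_zero, Nat.one_mul]
    exact h
  | succ g ih =>
    intro Y h
    have h1 : Rep (fun i => Y (i + 1)) b (bs ^ g * N) x := by
      refine ih ?_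
      have e : (fun i => (fun i => Y (i + 1)) (g + i)) = fun i => Y (g + 1 + i) := by
        funext i
        show Y (g + i + 1) = Y (g + 1 + i)
        congr 1
        omega
      rw [e]
      exact h
    have h2 := Rep.cons 0 (Nat.zero_le b) h1
    rw [zero_smul, Nat.zero_add, zero_add] at h2
    rw [pow_succ, Nat.mul_comm (bs ^ g), Nat.mul_assoc]
    exact h2

theorem Rep.div {Y : ℕ → U} {b N : ℕ} {x : U} (h : Rep Y b N x) (hb : b < bs) {n : ℕ}
    (hN : N < bs ^ n) (h1 : N % q = 0) (h2 : (N / q) &&& mask n = 0) :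
    ∃ z : U, x = q • z := by
  obtain ⟨m, D, d1, d2, d3, d4⟩ := h
  have d5 : ∀ i, n ≤ i → D i = 0 := by
    intro i hi
    by_contra hne
    have hm : i < m := by
      by_contra hmi
      exact hne (d2 i (by omega))
    have h3 : D i * bs ^ i ≤ N := by
      rw [d3]
      exact single_le_sum (f := fun i => D i * bs ^ i) (fun _ _ => Nat.zero_le _)
        (mem_range.2 hm)
    have h4 : bs ^ n ≤ bs ^ i := Nat.pow_le_pow_right bs_pos hi
    have h5 : bs ^ i ≤ D i * bs ^ i := Nat.le_mul_of_pos_left _ (Nat.pos_of_ne_zero hne)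
    exact absurd (lt_of_lt_of_le hN (h4.trans (h5.trans h3))) (lt_irrefl _)
  have e1 : N = ∑ i ∈ range n, D i * bs ^ i := by
    rw [d3, ← sum_ext1 d2 n, Nat.add_comm m n, sum_ext1 d5 m]
  have key := dig n D N (fun i => (d1 i).trans_lt hb) e1 h1 h2
  have key2 : ∀ i, q ∣ D i := by
    intro i
    by_cases hi : i < n
    · exact key i hi
    · rw [d5 i (by omega)]
      exact dvd_zero _
  refine ⟨∑ i ∈ range m, (D i / q) • Y i, ?_⟩
  rw [d4, smul_sum]
  refine sum_congr rfl fun i _ => ?_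
  rw [← mul_smul, Nat.mul_div_cancel' (key2 i)]

/-! ### Sparse rows -/

theorem beq_false {s : ℕ} (h : s ≠ 0) : Nat.beq s 0 = false := by
  cases s with
  | zero => exact absurd rfl h
  | succ s => rfl


/-- The packed form of a sparse row; the first argument bounds the number of the entries. -/
def pk (f : ℕ) : ℕ → ℕ :=
  Nat.rec (fun _ => 0) (fun _ ih s => cond (Nat.beq s 0) 0
    (Nat.mul (Nat.pow 2 (Nat.mul 64 (Nat.div (Nat.mod s 1099511627776) 16777216)))
      (Nat.add (Nat.mod s 16777216) (Nat.mul 18446744073709551616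
        (ih (Nat.div s 1099511627776)))))) f

/-- The gap of the first entry. -/
def gp (s : ℕ) : ℕ := s % 1099511627776 / 16777216

/-- The value of a sparse row. -/
def ln (f : ℕ) : ℕ → (ℕ → U) → U :=
  Nat.rec (fun _ _ => 0) (fun _ ih s Y => cond (Nat.beq s 0) 0
    ((s % 16777216) • Y (gp s) + ih (s / 1099511627776) (fun i => Y (gp s + 1 + i)))) f

theorem pk_zero (s : ℕ) : pk 0 s = 0 := rfl

theorem pk_succ (f s : ℕ) : pk (f + 1) s = if s = 0 then 0 else
    bs ^ gp s * (s % 16777216 + bs * pk f (s / 1099511627776)) := by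
  have e : pk (f + 1) s = cond (Nat.beq s 0) 0
    (Nat.mul (Nat.pow 2 (Nat.mul 64 (Nat.div (Nat.mod s 1099511627776) 16777216)))
      (Nat.add (Nat.mod s 16777216) (Nat.mul 18446744073709551616
        (pk f (Nat.div s 1099511627776))))) := rfl
  rw [e]
  by_cases h : s = 0
  · rw [if_pos h, h]
    rfl
  · rw [if_neg h]
    rw [beq_false h, cond_false]
    have h3 : bs ^ gp s = 2 ^ (64 * gp s) := by rw [bs_eq, ← pow_mul]
    rw [h3, bs_lit]
    rfl

theorem ln_zero (s : ℕ) (Y : ℕ → U) : ln 0 s Y = 0 := rfl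

theorem ln_succ (f s : ℕ) (Y : ℕ → U) : ln (f + 1) s Y = if s = 0 then 0 else
    (s % 16777216) • Y (gp s) + ln f (s / 1099511627776) (fun i => Y (gp s + 1 + i)) := by
  have e : ln (f + 1) s Y = cond (Nat.beq s 0) 0
    ((s % 16777216) • Y (gp s) + ln f (s / 1099511627776) (fun i => Y (gp s + 1 + i))) := rfl
  rw [e]
  by_cases h : s = 0
  · rw [if_pos h, h]
    rfl
  · rw [if_neg h, beq_false h, cond_false]

theorem rep_pk (f : ℕ) : ∀ (s : ℕ) (Y : ℕ → U), Rep Y 16777216 (pk f s) (ln f s Y) := by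
  induction f with
  | zero => intro s Y; exact (Rep.zero Y).mono (Nat.zero_le _)
  | succ f ih =>
    intro s Y
    rw [pk_succ, ln_succ]
    split_ifs with h
    · exact (Rep.zero Y).mono (Nat.zero_le _)
    · have h1 := ih (s / 1099511627776) (fun i => Y (gp s + 1 + i))
      have h2 : Rep (fun i => (fun i => Y (gp s + i)) (i + 1)) 16777216
          (pk f (s / 1099511627776)) (ln f (s / 1099511627776) fun i => Y (gp s + 1 + i)) := by
        have e : (fun i => (fun i => Y (gp s + i)) (i + 1)) = fun i => Y (gp s + 1 + i) := by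
          funext i
          show Y (gp s + (i + 1)) = _
          congr 1
          omega
        rw [e]
        exact h1
      have h3 := Rep.cons (Y := fun i => Y (gp s + i)) (s % 16777216)
        (Nat.mod_lt _ (by norm_num)).le h2
      exact Rep.shift (gp s) h3

theorem ln_congr (f : ℕ) : ∀ (s d : ℕ) (Y Y' : ℕ → U), pk f s < bs ^ d →
    (∀ i < d, Y i = Y' i) → ln f s Y = ln f s Y' := by
  induction f with
  | zero => intro s d Y Y' _ _; rfl
  | succ f ih =>
    intro s d Y Y' h hY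
    rw [pk_succ] at h
    rw [ln_succ, ln_succ]
    split_ifs with h0
    · rfl
    · rw [if_neg h0] at h
      by_cases hg : gp s < d
      · rw [hY _ hg]
        congr 1
        refine ih _ (d - gp s - 1) _ _ ?_ fun i hi => hY _ (by omega)
        have e1 : bs ^ d = bs ^ gp s * (bs * bs ^ (d - gp s - 1)) := by
          rw [← pow_succ', ← pow_add]
          congr 1
          omega
        rw [e1] at h
        have h1 := lt_of_mul_lt_mul_left h (Nat.zero_le _)
        exact lt_of_mul_lt_mul_left (lt_of_le_of_lt (Nat.le_add_left _ _) h1) (Nat.zero_le _)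
      · have h1 : bs ^ d ≤ bs ^ gp s := Nat.pow_le_pow_right bs_pos (not_lt.1 hg)
        have h2 : s % 16777216 + bs * pk f (s / 1099511627776) = 0 := by
          by_contra hne
          have h3 := Nat.le_mul_of_pos_right (bs ^ gp s) (Nat.pos_of_ne_zero hne)
          exact absurd (lt_of_lt_of_le h (h1.trans h3)) (lt_irrefl _)
        obtain ⟨h3, h5⟩ := Nat.add_eq_zero_iff.1 h2
        have h4 : pk f (s / 1099511627776) = 0 := by
          rcases Nat.mul_eq_zero.1 h5 with h6 | h6
          · exact absurd h6 bs_pos.ne'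
          · exact h6
        rw [h3, zero_smul, zero_smul]
        congr 1
        refine ih _ 0 _ _ ?_ fun i hi => absurd hi (Nat.not_lt_zero _)
        rw [h4, pow_zero]
        exact Nat.zero_lt_one

theorem ln_map {V : Type} [AddCommGroup V] (φ : U →+ V) (f : ℕ) :
    ∀ (s : ℕ) (Y : ℕ → U), φ (ln f s Y) = ln f s fun i => φ (Y i) := by
  induction f with
  | zero => intro s Y; exact map_zero φ
  | succ f ih =>
    intro s Y
    rw [ln_succ, ln_succ]
    split_ifs with h
    · exact map_zero φ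
    · rw [map_add, map_nsmul, ih]

theorem ln_mem (f : ℕ) (P : AddSubgroup U) : ∀ (s : ℕ) (Y : ℕ → U), (∀ i, Y i ∈ P) →
    ln f s Y ∈ P := by
  induction f with
  | zero => intro s Y _; exact P.zero_mem
  | succ f ih =>
    intro s Y h
    rw [ln_succ]
    split_ifs
    · exact P.zero_mem
    · exact P.add_mem (P.nsmul_mem (h _) _) (ih _ _ fun i => h _)

/-- The check that a packed row has at most `n` digits. -/
def sml (N n : ℕ) : Bool := Nat.beq (Nat.div N (Nat.pow 2 (Nat.mul 64 n))) 0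

theorem sml_lt {N n : ℕ} (h : sml N n = true) : N < bs ^ n := by
  have h1 : N / 2 ^ (64 * n) = 0 := Nat.eq_of_beq_eq_true h
  rw [pow_mul, ← bs_eq] at h1
  rcases Nat.div_eq_zero_iff.1 h1 with h2 | h2
  · exact absurd h2 (pow_pos bs_pos _).ne'
  · exact h2

/-- The check that all coefficients of a packed row with `n` digits are divisible by `q`. -/
def chk (N n : ℕ) : Bool :=
  Nat.beq (Nat.mod N 14348907) 0 && (Nat.beq (Nat.land (Nat.div N 14348907) (mk n)) 0 &&
    sml N n)

theorem Rep.chk {Y : ℕ → U} {b N n : ℕ} {x : U} (h : Rep Y b N x) (hb : b < bs)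
    (hc : chk N n = true) : ∃ z : U, x = q • z := by
  unfold SWL57.chk at hc
  rw [Bool.and_eq_true, Bool.and_eq_true, ← q_lit, mk_eq] at hc
  obtain ⟨h1, h2, h3⟩ := hc
  exact h.div hb (sml_lt h3) (Nat.eq_of_beq_eq_true h1) (Nat.eq_of_beq_eq_true h2)

/-! ### Trees -/

/-- Binary trees of numbers; the path to an entry is given by the binary digits of its index,
the last digit first. -/
inductive Tr : Type
  | lf (v : ℕ)
  | nd (l r : Tr)

/-- The entry with the given index, `0` if there is none. -/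
noncomputable def gt (t : Tr) : ℕ → ℕ :=
  Tr.rec (fun v i => cond (Nat.beq i 0) v 0)
    (fun _ _ a b i => cond (Nat.beq (Nat.mod i 2) 0) (a (Nat.div i 2)) (b (Nat.div i 2))) t

theorem gt_lf (v i : ℕ) : gt (.lf v) i = if i = 0 then v else 0 := by
  have e : gt (.lf v) i = cond (Nat.beq i 0) v 0 := rfl
  rw [e]
  cases i <;> rfl

theorem gt_nd (l r : Tr) (i : ℕ) :
    gt (.nd l r) i = if i % 2 = 0 then gt l (i / 2) else gt r (i / 2) := by
  have e : gt (.nd l r) i = cond (Nat.beq (i % 2) 0) (gt l (i / 2)) (gt r (i / 2)) := rfl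
  rw [e]
  rcases Nat.mod_two_eq_zero_or_one i with h | h <;> rw [h] <;> rfl

theorem gt_two_mul (l r : Tr) (i : ℕ) : gt (.nd l r) (2 * i) = gt l i := by
  rw [gt_nd, if_pos (Nat.mul_mod_right 2 i), Nat.mul_div_cancel_left _ (by norm_num)]

theorem gt_two_mul_add_one (l r : Tr) (i : ℕ) : gt (.nd l r) (2 * i + 1) = gt r i := by
  rw [gt_nd, if_neg (by omega)]
  congr 1
  omega

end Pool.Agent.SWL57
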