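import Mathlib

/-!
# Codes of operators and abstract modules of states

An operator is given by a code: `0` is the bubble, `100 + 10 i + j` the rung between the rails `i`
and `j`, `200 + 10 i + j` splits the last rail and puts the two parts at the positions `i` and `j`,
`300 + i` merges the two last rails and puts the result at the position `i`, `400 + i` exchanges
the rails `i` and `i + 1`, `500 + i` is the symmetric leg on the rail `i`.
-/

set_option autoImplicit false

namespace Pool.Agent.SWL57

/-- The number of rails after an operator. -/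
def ko (k g : ℕ) : ℕ :=
  if g / 100 = 2 then k + 1 else if g / 100 = 3 then k - 1 else k

/-- The legal operators on `k` rails. -/
def okg (k g : ℕ) : Bool :=
  match g / 100 with
  | 0 => decide (g = 0 ∧ 1 ≤ k ∧ k ≤ 4)
  | 1 => decide (g % 100 / 10 < g % 10 ∧ g % 10 < k ∧ k ≤ 4)
  | 2 => decide (g % 100 / 10 < g % 10 ∧ g % 10 < k + 1 ∧ 1 ≤ k ∧ k ≤ 3)
  | 3 => decide (g % 100 + 1 < k ∧ k ≤ 4)
  | 4 => decide (g % 100 + 1 < k ∧ k ≤ 4)
  | 5 => decide (g % 100 < k ∧ 2 ≤ k ∧ k ≤ 4)
  | _ => false

/-- A term of a relation: the coefficient and the operators. -/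
structure Tm : Type where
  c : ℤ
  w : List ℕ

/-- A relation between products of operators from `k` rails to `k'` rails. -/
structure Rl : Type where
  k : ℕ
  k' : ℕ
  ts : List Tm

/-- The number of rails after a product of operators. -/
def kw : ℕ → List ℕ → ℕ
  | k, [] => k
  | k, g :: w => kw (ko k g) w

/-- The legal products. -/
def okw : ℕ → List ℕ → Bool
  | _, [] => true
  | k, g :: w => okg k g && okw (ko k g) w

/-- The relation is well formed. -/
def Rl.ok (R : Rl) : Bool := R.ts.all fun t => okw R.k t.w && Nat.beq (kw R.k t.w) R.k'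

/-- A product of operators; the first operator of the list is applied first. -/
def ow {U : Type} (op : ℕ → ℕ → U → U) : ℕ → List ℕ → U → U
  | _, [], x => x
  | k, g :: w, x => ow op (ko k g) w (op k g x)

/-- A module of states: `op k g` is the operator `g` on states with `k` rails, `cg n k` are the
states which are divisible by `3 ^ n` up to torsion in every context, `lg k` are the legal states,
`e` is the first state. The relations of the list `rels` hold for all legal states, those of the
list `rels0` for `e`. -/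
structure Md (rels rels0 : List Rl) : Type 1 where
  U : Type
  [gr : AddCommGroup U]
  op : ℕ → ℕ → U →+ U
  cg : ℕ → ℕ → AddSubgroup U
  lg : ℕ → AddSubgroup U
  e : U
  e_lg : e ∈ lg 1
  op_cg : ∀ {n k g : ℕ} {x : U}, okg k g = true → x ∈ cg n k → op k g x ∈ cg n (ko k g)
  op_lg : ∀ {k g : ℕ} {x : U}, okg k g = true → x ∈ lg k → op k g x ∈ lg (ko k g)
  cg_anti : ∀ {n k : ℕ} {x : U}, x ∈ cg (n + 1) k → x ∈ cg n k
  cg_mul : ∀ (n k : ℕ) (x : U), (3 ^ n : ℕ) • x ∈ cg n k
  cg_div : ∀ {a n k : ℕ} {x : U}, (3 ^ a : ℕ) • x ∈ cg (n + a) k → x ∈ cg n k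
  rel : ∀ R ∈ rels, ∀ {x : U}, x ∈ lg R.k → ∀ n : ℕ,
    (R.ts.map fun t => t.c • ow (fun k g => op k g) R.k t.w x).sum ∈ cg n R.k'
  rel0 : ∀ R ∈ rels0, R.k = 1 → ∀ n : ℕ,
    (R.ts.map fun t => t.c • ow (fun k g => op k g) R.k t.w e).sum ∈ cg n R.k'

attribute [instance] Md.gr

end Pool.Agent.SWL57
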