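import Mathlib
import Pool.Agent.SWL57.Md

/-!
# The list of the relations between the operators
-/

set_option autoImplicit false

namespace Pool.Agent.SWL57

/-- Part 0 of the list. -/
def rels0 : List Rl := [
  ⟨2, 1, [⟨1, [300, 0]⟩, ⟨-2, [101, 300]⟩]⟩,
  ⟨2, 1, [⟨1, [300, 0]⟩, ⟨-1, [0, 300]⟩]⟩,
  ⟨2, 1, [⟨1, [300]⟩, ⟨1, [400, 300]⟩]⟩,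
  ⟨1, 1, [⟨1, [0]⟩, ⟨-1, [201, 300]⟩]⟩,
  ⟨3, 1, [⟨1, [301, 300]⟩, ⟨1, [400, 401, 301, 300]⟩, ⟨1, [401, 400, 301, 300]⟩]⟩,
  ⟨2, 2, [⟨1, [101]⟩, ⟨-1, [300, 201]⟩, ⟨-1, [400, 101]⟩]⟩,
  ⟨1, 2, [⟨2, [201, 101]⟩, ⟨-1, [201, 0]⟩]⟩,
  ⟨1, 2, [⟨1, [201, 0]⟩, ⟨-1, [0, 201]⟩]⟩,
  ⟨2, 2, [⟨1, [500]⟩, ⟨1, [501]⟩]⟩,
  ⟨2, 2, [⟨1, [500, 101]⟩, ⟨1, [501, 101]⟩, ⟨-1, [101, 500]⟩, ⟨-1, [101, 501]⟩]⟩,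
  ⟨2, 2, [⟨1, [500, 501]⟩, ⟨-1, [501, 500]⟩]⟩,
  ⟨2, 2, [⟨1, [500, 0]⟩, ⟨-1, [0, 500]⟩]⟩,
  ⟨2, 2, [⟨1, [501, 0]⟩, ⟨-1, [0, 501]⟩]⟩,
  ⟨2, 2, [⟨1, [101, 0]⟩, ⟨-1, [0, 101]⟩]⟩,
  ⟨3, 2, [⟨1, [500, 300]⟩, ⟨-1, [300, 501]⟩]⟩,
  ⟨3, 2, [⟨1, [300, 101]⟩, ⟨-1, [101, 300]⟩, ⟨-1, [102, 300]⟩]⟩,
  ⟨3, 2, [⟨1, [300, 0]⟩, ⟨-2, [112, 300]⟩]⟩,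
  ⟨3, 2, [⟨1, [300, 0]⟩, ⟨-1, [0, 300]⟩]⟩,
  ⟨3, 2, [⟨1, [300]⟩, ⟨1, [401, 300]⟩]⟩,
  ⟨3, 2, [⟨1, [500, 301]⟩, ⟨-1, [301, 500]⟩]⟩,
  ⟨3, 2, [⟨1, [301, 101]⟩, ⟨-1, [101, 301]⟩, ⟨-1, [102, 301]⟩]⟩,
  ⟨3, 2, [⟨1, [301, 0]⟩, ⟨-2, [112, 301]⟩]⟩,
  ⟨3, 2, [⟨1, [301, 0]⟩, ⟨-1, [0, 301]⟩]⟩,
  ⟨3, 2, [⟨1, [301]⟩, ⟨1, [401, 301]⟩]⟩,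
  ⟨2, 2, [⟨1, [0]⟩, ⟨-1, [212, 301]⟩]⟩,
  ⟨2, 2, [⟨1, [212, 300]⟩, ⟨-1, [400, 0]⟩]⟩,
  ⟨2, 2, [⟨1, [101]⟩, ⟨1, [212, 400, 300]⟩]⟩,
  ⟨2, 2, [⟨1, [212, 400, 301]⟩, ⟨1, [400, 101]⟩]⟩,
  ⟨4, 2, [⟨1, [302, 301]⟩, ⟨1, [401, 402, 302, 301]⟩, ⟨1, [402, 401, 302, 301]⟩]⟩,
  ⟨4, 2, [⟨1, [300, 301]⟩, ⟨-1, [401, 400, 402, 401, 300, 300]⟩]⟩,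
  ⟨3, 3, [⟨1, [112]⟩, ⟨-1, [301, 212]⟩, ⟨-1, [401, 112]⟩]⟩,
  ⟨3, 3, [⟨1, [301, 202]⟩, ⟨-1, [400, 102]⟩, ⟨1, [401, 400, 102]⟩]⟩,
  ⟨3, 3, [⟨1, [301, 201]⟩, ⟨-1, [400, 401, 101]⟩, ⟨1, [401, 400, 401, 101]⟩]⟩,
  ⟨3, 3, [⟨1, [301, 201]⟩, ⟨1, [400, 401, 400, 101]⟩, ⟨-1, [401, 400, 401, 400, 101]⟩]⟩,
  ⟨2, 3, [⟨1, [201, 502]⟩, ⟨-1, [500, 201]⟩]⟩,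
  ⟨2, 3, [⟨1, [201, 102]⟩, ⟨1, [201, 112]⟩, ⟨-1, [101, 201]⟩]⟩,
  ⟨2, 3, [⟨1, [201, 500]⟩, ⟨1, [201, 501]⟩, ⟨-1, [501, 201]⟩]⟩,
  ⟨2, 3, [⟨2, [201, 101]⟩, ⟨-1, [201, 0]⟩]⟩,
  ⟨2, 3, [⟨1, [201, 0]⟩, ⟨-1, [0, 201]⟩]⟩,
  ⟨2, 3, [⟨1, [202, 501]⟩, ⟨-1, [500, 202]⟩]⟩,
  ⟨2, 3, [⟨1, [202, 101]⟩, ⟨1, [202, 112]⟩, ⟨-1, [101, 202]⟩]⟩,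
  ⟨2, 3, [⟨1, [202, 500]⟩, ⟨1, [202, 502]⟩, ⟨-1, [501, 202]⟩]⟩,
  ⟨2, 3, [⟨2, [202, 102]⟩, ⟨-1, [202, 0]⟩]⟩,
  ⟨2, 3, [⟨1, [202, 0]⟩, ⟨-1, [0, 202]⟩]⟩,
  ⟨2, 3, [⟨1, [212, 500]⟩, ⟨-1, [500, 212]⟩]⟩,
  ⟨2, 3, [⟨1, [212, 101]⟩, ⟨1, [212, 102]⟩, ⟨-1, [101, 212]⟩]⟩,
  ⟨2, 3, [⟨1, [212, 501]⟩, ⟨1, [212, 502]⟩, ⟨-1, [501, 212]⟩]⟩,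
  ⟨2, 3, [⟨2, [212, 112]⟩, ⟨-1, [212, 0]⟩]⟩,
  ⟨2, 3, [⟨1, [212, 0]⟩, ⟨-1, [0, 212]⟩]⟩,
  ⟨3, 3, [⟨1, [500]⟩, ⟨1, [501]⟩, ⟨1, [502]⟩]⟩,
  ⟨3, 3, [⟨1, [500, 112]⟩, ⟨-1, [112, 500]⟩]⟩,
  ⟨3, 3, [⟨1, [501, 102]⟩, ⟨-1, [102, 501]⟩]⟩,
  ⟨3, 3, [⟨1, [502, 101]⟩, ⟨-1, [101, 502]⟩]⟩,
  ⟨3, 3, [⟨1, [500, 101]⟩, ⟨1, [501, 101]⟩, ⟨-1, [101, 500]⟩, ⟨-1, [101, 501]⟩]⟩,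
  ⟨3, 3, [⟨1, [500, 501]⟩, ⟨-1, [501, 500]⟩, ⟨-1, [101, 112]⟩, ⟨1, [112, 101]⟩]⟩,
  ⟨3, 3, [⟨1, [101, 102]⟩, ⟨1, [101, 112]⟩, ⟨-1, [102, 101]⟩, ⟨-1, [112, 101]⟩]⟩,
  ⟨3, 3, [⟨1, [500, 102]⟩, ⟨1, [502, 102]⟩, ⟨-1, [102, 500]⟩, ⟨-1, [102, 502]⟩]⟩,
  ⟨3, 3, [⟨1, [500, 502]⟩, ⟨-1, [502, 500]⟩, ⟨-1, [102, 112]⟩, ⟨1, [112, 102]⟩]⟩,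
  ⟨3, 3, [⟨1, [101, 102]⟩, ⟨-1, [102, 101]⟩, ⟨-1, [102, 112]⟩, ⟨1, [112, 102]⟩]⟩,
  ⟨3, 3, [⟨1, [501, 112]⟩, ⟨1, [502, 112]⟩, ⟨-1, [112, 501]⟩, ⟨-1, [112, 502]⟩]⟩]

/-- Part 1 of the list. -/
def rels1 : List Rl := [
  ⟨3, 3, [⟨1, [501, 502]⟩, ⟨-1, [502, 501]⟩, ⟨1, [102, 112]⟩, ⟨-1, [112, 102]⟩]⟩,
  ⟨3, 3, [⟨1, [101, 112]⟩, ⟨1, [102, 112]⟩, ⟨-1, [112, 101]⟩, ⟨-1, [112, 102]⟩]⟩,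
  ⟨3, 3, [⟨1, [500, 0]⟩, ⟨-1, [0, 500]⟩]⟩,
  ⟨3, 3, [⟨1, [501, 0]⟩, ⟨-1, [0, 501]⟩]⟩,
  ⟨3, 3, [⟨1, [502, 0]⟩, ⟨-1, [0, 502]⟩]⟩,
  ⟨3, 3, [⟨1, [101, 0]⟩, ⟨-1, [0, 101]⟩]⟩,
  ⟨3, 3, [⟨1, [102, 0]⟩, ⟨-1, [0, 102]⟩]⟩,
  ⟨3, 3, [⟨1, [112, 0]⟩, ⟨-1, [0, 112]⟩]⟩,
  ⟨1, 3, [⟨1, [201, 201]⟩, ⟨-1, [201, 202]⟩, ⟨1, [201, 212]⟩]⟩,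
  ⟨4, 3, [⟨1, [500, 300]⟩, ⟨-1, [300, 501]⟩]⟩,
  ⟨4, 3, [⟨1, [300, 101]⟩, ⟨-1, [102, 300]⟩, ⟨-1, [103, 300]⟩]⟩,
  ⟨4, 3, [⟨1, [300, 112]⟩, ⟨-1, [101, 300]⟩]⟩,
  ⟨4, 3, [⟨1, [501, 300]⟩, ⟨-1, [300, 502]⟩]⟩,
  ⟨4, 3, [⟨1, [300, 102]⟩, ⟨-1, [112, 300]⟩, ⟨-1, [113, 300]⟩]⟩,
  ⟨4, 3, [⟨1, [300, 0]⟩, ⟨-2, [123, 300]⟩]⟩,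
  ⟨4, 3, [⟨1, [300, 0]⟩, ⟨-1, [0, 300]⟩]⟩,
  ⟨4, 3, [⟨1, [300]⟩, ⟨1, [402, 300]⟩]⟩,
  ⟨4, 3, [⟨1, [500, 301]⟩, ⟨-1, [301, 500]⟩]⟩,
  ⟨4, 3, [⟨1, [301, 101]⟩, ⟨-1, [102, 301]⟩, ⟨-1, [103, 301]⟩]⟩,
  ⟨4, 3, [⟨1, [301, 102]⟩, ⟨-1, [101, 301]⟩]⟩,
  ⟨4, 3, [⟨1, [501, 301]⟩, ⟨-1, [301, 502]⟩]⟩,
  ⟨4, 3, [⟨1, [301, 112]⟩, ⟨-1, [112, 301]⟩, ⟨-1, [113, 301]⟩]⟩,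
  ⟨4, 3, [⟨1, [301, 0]⟩, ⟨-2, [123, 301]⟩]⟩,
  ⟨4, 3, [⟨1, [301, 0]⟩, ⟨-1, [0, 301]⟩]⟩,
  ⟨4, 3, [⟨1, [301]⟩, ⟨1, [402, 301]⟩]⟩,
  ⟨4, 3, [⟨1, [500, 302]⟩, ⟨-1, [302, 500]⟩]⟩,
  ⟨4, 3, [⟨1, [302, 102]⟩, ⟨-1, [102, 302]⟩, ⟨-1, [103, 302]⟩]⟩,
  ⟨4, 3, [⟨1, [302, 101]⟩, ⟨-1, [101, 302]⟩]⟩,
  ⟨4, 3, [⟨1, [501, 302]⟩, ⟨-1, [302, 501]⟩]⟩,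
  ⟨4, 3, [⟨1, [302, 112]⟩, ⟨-1, [112, 302]⟩, ⟨-1, [113, 302]⟩]⟩,
  ⟨4, 3, [⟨1, [302, 0]⟩, ⟨-2, [123, 302]⟩]⟩,
  ⟨4, 3, [⟨1, [302, 0]⟩, ⟨-1, [0, 302]⟩]⟩,
  ⟨4, 3, [⟨1, [302]⟩, ⟨1, [402, 302]⟩]⟩,
  ⟨3, 3, [⟨1, [0]⟩, ⟨-1, [223, 302]⟩]⟩,
  ⟨3, 3, [⟨1, [223, 301]⟩, ⟨-1, [401, 0]⟩]⟩,
  ⟨3, 3, [⟨1, [223, 300]⟩, ⟨-1, [401, 400, 0]⟩]⟩,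
  ⟨3, 3, [⟨1, [223, 400, 302]⟩, ⟨-1, [400, 0]⟩]⟩,
  ⟨3, 3, [⟨1, [223, 400, 301]⟩, ⟨-1, [400, 401, 0]⟩]⟩,
  ⟨3, 3, [⟨1, [223, 400, 300]⟩, ⟨-1, [400, 401, 400, 0]⟩]⟩,
  ⟨3, 3, [⟨1, [112]⟩, ⟨1, [223, 401, 301]⟩]⟩,
  ⟨3, 3, [⟨1, [223, 401, 302]⟩, ⟨1, [401, 112]⟩]⟩,
  ⟨3, 3, [⟨1, [223, 401, 400, 302]⟩, ⟨1, [401, 400, 102]⟩]⟩,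
  ⟨3, 3, [⟨1, [223, 401, 300]⟩, ⟨1, [400, 102]⟩]⟩,
  ⟨3, 3, [⟨1, [223, 401, 400, 300]⟩, ⟨1, [400, 401, 101]⟩]⟩,
  ⟨3, 3, [⟨1, [223, 401, 400, 301]⟩, ⟨1, [400, 401, 400, 101]⟩]⟩,
  ⟨3, 3, [⟨1, [223, 401, 400, 402, 401, 300]⟩, ⟨-1, [401, 400, 300, 212]⟩]⟩,
  ⟨3, 3, [⟨1, [223, 401, 400, 402, 401, 400, 300]⟩, ⟨1, [401, 400, 300, 212]⟩]⟩,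
  ⟨3, 3, [⟨1, [223, 401, 400, 402, 401, 400, 301]⟩, ⟨1, [401, 400, 300, 202]⟩]⟩,
  ⟨3, 3, [⟨1, [223, 401, 400, 402, 401, 301]⟩, ⟨-1, [401, 400, 300, 202]⟩]⟩,
  ⟨3, 3, [⟨1, [223, 401, 400, 402, 401, 302]⟩, ⟨-1, [401, 400, 300, 201]⟩]⟩,
  ⟨3, 3, [⟨1, [223, 401, 400, 402, 401, 400, 302]⟩, ⟨1, [401, 400, 300, 201]⟩]⟩,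
  ⟨4, 4, [⟨1, [123]⟩, ⟨-1, [302, 223]⟩, ⟨-1, [402, 123]⟩]⟩,
  ⟨4, 4, [⟨1, [302, 213]⟩, ⟨-1, [401, 113]⟩, ⟨1, [402, 401, 113]⟩]⟩,
  ⟨4, 4, [⟨1, [302, 203]⟩, ⟨-1, [401, 400, 103]⟩, ⟨1, [402, 401, 400, 103]⟩]⟩,
  ⟨4, 4, [⟨1, [302, 212]⟩, ⟨-1, [401, 402, 112]⟩, ⟨1, [402, 401, 402, 112]⟩]⟩,
  ⟨4, 4, [⟨1, [302, 212]⟩, ⟨1, [401, 402, 401, 112]⟩, ⟨-1, [402, 401, 402, 401, 112]⟩]⟩,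
  ⟨4, 4, [⟨1, [302, 202]⟩, ⟨1, [401, 402, 401, 400, 102]⟩, ⟨-1, [402, 401, 402, 401, 400, 102]⟩]⟩,
  ⟨4, 4, [⟨1, [302, 202]⟩, ⟨-1, [401, 400, 402, 102]⟩, ⟨1, [402, 401, 400, 402, 102]⟩]⟩,
  ⟨4, 4, [⟨1, [302, 201]⟩, ⟨-1, [401, 400, 402, 401, 101]⟩, ⟨1, [402, 401, 400, 402, 401, 101]⟩]⟩,
  ⟨4, 4, [⟨1, [302, 201]⟩, ⟨1, [401, 400, 402, 401, 400, 101]⟩, ⟨-1, [402, 401, 400, 402, 401, 400, 101]⟩]⟩]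

/-- Part 2 of the list. -/
def rels2 : List Rl := [
  ⟨4, 4, [⟨1, [302, 400, 223]⟩, ⟨-1, [400, 123]⟩, ⟨1, [402, 400, 123]⟩]⟩,
  ⟨4, 4, [⟨1, [302, 400, 223]⟩, ⟨1, [400, 402, 123]⟩, ⟨-1, [402, 400, 402, 123]⟩]⟩,
  ⟨4, 4, [⟨1, [302, 400, 213]⟩, ⟨1, [400, 402, 401, 113]⟩, ⟨-1, [402, 400, 402, 401, 113]⟩]⟩,
  ⟨4, 4, [⟨1, [302, 400, 203]⟩, ⟨1, [400, 402, 401, 400, 103]⟩, ⟨-1, [402, 400, 402, 401, 400, 103]⟩]⟩,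
  ⟨4, 4, [⟨1, [302, 400, 213]⟩, ⟨-1, [400, 401, 113]⟩, ⟨1, [402, 400, 401, 113]⟩]⟩,
  ⟨4, 4, [⟨1, [302, 400, 212]⟩, ⟨-1, [400, 401, 402, 112]⟩, ⟨1, [402, 400, 401, 402, 112]⟩]⟩,
  ⟨4, 4, [⟨1, [302, 400, 212]⟩, ⟨1, [400, 401, 402, 401, 112]⟩, ⟨-1, [402, 400, 401, 402, 401, 112]⟩]⟩,
  ⟨4, 4, [⟨1, [302, 400, 202]⟩, ⟨1, [400, 401, 402, 401, 400, 102]⟩, ⟨-1, [402, 400, 401, 402, 401, 400, 102]⟩]⟩,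
  ⟨4, 4, [⟨1, [302, 400, 203]⟩, ⟨-1, [400, 401, 400, 103]⟩, ⟨1, [402, 400, 401, 400, 103]⟩]⟩,
  ⟨4, 4, [⟨1, [302, 400, 202]⟩, ⟨-1, [400, 401, 400, 402, 102]⟩, ⟨1, [402, 400, 401, 400, 402, 102]⟩]⟩,
  ⟨4, 4, [⟨1, [302, 400, 201]⟩, ⟨-1, [400, 401, 400, 402, 401, 101]⟩, ⟨1, [402, 400, 401, 400, 402, 401, 101]⟩]⟩,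
  ⟨4, 4, [⟨1, [302, 400, 201]⟩, ⟨1, [400, 401, 400, 402, 401, 400, 101]⟩, ⟨-1, [402, 400, 401, 400, 402, 401, 400, 101]⟩]⟩,
  ⟨3, 4, [⟨1, [201, 502]⟩, ⟨-1, [500, 201]⟩]⟩,
  ⟨3, 4, [⟨1, [201, 102]⟩, ⟨1, [201, 112]⟩, ⟨-1, [102, 201]⟩]⟩,
  ⟨3, 4, [⟨1, [201, 123]⟩, ⟨-1, [101, 201]⟩]⟩,
  ⟨3, 4, [⟨1, [201, 503]⟩, ⟨-1, [501, 201]⟩]⟩,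
  ⟨3, 4, [⟨1, [201, 103]⟩, ⟨1, [201, 113]⟩, ⟨-1, [112, 201]⟩]⟩,
  ⟨3, 4, [⟨1, [201, 500]⟩, ⟨1, [201, 501]⟩, ⟨-1, [502, 201]⟩]⟩,
  ⟨3, 4, [⟨2, [201, 101]⟩, ⟨-1, [201, 0]⟩]⟩,
  ⟨3, 4, [⟨1, [201, 0]⟩, ⟨-1, [0, 201]⟩]⟩,
  ⟨3, 4, [⟨1, [202, 501]⟩, ⟨-1, [500, 202]⟩]⟩,
  ⟨3, 4, [⟨1, [202, 101]⟩, ⟨1, [202, 112]⟩, ⟨-1, [102, 202]⟩]⟩,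
  ⟨3, 4, [⟨1, [202, 113]⟩, ⟨-1, [101, 202]⟩]⟩,
  ⟨3, 4, [⟨1, [202, 503]⟩, ⟨-1, [501, 202]⟩]⟩,
  ⟨3, 4, [⟨1, [202, 103]⟩, ⟨1, [202, 123]⟩, ⟨-1, [112, 202]⟩]⟩,
  ⟨3, 4, [⟨1, [202, 500]⟩, ⟨1, [202, 502]⟩, ⟨-1, [502, 202]⟩]⟩,
  ⟨3, 4, [⟨2, [202, 102]⟩, ⟨-1, [202, 0]⟩]⟩,
  ⟨3, 4, [⟨1, [202, 0]⟩, ⟨-1, [0, 202]⟩]⟩,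
  ⟨3, 4, [⟨1, [203, 501]⟩, ⟨-1, [500, 203]⟩]⟩,
  ⟨3, 4, [⟨1, [203, 101]⟩, ⟨1, [203, 113]⟩, ⟨-1, [102, 203]⟩]⟩,
  ⟨3, 4, [⟨1, [203, 112]⟩, ⟨-1, [101, 203]⟩]⟩,
  ⟨3, 4, [⟨1, [203, 502]⟩, ⟨-1, [501, 203]⟩]⟩,
  ⟨3, 4, [⟨1, [203, 102]⟩, ⟨1, [203, 123]⟩, ⟨-1, [112, 203]⟩]⟩,
  ⟨3, 4, [⟨1, [203, 500]⟩, ⟨1, [203, 503]⟩, ⟨-1, [502, 203]⟩]⟩,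
  ⟨3, 4, [⟨2, [203, 103]⟩, ⟨-1, [203, 0]⟩]⟩,
  ⟨3, 4, [⟨1, [203, 0]⟩, ⟨-1, [0, 203]⟩]⟩,
  ⟨3, 4, [⟨1, [212, 500]⟩, ⟨-1, [500, 212]⟩]⟩,
  ⟨3, 4, [⟨1, [212, 101]⟩, ⟨1, [212, 102]⟩, ⟨-1, [102, 212]⟩]⟩,
  ⟨3, 4, [⟨1, [212, 103]⟩, ⟨-1, [101, 212]⟩]⟩,
  ⟨3, 4, [⟨1, [212, 503]⟩, ⟨-1, [501, 212]⟩]⟩,
  ⟨3, 4, [⟨1, [212, 113]⟩, ⟨1, [212, 123]⟩, ⟨-1, [112, 212]⟩]⟩,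
  ⟨3, 4, [⟨1, [212, 501]⟩, ⟨1, [212, 502]⟩, ⟨-1, [502, 212]⟩]⟩,
  ⟨3, 4, [⟨2, [212, 112]⟩, ⟨-1, [212, 0]⟩]⟩,
  ⟨3, 4, [⟨1, [212, 0]⟩, ⟨-1, [0, 212]⟩]⟩,
  ⟨3, 4, [⟨1, [213, 500]⟩, ⟨-1, [500, 213]⟩]⟩,
  ⟨3, 4, [⟨1, [213, 101]⟩, ⟨1, [213, 103]⟩, ⟨-1, [102, 213]⟩]⟩,
  ⟨3, 4, [⟨1, [213, 102]⟩, ⟨-1, [101, 213]⟩]⟩,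
  ⟨3, 4, [⟨1, [213, 502]⟩, ⟨-1, [501, 213]⟩]⟩,
  ⟨3, 4, [⟨1, [213, 112]⟩, ⟨1, [213, 123]⟩, ⟨-1, [112, 213]⟩]⟩,
  ⟨3, 4, [⟨1, [213, 501]⟩, ⟨1, [213, 503]⟩, ⟨-1, [502, 213]⟩]⟩,
  ⟨3, 4, [⟨2, [213, 113]⟩, ⟨-1, [213, 0]⟩]⟩,
  ⟨3, 4, [⟨1, [213, 0]⟩, ⟨-1, [0, 213]⟩]⟩,
  ⟨3, 4, [⟨1, [223, 500]⟩, ⟨-1, [500, 223]⟩]⟩,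
  ⟨3, 4, [⟨1, [223, 102]⟩, ⟨1, [223, 103]⟩, ⟨-1, [102, 223]⟩]⟩,
  ⟨3, 4, [⟨1, [223, 101]⟩, ⟨-1, [101, 223]⟩]⟩,
  ⟨3, 4, [⟨1, [223, 501]⟩, ⟨-1, [501, 223]⟩]⟩,
  ⟨3, 4, [⟨1, [223, 112]⟩, ⟨1, [223, 113]⟩, ⟨-1, [112, 223]⟩]⟩,
  ⟨3, 4, [⟨1, [223, 502]⟩, ⟨1, [223, 503]⟩, ⟨-1, [502, 223]⟩]⟩,
  ⟨3, 4, [⟨2, [223, 123]⟩, ⟨-1, [223, 0]⟩]⟩,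
  ⟨3, 4, [⟨1, [223, 0]⟩, ⟨-1, [0, 223]⟩]⟩]

/-- Part 3 of the list. -/
def rels3 : List Rl := [
  ⟨4, 4, [⟨1, [500]⟩, ⟨1, [501]⟩, ⟨1, [502]⟩, ⟨1, [503]⟩]⟩,
  ⟨4, 4, [⟨1, [500, 112]⟩, ⟨-1, [112, 500]⟩]⟩,
  ⟨4, 4, [⟨1, [500, 113]⟩, ⟨-1, [113, 500]⟩]⟩,
  ⟨4, 4, [⟨1, [500, 123]⟩, ⟨-1, [123, 500]⟩]⟩,
  ⟨4, 4, [⟨1, [501, 102]⟩, ⟨-1, [102, 501]⟩]⟩,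
  ⟨4, 4, [⟨1, [501, 103]⟩, ⟨-1, [103, 501]⟩]⟩,
  ⟨4, 4, [⟨1, [501, 123]⟩, ⟨-1, [123, 501]⟩]⟩,
  ⟨4, 4, [⟨1, [502, 101]⟩, ⟨-1, [101, 502]⟩]⟩,
  ⟨4, 4, [⟨1, [502, 103]⟩, ⟨-1, [103, 502]⟩]⟩,
  ⟨4, 4, [⟨1, [502, 113]⟩, ⟨-1, [113, 502]⟩]⟩,
  ⟨4, 4, [⟨1, [503, 101]⟩, ⟨-1, [101, 503]⟩]⟩,
  ⟨4, 4, [⟨1, [503, 102]⟩, ⟨-1, [102, 503]⟩]⟩,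
  ⟨4, 4, [⟨1, [503, 112]⟩, ⟨-1, [112, 503]⟩]⟩,
  ⟨4, 4, [⟨1, [500, 101]⟩, ⟨1, [501, 101]⟩, ⟨-1, [101, 500]⟩, ⟨-1, [101, 501]⟩]⟩,
  ⟨4, 4, [⟨1, [500, 501]⟩, ⟨-1, [501, 500]⟩, ⟨-1, [101, 112]⟩, ⟨-1, [101, 113]⟩, ⟨1, [112, 101]⟩, ⟨1, [113, 101]⟩]⟩,
  ⟨4, 4, [⟨1, [101, 102]⟩, ⟨1, [101, 112]⟩, ⟨-1, [102, 101]⟩, ⟨-1, [112, 101]⟩]⟩,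
  ⟨4, 4, [⟨1, [101, 103]⟩, ⟨1, [101, 113]⟩, ⟨-1, [103, 101]⟩, ⟨-1, [113, 101]⟩]⟩,
  ⟨4, 4, [⟨1, [500, 102]⟩, ⟨1, [502, 102]⟩, ⟨-1, [102, 500]⟩, ⟨-1, [102, 502]⟩]⟩,
  ⟨4, 4, [⟨1, [500, 502]⟩, ⟨-1, [502, 500]⟩, ⟨-1, [102, 112]⟩, ⟨-1, [102, 123]⟩, ⟨1, [112, 102]⟩, ⟨1, [123, 102]⟩]⟩,
  ⟨4, 4, [⟨1, [101, 102]⟩, ⟨-1, [102, 101]⟩, ⟨-1, [102, 112]⟩, ⟨1, [112, 102]⟩]⟩,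
  ⟨4, 4, [⟨1, [102, 103]⟩, ⟨1, [102, 123]⟩, ⟨-1, [103, 102]⟩, ⟨-1, [123, 102]⟩]⟩,
  ⟨4, 4, [⟨1, [500, 103]⟩, ⟨1, [503, 103]⟩, ⟨-1, [103, 500]⟩, ⟨-1, [103, 503]⟩]⟩,
  ⟨4, 4, [⟨1, [500, 503]⟩, ⟨-1, [503, 500]⟩, ⟨-1, [103, 113]⟩, ⟨-1, [103, 123]⟩, ⟨1, [113, 103]⟩, ⟨1, [123, 103]⟩]⟩,
  ⟨4, 4, [⟨1, [101, 103]⟩, ⟨-1, [103, 101]⟩, ⟨-1, [103, 113]⟩, ⟨1, [113, 103]⟩]⟩,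
  ⟨4, 4, [⟨1, [102, 103]⟩, ⟨-1, [103, 102]⟩, ⟨-1, [103, 123]⟩, ⟨1, [123, 103]⟩]⟩,
  ⟨4, 4, [⟨1, [501, 112]⟩, ⟨1, [502, 112]⟩, ⟨-1, [112, 501]⟩, ⟨-1, [112, 502]⟩]⟩,
  ⟨4, 4, [⟨1, [501, 502]⟩, ⟨-1, [502, 501]⟩, ⟨1, [102, 112]⟩, ⟨-1, [112, 102]⟩, ⟨-1, [112, 123]⟩, ⟨1, [123, 112]⟩]⟩,
  ⟨4, 4, [⟨1, [101, 112]⟩, ⟨1, [102, 112]⟩, ⟨-1, [112, 101]⟩, ⟨-1, [112, 102]⟩]⟩,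
  ⟨4, 4, [⟨1, [112, 113]⟩, ⟨1, [112, 123]⟩, ⟨-1, [113, 112]⟩, ⟨-1, [123, 112]⟩]⟩,
  ⟨4, 4, [⟨1, [501, 113]⟩, ⟨1, [503, 113]⟩, ⟨-1, [113, 501]⟩, ⟨-1, [113, 503]⟩]⟩,
  ⟨4, 4, [⟨1, [501, 503]⟩, ⟨-1, [503, 501]⟩, ⟨1, [103, 113]⟩, ⟨-1, [113, 103]⟩, ⟨-1, [113, 123]⟩, ⟨1, [123, 113]⟩]⟩,
  ⟨4, 4, [⟨1, [101, 113]⟩, ⟨1, [103, 113]⟩, ⟨-1, [113, 101]⟩, ⟨-1, [113, 103]⟩]⟩,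
  ⟨4, 4, [⟨1, [112, 113]⟩, ⟨-1, [113, 112]⟩, ⟨-1, [113, 123]⟩, ⟨1, [123, 113]⟩]⟩,
  ⟨4, 4, [⟨1, [502, 123]⟩, ⟨1, [503, 123]⟩, ⟨-1, [123, 502]⟩, ⟨-1, [123, 503]⟩]⟩,
  ⟨4, 4, [⟨1, [502, 503]⟩, ⟨-1, [503, 502]⟩, ⟨1, [103, 123]⟩, ⟨1, [113, 123]⟩, ⟨-1, [123, 103]⟩, ⟨-1, [123, 113]⟩]⟩,
  ⟨4, 4, [⟨1, [102, 123]⟩, ⟨1, [103, 123]⟩, ⟨-1, [123, 102]⟩, ⟨-1, [123, 103]⟩]⟩,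
  ⟨4, 4, [⟨1, [112, 123]⟩, ⟨1, [113, 123]⟩, ⟨-1, [123, 112]⟩, ⟨-1, [123, 113]⟩]⟩,
  ⟨4, 4, [⟨1, [101, 123]⟩, ⟨-1, [123, 101]⟩]⟩,
  ⟨4, 4, [⟨1, [102, 113]⟩, ⟨-1, [113, 102]⟩]⟩,
  ⟨4, 4, [⟨1, [103, 112]⟩, ⟨-1, [112, 103]⟩]⟩,
  ⟨4, 4, [⟨1, [500, 0]⟩, ⟨-1, [0, 500]⟩]⟩,
  ⟨4, 4, [⟨1, [501, 0]⟩, ⟨-1, [0, 501]⟩]⟩,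
  ⟨4, 4, [⟨1, [502, 0]⟩, ⟨-1, [0, 502]⟩]⟩,
  ⟨4, 4, [⟨1, [503, 0]⟩, ⟨-1, [0, 503]⟩]⟩,
  ⟨4, 4, [⟨1, [101, 0]⟩, ⟨-1, [0, 101]⟩]⟩,
  ⟨4, 4, [⟨1, [102, 0]⟩, ⟨-1, [0, 102]⟩]⟩,
  ⟨4, 4, [⟨1, [103, 0]⟩, ⟨-1, [0, 103]⟩]⟩,
  ⟨4, 4, [⟨1, [112, 0]⟩, ⟨-1, [0, 112]⟩]⟩,
  ⟨4, 4, [⟨1, [113, 0]⟩, ⟨-1, [0, 113]⟩]⟩,
  ⟨4, 4, [⟨1, [123, 0]⟩, ⟨-1, [0, 123]⟩]⟩,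
  ⟨2, 4, [⟨1, [212, 212]⟩, ⟨-1, [212, 213]⟩, ⟨1, [212, 223]⟩]⟩,
  ⟨2, 4, [⟨1, [212, 202]⟩, ⟨-1, [212, 203]⟩, ⟨1, [212, 400, 223]⟩]⟩,
  ⟨2, 4, [⟨1, [212, 201]⟩, ⟨-1, [212, 400, 203]⟩, ⟨1, [212, 400, 213]⟩]⟩,
  ⟨2, 4, [⟨1, [212, 400, 201]⟩, ⟨-1, [212, 400, 202]⟩, ⟨1, [212, 400, 212]⟩]⟩,
  ⟨2, 4, [⟨1, [212, 400, 401, 201]⟩, ⟨-1, [400, 201, 223]⟩]⟩,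
  ⟨2, 4, [⟨1, [212, 400, 401, 400, 201]⟩, ⟨1, [400, 201, 223]⟩]⟩,
  ⟨2, 4, [⟨1, [212, 400, 401, 400, 202]⟩, ⟨1, [400, 201, 213]⟩]⟩,
  ⟨2, 4, [⟨1, [212, 400, 401, 400, 212]⟩, ⟨1, [400, 201, 203]⟩]⟩,
  ⟨2, 4, [⟨1, [212, 400, 401, 202]⟩, ⟨-1, [400, 201, 213]⟩]⟩,
  ⟨2, 4, [⟨1, [212, 400, 401, 203]⟩, ⟨-1, [400, 201, 212]⟩]⟩]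

/-- Part 4 of the list. -/
def rels4 : List Rl := [
  ⟨2, 4, [⟨1, [212, 400, 401, 400, 203]⟩, ⟨1, [400, 201, 212]⟩]⟩,
  ⟨2, 4, [⟨1, [212, 400, 401, 400, 213]⟩, ⟨1, [400, 201, 202]⟩]⟩,
  ⟨2, 4, [⟨1, [212, 400, 401, 212]⟩, ⟨-1, [400, 201, 203]⟩]⟩,
  ⟨2, 4, [⟨1, [212, 400, 401, 213]⟩, ⟨-1, [400, 201, 202]⟩]⟩,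
  ⟨2, 4, [⟨1, [212, 400, 401, 223]⟩, ⟨-1, [400, 201, 201]⟩]⟩,
  ⟨2, 4, [⟨1, [212, 400, 401, 400, 223]⟩, ⟨1, [400, 201, 201]⟩]⟩,
  ⟨2, 4, [⟨1, [212, 400, 401, 201]⟩, ⟨1, [400, 201, 400, 223]⟩]⟩,
  ⟨2, 4, [⟨1, [212, 400, 401, 400, 201]⟩, ⟨-1, [400, 201, 400, 223]⟩]⟩,
  ⟨2, 4, [⟨1, [212, 400, 401, 400, 202]⟩, ⟨-1, [400, 201, 400, 213]⟩]⟩,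
  ⟨2, 4, [⟨1, [212, 400, 401, 400, 212]⟩, ⟨-1, [400, 201, 400, 203]⟩]⟩,
  ⟨2, 4, [⟨1, [212, 400, 401, 202]⟩, ⟨1, [400, 201, 400, 213]⟩]⟩,
  ⟨2, 4, [⟨1, [212, 400, 401, 203]⟩, ⟨1, [400, 201, 400, 212]⟩]⟩,
  ⟨2, 4, [⟨1, [212, 400, 401, 400, 203]⟩, ⟨-1, [400, 201, 400, 212]⟩]⟩,
  ⟨2, 4, [⟨1, [212, 400, 401, 400, 213]⟩, ⟨-1, [400, 201, 400, 202]⟩]⟩,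
  ⟨2, 4, [⟨1, [212, 400, 401, 212]⟩, ⟨1, [400, 201, 400, 203]⟩]⟩,
  ⟨2, 4, [⟨1, [212, 400, 401, 213]⟩, ⟨1, [400, 201, 400, 202]⟩]⟩,
  ⟨2, 4, [⟨1, [212, 400, 401, 223]⟩, ⟨1, [400, 201, 400, 201]⟩]⟩,
  ⟨2, 4, [⟨1, [212, 400, 401, 400, 223]⟩, ⟨-1, [400, 201, 400, 201]⟩]⟩,
  ⟨2, 2, [⟨1, [0, 400]⟩, ⟨-1, [400, 0]⟩]⟩,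
  ⟨2, 2, [⟨1, [101, 400]⟩, ⟨-1, [400, 101]⟩]⟩,
  ⟨2, 2, [⟨1, [500, 400]⟩, ⟨-1, [400, 501]⟩]⟩,
  ⟨2, 2, [⟨1, [501, 400]⟩, ⟨-1, [400, 500]⟩]⟩,
  ⟨1, 2, [⟨1, [201, 400]⟩, ⟨1, [201]⟩]⟩,
  ⟨3, 2, [⟨1, [301, 400]⟩, ⟨-1, [300]⟩]⟩,
  ⟨3, 2, [⟨1, [300, 400]⟩, ⟨-1, [301]⟩]⟩,
  ⟨2, 3, [⟨1, [201, 400]⟩, ⟨1, [201]⟩]⟩,
  ⟨2, 3, [⟨1, [201, 401]⟩, ⟨-1, [202]⟩]⟩,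
  ⟨2, 3, [⟨1, [202, 400]⟩, ⟨-1, [212]⟩]⟩,
  ⟨2, 3, [⟨1, [202, 401]⟩, ⟨-1, [201]⟩]⟩,
  ⟨2, 3, [⟨1, [212, 400]⟩, ⟨-1, [202]⟩]⟩,
  ⟨2, 3, [⟨1, [212, 401]⟩, ⟨1, [212]⟩]⟩,
  ⟨3, 3, [⟨1, [0, 400]⟩, ⟨-1, [400, 0]⟩]⟩,
  ⟨3, 3, [⟨1, [0, 401]⟩, ⟨-1, [401, 0]⟩]⟩,
  ⟨3, 3, [⟨1, [500, 400]⟩, ⟨-1, [400, 501]⟩]⟩,
  ⟨3, 3, [⟨1, [500, 401]⟩, ⟨-1, [401, 500]⟩]⟩,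
  ⟨3, 3, [⟨1, [501, 400]⟩, ⟨-1, [400, 500]⟩]⟩,
  ⟨3, 3, [⟨1, [501, 401]⟩, ⟨-1, [401, 502]⟩]⟩,
  ⟨3, 3, [⟨1, [502, 400]⟩, ⟨-1, [400, 502]⟩]⟩,
  ⟨3, 3, [⟨1, [502, 401]⟩, ⟨-1, [401, 501]⟩]⟩,
  ⟨3, 3, [⟨1, [101, 400]⟩, ⟨-1, [400, 101]⟩]⟩,
  ⟨3, 3, [⟨1, [101, 401]⟩, ⟨-1, [401, 102]⟩]⟩,
  ⟨3, 3, [⟨1, [102, 400]⟩, ⟨-1, [400, 112]⟩]⟩,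
  ⟨3, 3, [⟨1, [102, 401]⟩, ⟨-1, [401, 101]⟩]⟩,
  ⟨3, 3, [⟨1, [112, 400]⟩, ⟨-1, [400, 102]⟩]⟩,
  ⟨3, 3, [⟨1, [112, 401]⟩, ⟨-1, [401, 112]⟩]⟩,
  ⟨4, 3, [⟨1, [302, 400]⟩, ⟨-1, [400, 302]⟩]⟩,
  ⟨4, 3, [⟨1, [302, 401]⟩, ⟨-1, [301]⟩]⟩,
  ⟨4, 3, [⟨1, [301, 400]⟩, ⟨-1, [300]⟩]⟩,
  ⟨4, 3, [⟨1, [301, 401]⟩, ⟨-1, [302]⟩]⟩,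
  ⟨4, 3, [⟨1, [300, 400]⟩, ⟨-1, [301]⟩]⟩,
  ⟨4, 3, [⟨1, [300, 401]⟩, ⟨-1, [400, 300]⟩]⟩,
  ⟨3, 4, [⟨1, [201, 400]⟩, ⟨1, [201]⟩]⟩,
  ⟨3, 4, [⟨1, [201, 401]⟩, ⟨-1, [202]⟩]⟩,
  ⟨3, 4, [⟨1, [201, 402]⟩, ⟨-1, [400, 201]⟩]⟩,
  ⟨3, 4, [⟨1, [202, 400]⟩, ⟨-1, [212]⟩]⟩,
  ⟨3, 4, [⟨1, [202, 401]⟩, ⟨-1, [201]⟩]⟩,
  ⟨3, 4, [⟨1, [202, 402]⟩, ⟨-1, [203]⟩]⟩,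
  ⟨3, 4, [⟨1, [203, 400]⟩, ⟨-1, [213]⟩]⟩,
  ⟨3, 4, [⟨1, [203, 401]⟩, ⟨-1, [400, 203]⟩]⟩,
  ⟨3, 4, [⟨1, [203, 402]⟩, ⟨-1, [202]⟩]⟩]

/-- Part 5 of the list. -/
def rels5 : List Rl := [
  ⟨3, 4, [⟨1, [212, 400]⟩, ⟨-1, [202]⟩]⟩,
  ⟨3, 4, [⟨1, [212, 401]⟩, ⟨1, [212]⟩]⟩,
  ⟨3, 4, [⟨1, [212, 402]⟩, ⟨-1, [213]⟩]⟩,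
  ⟨3, 4, [⟨1, [213, 400]⟩, ⟨-1, [203]⟩]⟩,
  ⟨3, 4, [⟨1, [213, 401]⟩, ⟨-1, [223]⟩]⟩,
  ⟨3, 4, [⟨1, [213, 402]⟩, ⟨-1, [212]⟩]⟩,
  ⟨3, 4, [⟨1, [223, 400]⟩, ⟨-1, [400, 223]⟩]⟩,
  ⟨3, 4, [⟨1, [223, 401]⟩, ⟨-1, [213]⟩]⟩,
  ⟨3, 4, [⟨1, [223, 402]⟩, ⟨1, [223]⟩]⟩,
  ⟨4, 4, [⟨1, [0, 400]⟩, ⟨-1, [400, 0]⟩]⟩,
  ⟨4, 4, [⟨1, [0, 401]⟩, ⟨-1, [401, 0]⟩]⟩,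
  ⟨4, 4, [⟨1, [0, 402]⟩, ⟨-1, [402, 0]⟩]⟩,
  ⟨4, 4, [⟨1, [500, 400]⟩, ⟨-1, [400, 501]⟩]⟩,
  ⟨4, 4, [⟨1, [500, 401]⟩, ⟨-1, [401, 500]⟩]⟩,
  ⟨4, 4, [⟨1, [500, 402]⟩, ⟨-1, [402, 500]⟩]⟩,
  ⟨4, 4, [⟨1, [501, 400]⟩, ⟨-1, [400, 500]⟩]⟩,
  ⟨4, 4, [⟨1, [501, 401]⟩, ⟨-1, [401, 502]⟩]⟩,
  ⟨4, 4, [⟨1, [501, 402]⟩, ⟨-1, [402, 501]⟩]⟩,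
  ⟨4, 4, [⟨1, [502, 400]⟩, ⟨-1, [400, 502]⟩]⟩,
  ⟨4, 4, [⟨1, [502, 401]⟩, ⟨-1, [401, 501]⟩]⟩,
  ⟨4, 4, [⟨1, [502, 402]⟩, ⟨-1, [402, 503]⟩]⟩,
  ⟨4, 4, [⟨1, [503, 400]⟩, ⟨-1, [400, 503]⟩]⟩,
  ⟨4, 4, [⟨1, [503, 401]⟩, ⟨-1, [401, 503]⟩]⟩,
  ⟨4, 4, [⟨1, [503, 402]⟩, ⟨-1, [402, 502]⟩]⟩,
  ⟨4, 4, [⟨1, [101, 400]⟩, ⟨-1, [400, 101]⟩]⟩,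
  ⟨4, 4, [⟨1, [101, 401]⟩, ⟨-1, [401, 102]⟩]⟩,
  ⟨4, 4, [⟨1, [101, 402]⟩, ⟨-1, [402, 101]⟩]⟩,
  ⟨4, 4, [⟨1, [102, 400]⟩, ⟨-1, [400, 112]⟩]⟩,
  ⟨4, 4, [⟨1, [102, 401]⟩, ⟨-1, [401, 101]⟩]⟩,
  ⟨4, 4, [⟨1, [102, 402]⟩, ⟨-1, [402, 103]⟩]⟩,
  ⟨4, 4, [⟨1, [103, 400]⟩, ⟨-1, [400, 113]⟩]⟩,
  ⟨4, 4, [⟨1, [103, 401]⟩, ⟨-1, [401, 103]⟩]⟩,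
  ⟨4, 4, [⟨1, [103, 402]⟩, ⟨-1, [402, 102]⟩]⟩,
  ⟨4, 4, [⟨1, [112, 400]⟩, ⟨-1, [400, 102]⟩]⟩,
  ⟨4, 4, [⟨1, [112, 401]⟩, ⟨-1, [401, 112]⟩]⟩,
  ⟨4, 4, [⟨1, [112, 402]⟩, ⟨-1, [402, 113]⟩]⟩,
  ⟨4, 4, [⟨1, [113, 400]⟩, ⟨-1, [400, 103]⟩]⟩,
  ⟨4, 4, [⟨1, [113, 401]⟩, ⟨-1, [401, 123]⟩]⟩,
  ⟨4, 4, [⟨1, [113, 402]⟩, ⟨-1, [402, 112]⟩]⟩,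
  ⟨4, 4, [⟨1, [123, 400]⟩, ⟨-1, [400, 123]⟩]⟩,
  ⟨4, 4, [⟨1, [123, 401]⟩, ⟨-1, [401, 113]⟩]⟩,
  ⟨4, 4, [⟨1, [123, 402]⟩, ⟨-1, [402, 123]⟩]⟩]

/-- The list of the relations. -/
def rels : List Rl := rels0 ++ (rels1 ++ (rels2 ++ (rels3 ++ (rels4 ++ (rels5)))))

/-- Part 0 of the list. -/
def relsE0 : List Rl := [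
  ⟨1, 3, [⟨1, [201, 212, 501]⟩, ⟨1, [201, 212, 400, 500]⟩]⟩,
  ⟨1, 3, [⟨1, [201, 212, 400, 401, 500]⟩, ⟨1, [201, 212, 401, 502]⟩]⟩,
  ⟨1, 3, [⟨1, [201, 212, 400, 401, 400, 501]⟩, ⟨1, [201, 212, 401, 400, 502]⟩]⟩]

/-- The list of the relations. -/
def relsE : List Rl := relsE0

theorem rels_wf : (rels.all Rl.ok && relsE.all Rl.ok) = true := by decide +kernel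

end Pool.Agent.SWL57
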