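import Mathlib
import Pool.Agent.SWL57.Rels
import Pool.Agent.SWL57.Pk

/-!
# The table engine

Levels, tables, instances of relations, linear combinations of instances, compositions.
-/

set_option autoImplicit false

namespace Pool.Agent.SWL57

open Finset

/-! ### Approximate representations -/

section AR

variable {U : Type} [AddCommGroup U]

/-- `N` represents an element which is congruent to `x` modulo `P`. -/
def AR (P : AddSubgroup U) (Y : ℕ → U) (b N : ℕ) (x : U) : Prop :=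
  ∃ y, x - y ∈ P ∧ Rep Y b N y

variable {P P' : AddSubgroup U} {Y Y' : ℕ → U} {b b' N N' : ℕ} {x x' : U}

theorem AR.of_rep (h : Rep Y b N x) : AR P Y b N x :=
  ⟨x, by rw [sub_self]; exact P.zero_mem, h⟩

theorem AR.zero : AR P Y 0 0 0 := AR.of_rep (Rep.zero Y)

theorem AR.mono (h : AR P Y b N x) (hb : b ≤ b') : AR P Y b' N x := by
  obtain ⟨y, h1, h2⟩ := h
  exact ⟨y, h1, h2.mono hb⟩

theorem AR.weak (h : AR P Y b N x) (hP : P ≤ P') : AR P' Y b N x := by
  obtain ⟨y, h1, h2⟩ := h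
  exact ⟨y, hP h1, h2⟩

theorem AR.add (h : AR P Y b N x) (h' : AR P Y b' N' x') : AR P Y (b + b') (N + N') (x + x') := by
  obtain ⟨y, h1, h2⟩ := h
  obtain ⟨y', h1', h2'⟩ := h'
  refine ⟨y + y', ?_, h2.add h2'⟩
  rw [add_sub_add_comm]
  exact P.add_mem h1 h1'

theorem AR.smul (c : ℕ) (h : AR P Y b N x) : AR P Y (c * b) (c * N) (c • x) := by
  obtain ⟨y, h1, h2⟩ := h
  refine ⟨c • y, ?_, h2.smul c⟩
  rw [← smul_sub]
  exact P.nsmul_mem h1 c

theorem AR.cong (h : AR P Y b N x) (hx : x' - x ∈ P) : AR P Y b N x' := by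
  obtain ⟨y, h1, h2⟩ := h
  refine ⟨y, ?_, h2⟩
  have e : x' - y = (x' - x) + (x - y) := by abel
  rw [e]
  exact P.add_mem hx h1

theorem AR.shift (g : ℕ) (h : AR P (fun i => Y (g + i)) b N x) : AR P Y b (bs ^ g * N) x := by
  obtain ⟨y, h1, h2⟩ := h
  exact ⟨y, h1, h2.shift g⟩

theorem Rep.map {V : Type} [AddCommGroup V] (φ : U →+ V) (h : Rep Y b N x) :
    Rep (fun i => φ (Y i)) b N (φ x) := by
  obtain ⟨n, D, h1, h2, h3, h4⟩ := h
  refine ⟨n, D, h1, h2, h3, ?_⟩
  rw [h4, map_sum]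
  exact sum_congr rfl fun i _ => map_nsmul _ _ _

theorem AR.map {V : Type} [AddCommGroup V] (φ : U →+ V) {Q : AddSubgroup V}
    (hQ : ∀ x ∈ P, φ x ∈ Q) (h : AR P Y b N x) : AR Q (fun i => φ (Y i)) b N (φ x) := by
  obtain ⟨y, h1, h2⟩ := h
  refine ⟨φ y, ?_, h2.map φ⟩
  rw [← map_sub]
  exact hQ _ h1

theorem Rep.congr {d : ℕ} (h : Rep Y b N x) (hN : N < bs ^ d) (hY : ∀ i < d, Y i = Y' i) :
    Rep Y' b N x := by
  obtain ⟨n, D, h1, h2, h3, h4⟩ := h
  refine ⟨n, D, h1, h2, h3, ?_⟩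
  rw [h4]
  refine sum_congr rfl fun i hi => ?_
  by_cases hd : i < d
  · rw [hY i hd]
  · have e : D i = 0 := by
      by_contra hne
      have a1 : D i * bs ^ i ≤ N := by
        rw [h3]
        exact single_le_sum (f := fun i => D i * bs ^ i) (fun _ _ => Nat.zero_le _) hi
      have a2 : bs ^ d ≤ bs ^ i := Nat.pow_le_pow_right bs_pos (not_lt.1 hd)
      have a3 : bs ^ i ≤ D i * bs ^ i := Nat.le_mul_of_pos_left _ (Nat.pos_of_ne_zero hne)
      exact absurd (lt_of_lt_of_le hN (a2.trans (a3.trans a1))) (lt_irrefl _)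
    rw [e, zero_smul, zero_smul]

theorem AR.congr {d : ℕ} (h : AR P Y b N x) (hN : N < bs ^ d) (hY : ∀ i < d, Y i = Y' i) :
    AR P Y' b N x := by
  obtain ⟨y, h1, h2⟩ := h
  exact ⟨y, h1, h2.congr hN hY⟩

theorem AR.chk {n : ℕ} (h : AR P Y b N x) (hq : ∀ z : U, q • z ∈ P) (hb : b < bs)
    (hc : chk N n = true) : x ∈ P := by
  obtain ⟨y, h1, h2⟩ := h
  obtain ⟨z, hz⟩ := h2.chk hb hc
  have e : x = (x - y) + q • z := by rw [← hz]; abel
  rw [e]
  exact P.add_mem h1 (hq z)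

theorem rep_one (Y : ℕ → U) (i : ℕ) : Rep Y 1 (bs ^ i) (Y i) := by
  have h := Rep.shift (Y := Y) i (Rep.cons (Y := fun j => Y (i + j)) (N := 0) (x := 0) (b := 1) 1
    le_rfl ((Rep.zero _).mono (Nat.zero_le 1)))
  rw [Nat.mul_zero, Nat.add_zero, Nat.mul_one, one_smul, add_zero, Nat.add_zero] at h
  exact h

end AR

/-! ### Forcing -/

/-- Evaluate the argument first. -/
def frc {α : Type} (a : ℕ) (F : ℕ → α) : α := cond (Nat.beq a 0) (F 0) (F a)

theorem frc_eq {α : Type} (a : ℕ) (F : ℕ → α) : frc a F = F a := by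
  unfold frc
  cases a with
  | zero => rfl
  | succ a => rfl

/-- Replace the argument by its value. -/
noncomputable def frl {α : Type} (a : ℕ) (F : ℕ → α) : α := Nat.rec (F 0) (fun n _ => F (n + 1)) a

theorem frl_eq {α : Type} (a : ℕ) (F : ℕ → α) : frl a F = F a := by
  cases a with
  | zero => rfl
  | succ a => rfl

/-- The packed form of a sparse row. -/
abbrev pw (s : ℕ) : ℕ := pk 4096 s

/-! ### Levels -/

/-- A level: the number of rails, the dimension, the codes of the basis elements. A code is `0` or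
`1 + j + 2 ^ 16 * (s + 2 ^ 16 * g)`: the operator `g` on the basis element `j` of the level `s`. -/
structure Wl : Type where
  k : ℕ
  d : ℕ
  b : Tr

def cj (c : ℕ) : ℕ := (c - 1) % 65536
def cs (c : ℕ) : ℕ := (c - 1) / 65536 % 65536
def cgo (c : ℕ) : ℕ := (c - 1) / 65536 / 65536

section M

variable {r r0 : List Rl} (M : Md r r0) (W : ℕ → Wl)

/-- The basis elements. -/
noncomputable def B (t i : ℕ) : M.U :=
  if gt (W t).b i = 0 then 0
  else if cs (gt (W t).b i) < t then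
    M.op (W (cs (gt (W t).b i))).k (cgo (gt (W t).b i)) (B (cs (gt (W t).b i)) (cj (gt (W t).b i)))
  else M.e
termination_by t

/-- The levels are well formed. -/
def Wf : Prop := ∀ t i, gt (W t).b i ≠ 0 →
  (cs (gt (W t).b i) < t ∧ okg (W (cs (gt (W t).b i))).k (cgo (gt (W t).b i)) = true ∧
    ko (W (cs (gt (W t).b i))).k (cgo (gt (W t).b i)) = (W t).k) ∨
  (¬ cs (gt (W t).b i) < t ∧ (W t).k = 1)

variable {W}

theorem B_lg (hW : Wf W) (t : ℕ) : ∀ i, B M W t i ∈ M.lg (W t).k := by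
  induction t using Nat.strong_induction_on with
  | _ t ih =>
    intro i
    rw [B]
    split_ifs with h1 h2
    · exact AddSubgroup.zero_mem _
    · rcases hW t i h1 with ⟨_, h3, h4⟩ | ⟨h3, _⟩
      · rw [← h4]
        exact M.op_lg h3 (ih _ h2 _)
      · exact absurd h2 h3
    · rcases hW t i h1 with ⟨h3, _⟩ | ⟨_, h3⟩
      · exact absurd h3 h2
      · rw [h3]
        exact M.e_lg

theorem B_code {t i : ℕ} (h : gt (W t).b i ≠ 0) (h2 : cs (gt (W t).b i) < t) :
    B M W t i = M.op (W (cs (gt (W t).b i))).k (cgo (gt (W t).b i))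
      (B M W (cs (gt (W t).b i)) (cj (gt (W t).b i))) := by
  rw [B, if_neg h, if_pos h2]

variable (W)

/-! ### Facts -/

/-- A statement about all entries of a tree. -/
def Fa (Q : ℕ → ℕ → Prop) (T : Tr) (j st : ℕ) : Prop :=
  ∀ i, gt T i ≠ 0 → Q (j + st * i) (gt T i)

theorem Fa.nd {Q : ℕ → ℕ → Prop} {l r : Tr} {j st : ℕ} (h1 : Fa Q l j (2 * st))
    (h2 : Fa Q r (j + st) (2 * st)) : Fa Q (.nd l r) j st := by
  intro i hi
  rcases Nat.even_or_odd' i with ⟨m, rfl | rfl⟩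
  · rw [gt_two_mul] at hi ⊢
    have h := h1 m hi
    rwa [show j + 2 * st * m = j + st * (2 * m) by ring] at h
  · rw [gt_two_mul_add_one] at hi ⊢
    have h := h2 m hi
    rwa [show j + st + 2 * st * m = j + st * (2 * m + 1) by ring] at h

theorem Fa.lf {Q : ℕ → ℕ → Prop} {v j st : ℕ} (h : v ≠ 0 → Q j v) : Fa Q (.lf v) j st := by
  intro i hi
  rw [gt_lf] at hi ⊢
  by_cases h0 : i = 0
  · rw [if_pos h0] at hi ⊢
    rw [h0, Nat.mul_zero, Nat.add_zero]
    exact h hi
  · rw [if_neg h0] at hi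
    exact absurd rfl hi

/-- A table: the word `w` maps the basis of the level `s` to the level `t`. -/
structure Fc : Type where
  s : ℕ
  w : List ℕ
  t : ℕ
  T : Tr

/-- The entry `v` is the row of `x` in the level `t`. -/
def Rw (n t v : ℕ) (x : M.U) : Prop :=
  AR (M.cg n (W t).k) (B M W t) 16777216 (pw (v - 1)) x ∧ pw (v - 1) < bs ^ (W t).d

/-- The table is correct. -/
def Fk (n : ℕ) (f : Fc) : Prop := kw (W f.s).k f.w = (W f.t).k ∧
  Fa (fun i v => Rw M W n f.t v (ow (fun k g => M.op k g) (W f.s).k f.w (B M W f.s i))) f.T 0 1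

/-- The table of a list of tables. -/
def gf (L : List (List Fc)) (j : ℕ) : Fc :=
  (L.getD (j / 16) []).getD (j % 16) ⟨0, [], 0, .lf 0⟩

/-- All tables are correct. -/
def Fs (n : ℕ) (L : List (List Fc)) : Prop := ∀ l ∈ L, ∀ f ∈ l, Fk M W n f

end M

end Pool.Agent.SWL57
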