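import Mathlib
import Pool.Agent.SWL57.Eng

/-!
# Symbols and instances of relations
-/

set_option autoImplicit false

namespace Pool.Agent.SWL57

open Finset

/-- A block of symbols: the offset, the operator, the source level. -/
structure Bk : Type where
  o : ℕ
  g : ℕ
  s : ℕ

section M

variable {r r0 : List Rl} (M : Md r r0) (W : ℕ → Wl)

/-- The symbols of a level; the list has decreasing offsets. -/
noncomputable def sy (t : ℕ) : List Bk → ℕ → M.U
  | [], x => B M W t x
  | b :: l, x => if b.o ≤ x then M.op (W b.s).k b.g (B M W b.s (x - b.o)) else sy t l x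

/-- The list of blocks is well formed. -/
def okl (W : ℕ → Wl) (t : ℕ) : ℕ → List Bk → Bool
  | top, [] => Nat.ble (W t).d top
  | top, b :: l => Nat.ble (b.o + (W b.s).d) top && (okg (W b.s).k b.g &&
      Nat.beq (ko (W b.s).k b.g) (W t).k) && okl W t b.o l

variable {M W}

theorem okl_le {t : ℕ} {l : List Bk} : ∀ {top : ℕ}, okl W t top l = true →
    ∀ b ∈ l, b.o + (W b.s).d ≤ top := by
  induction l with
  | nil => intro top _ b hb; exact absurd hb List.not_mem_nil
  | cons a l ih =>
    intro top h b hb
    rw [okl, Bool.and_eq_true, Bool.and_eq_true] at h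
    have h1 := Nat.le_of_ble_eq_true h.1.1
    rcases List.mem_cons.1 hb with rfl | hb
    · exact h1
    · have h2 := ih h.2 b hb
      omega

theorem okl_d {t : ℕ} {l : List Bk} : ∀ {top : ℕ}, okl W t top l = true → (W t).d ≤ top := by
  induction l with
  | nil => intro top h; exact Nat.le_of_ble_eq_true h
  | cons a l ih =>
    intro top h
    rw [okl, Bool.and_eq_true, Bool.and_eq_true] at h
    have h1 := Nat.le_of_ble_eq_true h.1.1
    have h2 := ih h.2
    omega

theorem sy_low {t : ℕ} {l : List Bk} : ∀ {top : ℕ}, okl W t top l = true →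
    ∀ i < (W t).d, sy M W t l i = B M W t i := by
  induction l with
  | nil => intro top _ i _; rfl
  | cons a l ih =>
    intro top h i hi
    rw [okl, Bool.and_eq_true, Bool.and_eq_true] at h
    have h2 := okl_d h.2
    rw [sy, if_neg (by omega)]
    exact ih h.2 i hi

theorem sy_blk {t : ℕ} {l : List Bk} : ∀ {top : ℕ}, okl W t top l = true → ∀ b ∈ l,
    okg (W b.s).k b.g = true ∧ ko (W b.s).k b.g = (W t).k ∧
    ∀ j < (W b.s).d, sy M W t l (b.o + j) = M.op (W b.s).k b.g (B M W b.s j) := by
  induction l with
  | nil => intro top _ b hb; exact absurd hb List.not_mem_nil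
  | cons a l ih =>
    intro top h b hb
    rw [okl, Bool.and_eq_true, Bool.and_eq_true, Bool.and_eq_true] at h
    rcases List.mem_cons.1 hb with rfl | hb
    · refine ⟨h.1.2.1, Nat.eq_of_beq_eq_true h.1.2.2, fun j _ => ?_⟩
      rw [sy, if_pos (Nat.le_add_right _ _), Nat.add_sub_cancel_left]
    · obtain ⟨h1, h2, h3⟩ := ih h.2 b hb
      refine ⟨h1, h2, fun j hj => ?_⟩
      have h4 := okl_le h.2 b hb
      rw [sy, if_neg (by omega)]
      exact h3 j hj

end M

/-! ### Instances -/

/-- A term of an instance: coefficient, offset, dimension of the source of the block and the table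
(if there is one). -/
structure It : Type where
  c : ℕ
  o : ℕ
  d : ℕ
  T : Option Tr

/-- The packed row of the word of a term. -/
noncomputable def rw1 (T : Option Tr) (l : ℕ) : ℕ :=
  Option.rec (Nat.pow 2 (Nat.mul 64 l)) (fun T => pk 4096 (Nat.sub (gt T l) 1)) T

/-- The row of the word of a term is present. -/
noncomputable def pr1 (d : ℕ) (T : Option Tr) (l : ℕ) : Bool :=
  Option.rec (Nat.ble (Nat.succ l) d) (fun T => Nat.ble 1 (gt T l)) T

/-- The sum of the terms of an instance, `1` if a row is missing. -/
noncomputable def nsum (l : ℕ) (its : List It) : ℕ → ℕ :=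
  List.rec (fun acc => acc) (fun a _ ih acc => cond (pr1 a.d a.T l)
    (frc (Nat.add acc (Nat.mul a.c (Nat.mul (Nat.pow 2 (Nat.mul 64 a.o)) (rw1 a.T l)))) ih) 1) its

theorem nsum_nil (l acc : ℕ) : nsum l [] acc = acc := rfl

theorem nsum_cons (l : ℕ) (a : It) (its : List It) (acc : ℕ) : nsum l (a :: its) acc =
    if pr1 a.d a.T l = true then
      nsum l its (acc + a.c * (bs ^ a.o * rw1 a.T l)) else 1 := by
  have e : nsum l (a :: its) acc = cond (pr1 a.d a.T l)
    (frc (Nat.add acc (Nat.mul a.c (Nat.mul (Nat.pow 2 (Nat.mul 64 a.o)) (rw1 a.T l))))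
      (nsum l its)) 1 := rfl
  rw [e, frc_eq]
  have e2 : Nat.pow 2 (Nat.mul 64 a.o) = bs ^ a.o := by
    rw [bs_eq, ← pow_mul]
    rfl
  rw [e2]
  cases pr1 a.d a.T l
  · rfl
  · rfl

/-- The sum of the coefficients. -/
def csum : List It → ℕ
  | [] => 0
  | a :: l => a.c + csum l

section

variable {U : Type} [AddCommGroup U] {P : AddSubgroup U} {Y : ℕ → U}

theorem AR.nsum (l : ℕ) (its : List It) : ∀ (xs : List U)
    (_ : List.Forall₂ (fun (a : It) x => pr1 a.d a.T l = true →
      AR P Y 16777216 (bs ^ a.o * rw1 a.T l) x) its xs) {b acc : ℕ} {y : U} (_ : AR P Y b acc y),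
    nsum l its acc = 1 ∨ AR P Y (b + csum its * 16777216) (nsum l its acc)
      (y + (List.zipWith (fun (a : It) x => a.c • x) its xs).sum) := by
  induction its with
  | nil =>
    intro xs h b acc y hy
    right
    rw [nsum_nil, List.zipWith_nil_left, List.sum_nil, add_zero]
    exact hy.mono (Nat.le_add_right _ _)
  | cons a its ih =>
    intro xs h b acc y hy
    cases h with
    | cons h1 h2 =>
      rename_i x xs
      rw [nsum_cons]
      split_ifs with h3
      · have h4 := hy.add ((h1 h3).smul a.c)
        rcases ih xs h2 h4 with h5 | h5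
        · exact Or.inl h5
        · right
          rw [List.zipWith_cons_cons, List.sum_cons, ← add_assoc]
          refine h5.mono ?_
          rw [csum, Nat.add_mul]
          omega
      · exact Or.inl rfl

end

/-- The check of the rows of a batch. -/
noncomputable def chI (its : List It) (top : ℕ) (S : Tr) : ℕ → ℕ → Bool :=
  Tr.rec (fun v l _ => cond (Nat.beq v 0) true
      (chk (nsum l its (Nat.mul 14348906 (pk 4096 v))) top))
    (fun _ _ a b l st => cond (a l (Nat.mul 2 st)) (b (Nat.add l st) (Nat.mul 2 st)) false) S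

theorem chI_lf (its : List It) (top v l st : ℕ) : chI its top (.lf v) l st =
    cond (Nat.beq v 0) true (chk (nsum l its (14348906 * pk 4096 v)) top) := rfl

theorem chI_nd (its : List It) (top : ℕ) (S S' : Tr) (l st : ℕ) :
    chI its top (.nd S S') l st =
      cond (chI its top S l (2 * st)) (chI its top S' (l + st) (2 * st)) false := rfl

theorem chk_one (n : ℕ) : chk 1 n = false := rfl

theorem cond_false_eq {a b : Bool} (h : cond a b false = true) : a = true ∧ b = true := by
  cases a
  · exact absurd h Bool.false_ne_true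
  · exact ⟨rfl, h⟩

theorem chI_fa {its : List It} {top : ℕ} {S : Tr} : ∀ {l st : ℕ}, chI its top S l st = true →
    Fa (fun l v => chk (nsum l its (14348906 * pk 4096 v)) top = true) S l st := by
  induction S with
  | lf v =>
    intro l st h
    refine Fa.lf fun hv => ?_
    rw [chI_lf, beq_false hv, cond_false] at h
    exact h
  | nd S S' h1 h2 =>
    intro l st h
    rw [chI_nd] at h
    obtain ⟨h3, h4⟩ := cond_false_eq h
    exact Fa.nd (h1 h3) (h2 h4)

section

variable {U : Type} [AddCommGroup U] {P : AddSubgroup U} {Y : ℕ → U}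

/-- The rows of the tree are relations. -/
def Gd (P : AddSubgroup U) (Y : ℕ → U) (z : ℕ) : Prop := AR P Y 16777216 (pk 4096 z) 0

theorem Gd.zero : Gd P Y 0 := AR.zero.mono (Nat.zero_le _)

theorem gd_of_chk (hq : ∀ z : U, q • z ∈ P) {its : List It} {xs : List U} {l v top : ℕ}
    (h : List.Forall₂ (fun (a : It) x => pr1 a.d a.T l = true →
      AR P Y 16777216 (bs ^ a.o * rw1 a.T l) x) its xs)
    (hs : (List.zipWith (fun (a : It) x => a.c • x) its xs).sum ∈ P)
    (hb : csum its < 1000000000000)
    (hc : chk (nsum l its (14348906 * pk 4096 v)) top = true) : Gd P Y v := by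
  have h1 : Rep Y 16777216 (pk 4096 v) (ln 4096 v Y) := rep_pk _ _ _
  have h2 : AR P Y (14348906 * 16777216) (14348906 * pk 4096 v) (14348906 • ln 4096 v Y) :=
    (AR.of_rep h1).smul 14348906
  rcases AR.nsum l its xs h h2 with h3 | h3
  · rw [h3, chk_one] at hc
    exact absurd hc Bool.false_ne_true
  · have h4 := h3.chk hq (by rw [← Nat.add_mul, bs_lit]; omega) hc
    have h5 : (14348906 : ℕ) • ln 4096 v Y ∈ P := by
      have e := P.sub_mem h4 hs
      rwa [add_sub_cancel_right] at e
    have h6 : ln 4096 v Y ∈ P := by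
      have e : ln 4096 v Y = q • ln 4096 v Y - (14348906 : ℕ) • ln 4096 v Y := by
        rw [q_lit, show (14348907 : ℕ) = 14348906 + 1 from rfl, add_smul, one_smul,
          add_sub_cancel_left]
      rw [e]
      exact P.sub_mem (hq _) h5
    exact ⟨ln 4096 v Y, by rw [zero_sub]; exact P.neg_mem h6, h1⟩

end

end Pool.Agent.SWL57
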