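import Mathlib
import Pool.Agent.SWL57.Lev

/-!
# Batches of relations and linear combinations of their rows
-/

set_option autoImplicit false

namespace Pool.Agent.SWL57

/-- A batch of instances: the number of the relation, the level, the numbers of the tables of the
terms and the tree of the rows. -/
structure Bt : Type where
  r : ℕ
  s : ℕ
  js : List ℕ
  S : Tr

/-- Binary trees of batches. -/
inductive BT : Type
  | lf (b : Bt)
  | nd (l r : BT)

/-- The row with the given index. -/
noncomputable def gS (t : BT) : ℕ → ℕ :=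
  BT.rec (fun b i => gt b.S i)
    (fun _ _ a b i => cond (Nat.beq (Nat.mod i 2) 0) (a (Nat.div i 2)) (b (Nat.div i 2))) t

theorem gS_lf (b : Bt) (i : ℕ) : gS (.lf b) i = gt b.S i := rfl

theorem gS_nd (l r : BT) (i : ℕ) :
    gS (.nd l r) i = if i % 2 = 0 then gS l (i / 2) else gS r (i / 2) := by
  have e : gS (.nd l r) i = cond (Nat.beq (i % 2) 0) (gS l (i / 2)) (gS r (i / 2)) := rfl
  rw [e]
  rcases Nat.mod_two_eq_zero_or_one i with h | h <;> rw [h] <;> rfl

/-- The linear combination of rows: the second argument is the list of the entries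
`coefficient + 2 ^ 24 * index` to the base `2 ^ 48`. -/
noncomputable def lsum (S : BT) (f : ℕ) : ℕ → ℕ → ℕ :=
  Nat.rec (fun _ acc => acc) (fun _ ih x acc => cond (Nat.beq x 0) acc
    (frl (Nat.div (Nat.mod x 281474976710656) 16777216) fun u =>
      frc (Nat.add acc (Nat.mul (Nat.mod x 16777216) (pk 4096 (gS S u)))) fun acc =>
        ih (Nat.div x 281474976710656) acc)) f

theorem lsum_zero (S : BT) (x acc : ℕ) : lsum S 0 x acc = acc := rfl

theorem lsum_succ (S : BT) (f x acc : ℕ) : lsum S (f + 1) x acc = if x = 0 then acc else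
    lsum S f (x / 281474976710656)
      (acc + x % 16777216 * pk 4096 (gS S (x % 281474976710656 / 16777216))) := by
  have e : lsum S (f + 1) x acc = cond (Nat.beq x 0) acc
    (frl (Nat.div (Nat.mod x 281474976710656) 16777216) fun u =>
      frc (Nat.add acc (Nat.mul (Nat.mod x 16777216) (pk 4096 (gS S u)))) fun acc =>
        lsum S f (Nat.div x 281474976710656) acc) := rfl
  rw [e, frl_eq, frc_eq]
  by_cases h : x = 0
  · rw [if_pos h, h]
    rfl
  · rw [if_neg h, beq_false h, cond_false]
    rfl

section

variable {U : Type} [AddCommGroup U] {P : AddSubgroup U} {Y : ℕ → U}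

theorem AR.lsum {S : BT} (hS : ∀ u, Gd P Y (gS S u)) {y : U} (f : ℕ) : ∀ {x b acc : ℕ},
    AR P Y b acc y → AR P Y (b + f * 281474976710656) (lsum S f x acc) y := by
  induction f with
  | zero => intro x b acc h; rw [lsum_zero]; exact h.mono (Nat.le_add_right _ _)
  | succ f ih =>
    intro x b acc h
    rw [lsum_succ]
    split_ifs with h0
    · exact h.mono (Nat.le_add_right _ _)
    · have h1 := h.add ((hS (x % 281474976710656 / 16777216)).smul (x % 16777216))
      rw [smul_zero, add_zero] at h1
      have h2 : x % 16777216 * 16777216 ≤ 281474976710656 := by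
        have := Nat.mod_lt x (show 0 < 16777216 by norm_num)
        omega
      refine (ih h1).mono ?_
      rw [Nat.add_mul]
      omega

/-- The row trees of the two halves. -/
theorem gd_nd {l r : BT} (h1 : ∀ u, Gd P Y (gS l u)) (h2 : ∀ u, Gd P Y (gS r u)) :
    ∀ u, Gd P Y (gS (.nd l r) u) := by
  intro u
  rw [gS_nd]
  split_ifs
  · exact h1 _
  · exact h2 _

end

section

variable {r r0 : List Rl} (M : Md r r0)

theorem cg_le {n m k : ℕ} (h : n ≤ m) {x : M.U} (hx : x ∈ M.cg m k) : x ∈ M.cg n k := by
  induction h with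
  | refl => exact hx
  | step _ ih => exact ih (M.cg_anti hx)

theorem q_cg {n : ℕ} (hn : n ≤ 15) (k : ℕ) (z : M.U) : q • z ∈ M.cg n k := by
  rw [q_eq]
  exact cg_le M hn (M.cg_mul 15 k z)

end

end Pool.Agent.SWL57
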