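import Mathlib
import Pool.Agent.SWL57.Bt

/-!
# The check of the batches and of the target
-/

set_option autoImplicit false

namespace Pool.Agent.SWL57

open Finset

/-! ### Lookups -/

/-- The member of a list with the given index. -/
noncomputable def nt {α : Type} (d : α) (l : List α) : ℕ → α :=
  List.rec (fun _ => d) (fun a _ ih i => Nat.rec a (fun n _ => ih n) i) l

theorem nt_eq {α : Type} (d : α) (l : List α) : ∀ i, nt d l i = l.getD i d := by
  induction l with
  | nil => intro i; rfl
  | cons a l ih =>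
    intro i
    cases i with
    | zero => rfl
    | succ i => exact (ih i).trans (List.getD_cons_succ).symm

theorem getD_mem {α : Type} (d : α) (l : List α) (i : ℕ) : l.getD i d = d ∨ l.getD i d ∈ l := by
  by_cases h : i < l.length
  · right
    rw [List.getD_eq_getElem _ _ h]
    exact List.getElem_mem h
  · left
    exact List.getD_eq_default _ _ (not_lt.1 h)

theorem nt_mem {α : Type} (d : α) (l : List α) (i : ℕ) : nt d l i = d ∨ nt d l i ∈ l := by
  rw [nt_eq]
  exact getD_mem d l i

/-- The relations with the given number. -/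
noncomputable def rl (i : ℕ) : Rl :=
  nt ⟨0, 0, []⟩ (nt [] [rels0, rels1, rels2, rels3, rels4, rels5] (Nat.div i 60)) (Nat.mod i 60)

theorem rl_mem (i : ℕ) : rl i = ⟨0, 0, []⟩ ∨ rl i ∈ rels := by
  unfold rl
  rcases nt_mem ⟨0, 0, []⟩ (nt [] [rels0, rels1, rels2, rels3, rels4, rels5] (Nat.div i 60))
    (Nat.mod i 60) with h | h
  · exact Or.inl h
  · right
    rcases nt_mem [] [rels0, rels1, rels2, rels3, rels4, rels5] (Nat.div i 60) with h2 | h2
    · rw [h2] at h
      exact absurd h List.not_mem_nil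
    · generalize nt [] [rels0, rels1, rels2, rels3, rels4, rels5] (Nat.div i 60) = l at h h2
      generalize nt ⟨0, 0, []⟩ l (Nat.mod i 60) = R at h
      unfold rels
      simp only [List.mem_append]
      simp only [List.mem_cons, List.not_mem_nil, or_false] at h2
      rcases h2 with h2 | h2 | h2 | h2 | h2 | h2 <;> rw [h2] at h <;> simp only [h, true_or, or_true]

/-- The relations for the first state with the given number. -/
noncomputable def rlE (i : ℕ) : Rl := nt ⟨0, 0, []⟩ relsE i

theorem rlE_mem (i : ℕ) : rlE i = ⟨0, 0, []⟩ ∨ rlE i ∈ relsE := nt_mem _ _ _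

/-- The table with the given number. -/
noncomputable def gfn (L : List (List Fc)) (j : ℕ) : Fc :=
  nt ⟨0, [], 0, .lf 0⟩ (nt [] L (Nat.div j 16)) (Nat.mod j 16)

theorem gfn_eq (L : List (List Fc)) (j : ℕ) : gfn L j = gf L j := by
  unfold gfn gf
  rw [nt_eq, nt_eq]
  rfl

/-- The offset of the block. -/
noncomputable def fo (bl : List Bk) (g s : ℕ) (F : ℕ → Bool) : Bool :=
  List.rec false (fun b _ ih => Bk.rec (fun o g' s' =>
    cond (Nat.beq g' g) (cond (Nat.beq s' s) (F o) ih) ih) b) bl

theorem fo_spec {bl : List Bk} {g s : ℕ} {F : ℕ → Bool} (h : fo bl g s F = true) :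
    ∃ o, (⟨o, g, s⟩ : Bk) ∈ bl ∧ F o = true := by
  induction bl with
  | nil => exact absurd h Bool.false_ne_true
  | cons b bl ih =>
    obtain ⟨o, g', s'⟩ := b
    have e : fo (⟨o, g', s'⟩ :: bl) g s F =
      cond (Nat.beq g' g) (cond (Nat.beq s' s) (F o) (fo bl g s F)) (fo bl g s F) := rfl
    rw [e] at h
    have h1 : (g' = g ∧ s' = s ∧ F o = true) ∨ fo bl g s F = true := by
      cases hg : Nat.beq g' g
      · rw [hg] at h
        exact Or.inr h
      · cases hs : Nat.beq s' s
        · rw [hg, hs] at h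
          exact Or.inr h
        · rw [hg, hs] at h
          exact Or.inl ⟨Nat.eq_of_beq_eq_true hg, Nat.eq_of_beq_eq_true hs, h⟩
    rcases h1 with ⟨rfl, rfl, h2⟩ | h2
    · exact ⟨o, List.mem_cons_self, h2⟩
    · obtain ⟨o', h3, h4⟩ := ih h2
      exact ⟨o', List.mem_cons_of_mem _ h3, h4⟩

/-- The last letter of a word which begins with the given word and has one letter more. -/
noncomputable def sp (w1 : List ℕ) : List ℕ → (ℕ → Bool) → Bool :=
  List.rec (fun w F => List.rec false (fun g w' _ => List.rec (F g) (fun _ _ _ => false) w') w)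
    (fun a _ ih w F => List.rec false (fun b w' _ => cond (Nat.beq a b) (ih w' F) false) w) w1

theorem sp_spec {w1 : List ℕ} {F : ℕ → Bool} : ∀ {w : List ℕ}, sp w1 w F = true →
    ∃ g, w = w1 ++ [g] ∧ F g = true := by
  induction w1 with
  | nil =>
    intro w h
    cases w with
    | nil => exact absurd h Bool.false_ne_true
    | cons g w =>
      cases w with
      | nil => exact ⟨g, rfl, h⟩
      | cons _ _ => exact absurd h Bool.false_ne_true
  | cons a w1 ih =>
    intro w h
    cases w with
    | nil => exact absurd h Bool.false_ne_true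
    | cons b w =>
      have e : sp (a :: w1) (b :: w) F = cond (Nat.beq a b) (sp w1 w F) false := rfl
      rw [e] at h
      obtain ⟨h1, h2⟩ := cond_false_eq h
      obtain ⟨g, h3, h4⟩ := ih h2
      refine ⟨g, ?_, h4⟩
      rw [Nat.eq_of_beq_eq_true h1, h3]
      rfl

/-- The coefficient modulo `q`. -/
noncomputable def cq (c : ℤ) : ℕ :=
  Int.rec (fun n => Nat.mod n 14348907) (fun n => Nat.sub 14348906 (Nat.mod n 14348907)) c

theorem cq_mem {U : Type} [AddCommGroup U] {P : AddSubgroup U} (c : ℤ) {x : U}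
    (hq : q • x ∈ P) : cq c • x - c • x ∈ P := by
  rw [q_lit] at hq
  cases c with
  | ofNat n =>
    have e : cq (Int.ofNat n) = n % 14348907 := rfl
    have e2 : (Int.ofNat n) • x = n • x := by
      rw [Int.ofNat_eq_natCast, natCast_zsmul]
    have e3 : n • x = (n % 14348907) • x + (n / 14348907) • (14348907 : ℕ) • x := by
      rw [← mul_smul, ← add_smul, Nat.mul_comm, Nat.mod_add_div]
    rw [e, e2, e3, sub_add_cancel_left]
    exact P.neg_mem (P.nsmul_mem hq _)
  | negSucc n =>
    have e : cq (Int.negSucc n) = 14348906 - n % 14348907 := rfl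
    have e2 : (Int.negSucc n) • x = -((n + 1) • x) := negSucc_zsmul x n
    rw [e, e2, sub_neg_eq_add, ← add_smul]
    have e3 : 14348906 - n % 14348907 + (n + 1) = (n / 14348907 + 1) * 14348907 := by
      have h1 := Nat.mod_add_div n 14348907
      have h2 := Nat.mod_lt n (show 0 < 14348907 by norm_num)
      omega
    rw [e3, mul_smul]
    exact P.nsmul_mem hq _

/-! ### Items -/

/-- The item of a term; the table `j - 1` is the table of the word without its last letter. -/
noncomputable def mkI (W : ℕ → Wl) (L : List (List Fc)) (bl : List Bk) (s : ℕ) (tm : Tm) (j : ℕ)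
    (F : It → Bool) : Bool :=
  Tm.rec (fun c w => frl (cq c) fun c => Nat.rec
    (sp [] w fun g => fo bl g s fun o => frl (Wl.rec (fun _ d _ => d) (W s)) fun d =>
      F ⟨c, o, d, none⟩)
    (fun m _ => Fc.rec (fun s' w1 u T => cond (Nat.beq s' s)
      (sp w1 w fun g => fo bl g u fun o => F ⟨c, o, 0, some T⟩) false) (gfn L m)) j) tm

/-- The items of a list of terms. -/
noncomputable def mkL (W : ℕ → Wl) (L : List (List Fc)) (bl : List Bk) (s : ℕ) (ts : List Tm) :
    List ℕ → (List It → Bool) → Bool :=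
  List.rec (fun _ F => F []) (fun tm _ ih js F => List.rec false (fun j js' _ =>
    mkI W L bl s tm j fun it => ih js' fun its => F (it :: its)) js) ts

section M

variable {M : Md rels relsE} {W : ℕ → Wl} {L : List (List Fc)} {n : ℕ}

theorem fk_gf (hL : Fs M W n L) (j : ℕ) : Fk M W n (gf L j) := by
  have hd : Fk M W n ⟨0, [], 0, .lf 0⟩ := by
    refine ⟨rfl, Fa.lf fun h => absurd rfl h⟩
  unfold gf
  rcases getD_mem ([] : List Fc) L (j / 16) with h | h
  · rw [h]
    exact hd
  · rcases getD_mem (⟨0, [], 0, .lf 0⟩ : Fc) (L.getD (j / 16) []) (j % 16) with h2 | h2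
    · rw [h2]
      exact hd
    · exact hL _ h _ h2

theorem ow_snoc {U : Type} (op : ℕ → ℕ → U → U) (w : List ℕ) (g : ℕ) : ∀ (k : ℕ) (x : U),
    ow op k (w ++ [g]) x = op (kw k w) g (ow op k w x) := by
  induction w with
  | nil => intro k x; rfl
  | cons a w ih => intro k x; exact ih _ _

/-- The item is correct. -/
def Gi (M : Md rels relsE) (W : ℕ → Wl) (n t s : ℕ) (bl : List Bk) (it : It) (tm : Tm) : Prop :=
  it.c = cq tm.c ∧ ∀ l, pr1 it.d it.T l = true →
    AR (M.cg n (W t).k) (sy M W t bl) 16777216 (bs ^ it.o * rw1 it.T l)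
      (ow (fun k g => M.op k g) (W s).k tm.w (B M W s l))

theorem mkI_spec (hL : Fs M W n L) {t top : ℕ} {bl : List Bk} (hbl : okl W t top bl = true)
    {s j : ℕ} {tm : Tm} {F : It → Bool} (h : mkI W L bl s tm j F = true) :
    ∃ it, Gi M W n t s bl it tm ∧ F it = true := by
  obtain ⟨c, w⟩ := tm
  cases j with
  | zero =>
    have e : mkI W L bl s ⟨c, w⟩ 0 F = frl (cq c) fun c =>
      sp [] w fun g => fo bl g s fun o => frl (W s).d fun d => F ⟨c, o, d, none⟩ := rfl
    rw [e, frl_eq] at h
    obtain ⟨g, h1, h2⟩ := sp_spec h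
    obtain ⟨o, h3, h4⟩ := fo_spec h2
    rw [frl_eq] at h4
    refine ⟨_, ⟨rfl, fun l hl => ?_⟩, h4⟩
    obtain ⟨_, _, h7⟩ := sy_blk (M := M) hbl _ h3
    have h8 : l < (W s).d := Nat.le_of_ble_eq_true hl
    have h9 := h7 l h8
    have e2 : rw1 (none : Option Tr) l = 2 ^ (64 * l) := rfl
    have e3 : bs ^ o * rw1 (none : Option Tr) l = bs ^ (o + l) := by
      rw [e2, pow_mul, ← bs_eq, pow_add]
    have e4 : ow (fun k g => M.op k g) (W s).k w (B M W s l) = sy M W t bl (o + l) := by
      have e5 : w = [g] := h1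
      rw [e5]
      exact h9.symm
    show AR _ _ _ (bs ^ o * rw1 (none : Option Tr) l) (ow (fun k g => M.op k g) (W s).k w _)
    rw [e3, e4]
    exact (AR.of_rep (rep_one _ _)).mono (by norm_num)
  | succ m =>
    have hf := fk_gf hL m
    obtain ⟨s', w1, u, T, ef⟩ : ∃ s' w1 u T, gf L m = ⟨s', w1, u, T⟩ := by
      cases gf L m
      exact ⟨_, _, _, _, rfl⟩
    have e0 : mkI W L bl s ⟨c, w⟩ (m + 1) F = frl (cq c) fun c =>
      Fc.rec (fun s' w1 u T => cond (Nat.beq s' s)
      (sp w1 w fun g => fo bl g u fun o => F ⟨c, o, 0, some T⟩) false) (gfn L m) := rfl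
    rw [e0, frl_eq, gfn_eq, ef] at h
    rw [ef] at hf
    obtain ⟨h0, h⟩ := cond_false_eq h
    obtain ⟨g, h1, h2⟩ := sp_spec h
    obtain ⟨o, h3, h4⟩ := fo_spec h2
    have hs := Nat.eq_of_beq_eq_true h0
    subst hs
    refine ⟨_, ⟨rfl, fun l hl => ?_⟩, h4⟩
    obtain ⟨h5, h6, h7⟩ := sy_blk (M := M) hbl _ h3
    have h8 : gt T l ≠ 0 := Nat.one_le_iff_ne_zero.1 (Nat.le_of_ble_eq_true hl)
    obtain ⟨h9, h10⟩ := hf
    have h11 := h10 l h8
    rw [Nat.zero_add, Nat.one_mul] at h11
    obtain ⟨h12, h13⟩ := h11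
    have h14 := h12.map (Q := M.cg n (W t).k) (M.op (W u).k g) fun x hx => by
      have := M.op_cg h5 hx
      rwa [h6] at this
    have h15 : AR (M.cg n (W t).k) (fun i => sy M W t bl (o + i)) 16777216
        (pw (gt T l - 1)) (M.op (W u).k g
          (ow (fun k g => M.op k g) (W s').k w1 (B M W s' l))) := by
      refine h14.congr h13 fun i hi => ?_
      exact (h7 i hi).symm
    have h16 := h15.shift
    have e4 : ow (fun k g => M.op k g) (W s').k w (B M W s' l) =
        M.op (W u).k g (ow (fun k g => M.op k g) (W s').k w1 (B M W s' l)) := by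
      have h9' : kw (W s').k w1 = (W u).k := h9
      rw [h1, ow_snoc, h9']
    show AR _ _ _ (bs ^ o * pk 4096 (gt T l - 1)) (ow (fun k g => M.op k g) (W s').k w _)
    rw [e4]
    exact h16

theorem mkL_spec (hL : Fs M W n L) {t top : ℕ} {bl : List Bk} (hbl : okl W t top bl = true)
    {s : ℕ} {ts : List Tm} : ∀ {js : List ℕ} {F : List It → Bool},
    mkL W L bl s ts js F = true →
    ∃ its, List.Forall₂ (Gi M W n t s bl) its ts ∧ F its = true := by
  induction ts with
  | nil => intro js F h; exact ⟨[], .nil, h⟩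
  | cons tm ts ih =>
    intro js F h
    cases js with
    | nil => exact absurd h Bool.false_ne_true
    | cons j js =>
      have e : mkL W L bl s (tm :: ts) (j :: js) F = mkI W L bl s tm j fun it =>
        mkL W L bl s ts js fun its => F (it :: its) := rfl
      rw [e] at h
      obtain ⟨it, h1, h2⟩ := mkI_spec hL hbl h
      obtain ⟨its, h3, h4⟩ := ih h2
      exact ⟨it :: its, .cons h1 h3, h4⟩

theorem gi_ar {t s : ℕ} {bl : List Bk} {its : List It} {ts : List Tm}
    (h : List.Forall₂ (Gi M W n t s bl) its ts) (l : ℕ) :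
    List.Forall₂ (fun (a : It) x => pr1 a.d a.T l = true →
      AR (M.cg n (W t).k) (sy M W t bl) 16777216 (bs ^ a.o * rw1 a.T l) x) its
      (ts.map fun tm => ow (fun k g => M.op k g) (W s).k tm.w (B M W s l)) := by
  induction h with
  | nil => exact .nil
  | cons h1 _ ih => exact .cons (h1.2 l) ih

theorem gi_sum {t s : ℕ} {bl : List Bk} {its : List It} {ts : List Tm}
    {P : AddSubgroup M.U} (hq : ∀ z : M.U, q • z ∈ P)
    (h : List.Forall₂ (Gi M W n t s bl) its ts) (l : ℕ) :
    (List.zipWith (fun (a : It) x => a.c • x) its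
      (ts.map fun tm => ow (fun k g => M.op k g) (W s).k tm.w (B M W s l))).sum -
    (ts.map fun tm => tm.c • ow (fun k g => M.op k g) (W s).k tm.w (B M W s l)).sum ∈ P := by
  induction h with
  | nil => rw [List.map_nil, List.map_nil, List.zipWith_nil_left, sub_self]; exact P.zero_mem
  | cons h1 _ ih =>
    rw [List.map_cons, List.map_cons, List.zipWith_cons_cons, List.sum_cons, List.sum_cons,
      add_sub_add_comm, h1.1]
    exact P.add_mem (cq_mem _ (hq _)) ih

end M

/-- The sum of the coefficients. -/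
noncomputable def cs1 (its : List It) : ℕ :=
  List.rec 0 (fun a _ ih => Nat.add (It.rec (fun c _ _ _ => c) a) ih) its

theorem cs1_eq (its : List It) : cs1 its = csum its := by
  induction its with
  | nil => rfl
  | cons a its ih =>
    have e : cs1 (a :: its) = a.c + cs1 its := rfl
    rw [e, ih, csum]

/-! ### Batches -/

/-- The items of the relation `R`. -/
noncomputable def chR (W : ℕ → Wl) (L : List (List Fc)) (t : ℕ) (bl : List Bk) (s : ℕ)
    (js : List ℕ) (G : List It → Bool) (R : Rl) : Bool :=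
  Rl.rec (fun k k' ts => cond (Nat.beq k (W s).k) (cond (Nat.beq k' (W t).k)
    (mkL W L bl s ts js fun its => cond (Nat.ble (cs1 its) 400000000000) (G its) false)
    false) false) R

/-- The check of the rows which express the basis elements by the symbols. -/
noncomputable def chD (W : ℕ → Wl) (t : ℕ) (bl : List Bk) (S : Tr) : ℕ → ℕ → Bool :=
  Tr.rec (fun v i _ => cond (Nat.beq v 0) true
    (cond (Nat.ble (Nat.succ i) (W t).d) (frl (gt (W t).b i) fun c => cond (Nat.beq c 0) false
      (frl (Nat.sub c 1) fun e => frl (Nat.mod e 65536) fun j => frl (Nat.div e 65536) fun e =>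
        frl (Nat.mod e 65536) fun s => cond (Nat.ble (Nat.succ s) t)
          (frl (Nat.div e 65536) fun g => fo bl g s fun o => cond (Nat.ble (Nat.succ j) (W s).d)
            (Nat.beq (pk 4096 v) (Nat.add (Nat.pow 2 (Nat.mul 64 i))
              (Nat.mul 14348906 (Nat.pow 2 (Nat.mul 64 (Nat.add o j)))))) false) false)) false))
    (fun _ _ a b l st => cond (a l (Nat.mul 2 st)) (b (Nat.add l st) (Nat.mul 2 st)) false) S

/-- The check of a batch. -/
noncomputable def chB (W : ℕ → Wl) (L : List (List Fc)) (t top : ℕ) (bl : List Bk) (b : Bt) :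
    Bool :=
  Bt.rec (fun r s js S => cond (Nat.ble r 999)
    (chR W L t bl s js (fun its => chI its top S 0 1) (rl r))
    (cond (Nat.beq r 2000) (chD W t bl S 0 1)
      (cond (Nat.beq s 0) (cond (Nat.beq (gt (W 0).b 0) 0) false
        (Tr.rec (fun v => chR W L t bl 0 js (fun its => chI its top (.lf v) 0 1)
          (rlE (Nat.sub r 1000))) (fun _ _ _ _ => false) S)) false))) b

/-- The check of a tree of batches. -/
noncomputable def chBT (W : ℕ → Wl) (L : List (List Fc)) (t top : ℕ) (bl : List Bk) (S : BT) :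
    Bool :=
  BT.rec (fun b => chB W L t top bl b) (fun _ _ a b => cond a b false) S

section M

variable {M : Md rels relsE} {W : ℕ → Wl} {L : List (List Fc)} {n : ℕ}

theorem chR_spec (hL : Fs M W n L) {t top : ℕ} {bl : List Bk} (hbl : okl W t top bl = true)
    {s : ℕ} {js : List ℕ} {G : List It → Bool} {R : Rl}
    (h : chR W L t bl s js G R = true) : R.k = (W s).k ∧ R.k' = (W t).k ∧
    ∃ its, List.Forall₂ (Gi M W n t s bl) its R.ts ∧ csum its ≤ 400000000000 ∧
      G its = true := by
  obtain ⟨k, k', ts⟩ := R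
  have e : chR W L t bl s js G ⟨k, k', ts⟩ = cond (Nat.beq k (W s).k)
    (cond (Nat.beq k' (W t).k) (mkL W L bl s ts js fun its =>
      cond (Nat.ble (cs1 its) 400000000000) (G its) false) false) false := rfl
  rw [e] at h
  obtain ⟨h1, h⟩ := cond_false_eq h
  obtain ⟨h2, h⟩ := cond_false_eq h
  obtain ⟨its, h3, h4⟩ := mkL_spec hL hbl h
  obtain ⟨h5, h6⟩ := cond_false_eq h4
  rw [cs1_eq] at h5
  exact ⟨Nat.eq_of_beq_eq_true h1, Nat.eq_of_beq_eq_true h2, its, h3,
    Nat.le_of_ble_eq_true h5, h6⟩

/-- The value of the relation on a basis element. -/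
theorem rel_B (hW : Wf W) {s t : ℕ} {R : Rl} (h1 : R.k = (W s).k) (h2 : R.k' = (W t).k)
    (hR : R = ⟨0, 0, []⟩ ∨ R ∈ rels) (l : ℕ) :
    (R.ts.map fun tm => tm.c • ow (fun k g => M.op k g) (W s).k tm.w (B M W s l)).sum ∈
      M.cg n (W t).k := by
  rcases hR with h | h
  · rw [h]
    exact AddSubgroup.zero_mem _
  · have h3 : B M W s l ∈ M.lg R.k := by
      rw [h1]
      exact B_lg M hW s l
    have h4 := M.rel R h h3 n
    rw [h1, h2] at h4
    exact h4

theorem B_zero {W : ℕ → Wl} (h : gt (W 0).b 0 ≠ 0) : B M W 0 0 = M.e := by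
  rw [B, if_neg h, if_neg (Nat.not_lt_zero _)]

theorem W_zero (hW : Wf W) (h : gt (W 0).b 0 ≠ 0) : (W 0).k = 1 := by
  rcases hW 0 0 h with ⟨h1, _⟩ | ⟨_, h1⟩
  · exact absurd h1 (Nat.not_lt_zero _)
  · exact h1

theorem rel_B0 (hW : Wf W) (h0 : gt (W 0).b 0 ≠ 0) {t : ℕ} {R : Rl} (h1 : R.k = (W 0).k)
    (h2 : R.k' = (W t).k) (hR : R = ⟨0, 0, []⟩ ∨ R ∈ relsE) :
    (R.ts.map fun tm => tm.c • ow (fun k g => M.op k g) (W 0).k tm.w (B M W 0 0)).sum ∈
      M.cg n (W t).k := by
  rcases hR with h | h
  · rw [h]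
    exact AddSubgroup.zero_mem _
  · have h4 := M.rel0 R h (h1.trans (W_zero hW h0)) n
    rw [h1, h2] at h4
    rw [B_zero h0]
    exact h4

theorem gd_its (hn : n ≤ 15) {s t top l v : ℕ} {bl : List Bk} {its : List It} {ts : List Tm}
    (h : List.Forall₂ (Gi M W n t s bl) its ts)
    (hs : (ts.map fun tm => tm.c • ow (fun k g => M.op k g) (W s).k tm.w (B M W s l)).sum ∈
      M.cg n (W t).k) (hb : csum its ≤ 400000000000)
    (hc : chk (nsum l its (14348906 * pk 4096 v)) top = true) :
    Gd (M.cg n (W t).k) (sy M W t bl) v := by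
  refine gd_of_chk (q_cg M hn _) (gi_ar h l) ?_ (by omega) hc
  have h1 := gi_sum (P := M.cg n (W t).k) (q_cg M hn _) h l
  have h2 := AddSubgroup.add_mem _ h1 hs
  rwa [sub_add_cancel] at h2

theorem chD_lf (W : ℕ → Wl) (t : ℕ) (bl : List Bk) (v i st : ℕ) : chD W t bl (.lf v) i st =
    cond (Nat.beq v 0) true
    (cond (Nat.ble (Nat.succ i) (W t).d) (frl (gt (W t).b i) fun c => cond (Nat.beq c 0) false
      (frl (Nat.sub c 1) fun e => frl (Nat.mod e 65536) fun j => frl (Nat.div e 65536) fun e =>
        frl (Nat.mod e 65536) fun s => cond (Nat.ble (Nat.succ s) t)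
          (frl (Nat.div e 65536) fun g => fo bl g s fun o => cond (Nat.ble (Nat.succ j) (W s).d)
            (Nat.beq (pk 4096 v) (Nat.add (Nat.pow 2 (Nat.mul 64 i))
              (Nat.mul 14348906 (Nat.pow 2 (Nat.mul 64 (Nat.add o j)))))) false) false)) false) := rfl

theorem chD_spec (hn : n ≤ 15) {t top : ℕ} {bl : List Bk} (hbl : okl W t top bl = true)
    {S : Tr} : ∀ {l st : ℕ}, chD W t bl S l st = true →
    Fa (fun _ v => Gd (M.cg n (W t).k) (sy M W t bl) v) S l st := by
  induction S with
  | lf v =>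
    intro i st h
    refine Fa.lf fun hv => ?_
    rw [chD_lf, beq_false hv, cond_false] at h
    obtain ⟨h1, h⟩ := cond_false_eq h
    rw [frl_eq] at h
    have hc : gt (W t).b i ≠ 0 := by
      intro h0
      rw [h0] at h
      exact Bool.false_ne_true h
    rw [beq_false hc, cond_false, frl_eq, frl_eq, frl_eq, frl_eq] at h
    obtain ⟨h2, h⟩ := cond_false_eq h
    rw [frl_eq] at h
    obtain ⟨o, h3, h4⟩ := fo_spec h
    obtain ⟨h5, h6⟩ := cond_false_eq h4
    have h7 : pk 4096 v = 2 ^ (64 * i) + 14348906 * 2 ^ (64 * (o + cj (gt (W t).b i))) :=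
      Nat.eq_of_beq_eq_true h6
    rw [pow_mul, pow_mul, ← bs_eq] at h7
    have h8 : i < (W t).d := Nat.le_of_ble_eq_true h1
    have h9 : cs (gt (W t).b i) < t := Nat.le_of_ble_eq_true h2
    have h10 : cj (gt (W t).b i) < (W (cs (gt (W t).b i))).d := Nat.le_of_ble_eq_true h5
    obtain ⟨_, _, h11⟩ := sy_blk (M := M) hbl _ h3
    have h12 := h11 _ h10
    have h13 : sy M W t bl i = sy M W t bl (o + cj (gt (W t).b i)) := by
      refine (sy_low hbl i h8).trans ((B_code M hc h9).trans h12.symm)
    refine ⟨sy M W t bl i + 14348906 • sy M W t bl (o + cj (gt (W t).b i)), ?_, ?_⟩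
    · rw [zero_sub, h13]
      have e : sy M W t bl (o + cj (gt (W t).b i)) +
          14348906 • sy M W t bl (o + cj (gt (W t).b i)) =
          q • sy M W t bl (o + cj (gt (W t).b i)) := by
        rw [q_lit, show (14348907 : ℕ) = 1 + 14348906 from rfl, add_smul, one_smul]
      rw [e]
      exact AddSubgroup.neg_mem _ (q_cg M hn _ _)
    · rw [h7]
      exact ((rep_one _ _).add ((rep_one _ _).smul 14348906)).mono (by norm_num)
  | nd S S' ih1 ih2 =>
    intro l st h
    have e : chD W t bl (.nd S S') l st = cond (chD W t bl S l (2 * st))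
      (chD W t bl S' (l + st) (2 * st)) false := rfl
    rw [e] at h
    obtain ⟨h3, h4⟩ := cond_false_eq h
    exact Fa.nd (ih1 h3) (ih2 h4)

/-- All rows of a batch are relations. -/
theorem chB_spec (hW : Wf W) (hL : Fs M W n L) (hn : n ≤ 15) {t top : ℕ} {bl : List Bk}
    (hbl : okl W t top bl = true) {b : Bt} (h : chB W L t top bl b = true) :
    ∀ u, Gd (M.cg n (W t).k) (sy M W t bl) (gt b.S u) := by
  obtain ⟨r, s, js, S⟩ := b
  have e : chB W L t top bl ⟨r, s, js, S⟩ = cond (Nat.ble r 999)
    (chR W L t bl s js (fun its => chI its top S 0 1) (rl r))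
    (cond (Nat.beq r 2000) (chD W t bl S 0 1)
      (cond (Nat.beq s 0) (cond (Nat.beq (gt (W 0).b 0) 0) false
        (Tr.rec (fun v => chR W L t bl 0 js (fun its => chI its top (.lf v) 0 1)
          (rlE (Nat.sub r 1000))) (fun _ _ _ _ => false) S)) false)) := rfl
  rw [e] at h
  intro u
  show Gd _ _ (gt S u)
  cases hr : Nat.ble r 999 with
  | true =>
    rw [hr, cond_true] at h
    obtain ⟨h1, h2, its, h3, h4, h5⟩ := chR_spec hL hbl h
    have h6 := chI_fa h5
    by_cases h0 : gt S u = 0
    · rw [h0]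
      exact Gd.zero
    · have h7 := h6 u h0
      exact gd_its hn h3 (rel_B hW h1 h2 (rl_mem r) _) h4 h7
  | false =>
    rw [hr, cond_false] at h
    cases hr2 : Nat.beq r 2000 with
    | true =>
      rw [hr2, cond_true] at h
      by_cases h0 : gt S u = 0
      · rw [h0]
        exact Gd.zero
      · exact chD_spec hn hbl h u h0
    | false =>
      rw [hr2, cond_false] at h
      obtain ⟨_, h⟩ := cond_false_eq h
      have h0 : gt (W 0).b 0 ≠ 0 := by
        intro h0
        rw [h0] at h
        exact Bool.false_ne_true h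
      rw [beq_false h0, cond_false] at h
      cases S with
      | nd _ _ => exact absurd h Bool.false_ne_true
      | lf v =>
        obtain ⟨h1, h2, its, h3, h4, h5⟩ := chR_spec hL hbl h
        have h6 := chI_fa h5
        by_cases h7 : gt (.lf v) u = 0
        · rw [h7]
          exact Gd.zero
        · have h8 : u = 0 := by
            by_contra hu
            rw [gt_lf, if_neg hu] at h7
            exact h7 rfl
          subst h8
          have h9 := h6 0 h7
          rw [Nat.mul_zero, Nat.add_zero] at h9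
          exact gd_its hn h3 (rel_B0 hW h0 h1 h2 (rlE_mem _)) h4 h9

theorem gS_of_chB (hW : Wf W) (hL : Fs M W n L) (hn : n ≤ 15) {t top : ℕ} {bl : List Bk}
    (hbl : okl W t top bl = true) {b : Bt} (h : chB W L t top bl b = true) :
    ∀ u, Gd (M.cg n (W t).k) (sy M W t bl) (gS (.lf b) u) := chB_spec hW hL hn hbl h

/-- All rows of a tree of batches are relations. -/
theorem chBT_spec (hW : Wf W) (hL : Fs M W n L) (hn : n ≤ 15) {t top : ℕ} {bl : List Bk}
    (hbl : okl W t top bl = true) {S : BT} (h : chBT W L t top bl S = true) :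
    ∀ u, Gd (M.cg n (W t).k) (sy M W t bl) (gS S u) := by
  induction S with
  | lf b => exact chB_spec hW hL hn hbl h
  | nd l r ih1 ih2 =>
    have e : chBT W L t top bl (.nd l r) =
      cond (chBT W L t top bl l) (chBT W L t top bl r) false := rfl
    rw [e] at h
    obtain ⟨h1, h2⟩ := cond_false_eq h
    exact gd_nd (ih1 h1) (ih2 h2)

end M

/-! ### The target -/

/-- The check of the target. -/
noncomputable def chG (W : ℕ → Wl) (L : List (List Fc)) (top : ℕ) (bl : List Bk) (S : BT)
    (lam : ℕ) (ts : List Tm) (js : List ℕ) : Bool :=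
  cond (Nat.beq (gt (W 0).b 0) 0) false (mkL W L bl 0 ts js fun its =>
    cond (Nat.ble (cs1 its) 400000000000) (frc (nsum 0 its 0) fun N => cond (Nat.beq N 1) false
      (frc (lsum S 4096 lam N) fun N => chk N top)) false)

/-- The target is a relation. -/
theorem chG_spec {M : Md rels relsE} {W : ℕ → Wl} {L : List (List Fc)} {n : ℕ} (hW : Wf W)
    (hL : Fs M W n L) (hn : n ≤ 15) {t top : ℕ} {bl : List Bk} (hbl : okl W t top bl = true)
    {S : BT} (hS : ∀ u, Gd (M.cg n (W t).k) (sy M W t bl) (gS S u)) {lam : ℕ} {ts : List Tm}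
    {js : List ℕ} (h : chG W L top bl S lam ts js = true) :
    (ts.map fun tm => tm.c • ow (fun k g => M.op k g) 1 tm.w M.e).sum ∈ M.cg n (W t).k := by
  unfold chG at h
  have h0 : gt (W 0).b 0 ≠ 0 := by
    intro h0
    rw [h0] at h
    exact Bool.false_ne_true h
  rw [beq_false h0, cond_false] at h
  obtain ⟨its, h1, h2⟩ := mkL_spec hL hbl h
  obtain ⟨h3, h4⟩ := cond_false_eq h2
  rw [cs1_eq] at h3
  have h5 : csum its ≤ 400000000000 := Nat.le_of_ble_eq_true h3
  rw [frc_eq] at h4
  rcases AR.nsum 0 its _ (gi_ar h1 0) (AR.zero (P := M.cg n (W t).k)) with h6 | h6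
  · rw [h6] at h4
    exact absurd h4 Bool.false_ne_true
  · have h7 : chk (lsum S 4096 lam (nsum 0 its 0)) top = true := by
      cases h8 : Nat.beq (nsum 0 its 0) 1 with
      | true =>
        rw [h8] at h4
        exact absurd h4 Bool.false_ne_true
      | false =>
        rw [h8, cond_false, frc_eq] at h4
        exact h4
    have h8 := (h6.lsum hS 4096 (x := lam)).chk (q_cg M hn _) (by rw [bs_lit]; omega) h7
    rw [zero_add] at h8
    have h9 := AddSubgroup.sub_mem _ h8
      (gi_sum (P := M.cg n (W t).k) (q_cg M hn _) h1 0)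
    rw [sub_sub_cancel, W_zero hW h0, B_zero h0] at h9
    exact h9

end Pool.Agent.SWL57
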