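import Mathlib
import Pool.Agent.SWL57.Bt

/-!
# Compositions of tables and tables of exchanges
-/

set_option autoImplicit false

namespace Pool.Agent.SWL57

open Finset

/-! ### Uniqueness of packed forms -/

theorem dig_unique (n : ℕ) : ∀ (D D' : ℕ → ℕ), (∀ i, D i < bs) → (∀ i, D' i < bs) →
    ∑ i ∈ range n, D i * bs ^ i = ∑ i ∈ range n, D' i * bs ^ i → ∀ i < n, D i = D' i := by
  induction n with
  | zero => intro D D' _ _ _ i hi; exact absurd hi (Nat.not_lt_zero _)
  | succ n ih =>
    intro D D' hD hD' h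
    rw [sum_head, sum_head] at h
    have h1 := congrArg (· % bs) h
    simp only [Nat.add_mul_mod_self_left] at h1
    rw [Nat.mod_eq_of_lt (hD 0), Nat.mod_eq_of_lt (hD' 0)] at h1
    rw [h1] at h
    have h2 := Nat.eq_of_mul_eq_mul_left bs_pos (Nat.add_left_cancel h)
    intro i hi
    cases i with
    | zero => exact h1
    | succ i =>
      exact ih (fun i => D (i + 1)) (fun i => D' (i + 1)) (fun i => hD _) (fun i => hD' _) h2 i
        (by omega)

section

variable {U : Type} [AddCommGroup U] {P : AddSubgroup U} {Y : ℕ → U} {b b' N : ℕ} {x x' : U}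

theorem Rep.unique (h : Rep Y b N x) (h' : Rep Y b' N x') (hb : b < bs) (hb' : b' < bs) :
    x = x' := by
  obtain ⟨n, D, h1, h2, h3, h4⟩ := h
  obtain ⟨n', D', h1', h2', h3', h4'⟩ := h'
  rw [h4, h4', ← sum_ext2 h2 n', ← sum_ext2 h2' n, Nat.add_comm n' n]
  rw [← sum_ext1 h2 n'] at h3
  rw [← sum_ext1 h2' n, Nat.add_comm n' n] at h3'
  have h5 := dig_unique (n + n') D D' (fun i => (h1 i).trans_lt hb) (fun i => (h1' i).trans_lt hb')
    (h3.symm.trans h3')
  exact sum_congr rfl fun i hi => by rw [h5 i (mem_range.1 hi)]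

theorem AR.ln {s : ℕ} (h : AR P Y 16777216 (pk 4096 s) x) : x - ln 4096 s Y ∈ P := by
  obtain ⟨y, h1, h2⟩ := h
  have h3 : y = SWL57.ln 4096 s Y :=
    h2.unique (rep_pk 4096 s Y) (by rw [bs_lit]; norm_num) (by rw [bs_lit]; norm_num)
  rwa [← h3]

end

/-! ### Words -/

theorem kw_append (k : ℕ) (w : List ℕ) (g : ℕ) : kw k (w ++ [g]) = ko (kw k w) g := by
  induction w generalizing k with
  | nil => rfl
  | cons a w ih => exact ih _

theorem ow_append {U : Type} (op : ℕ → ℕ → U → U) (w : List ℕ) (g : ℕ) : ∀ (k : ℕ) (x : U),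
    ow op k (w ++ [g]) x = op (kw k w) g (ow op k w x) := by
  induction w with
  | nil => intro k x; rfl
  | cons a w ih => intro k x; exact ih _ _

/-! ### The linear combination of the rows of a table -/

/-- The linear combination of the rows of the table `T`: the coefficients are given by the sparse
row `s`, the value is `1` if a row is missing. -/
noncomputable def cmb (T : Tr) (f : ℕ) : ℕ → ℕ → ℕ → ℕ :=
  Nat.rec (fun _ _ acc => acc) (fun _ ih s off acc => cond (Nat.beq s 0) acc
    (frl (Nat.add off (Nat.div (Nat.mod s 1099511627776) 16777216)) fun i =>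
      cond (Nat.beq (gt T i) 0) 1
        (frc (Nat.add acc (Nat.mul (Nat.mod s 16777216) (pk 4096 (Nat.sub (gt T i) 1)))) fun acc =>
          ih (Nat.div s 1099511627776) (Nat.succ i) acc))) f

theorem cmb_zero (T : Tr) (s off acc : ℕ) : cmb T 0 s off acc = acc := rfl

theorem cmb_succ (T : Tr) (f s off acc : ℕ) : cmb T (f + 1) s off acc = if s = 0 then acc else
    if gt T (off + gp s) = 0 then 1 else
      cmb T f (s / 1099511627776) (off + gp s + 1)
        (acc + s % 16777216 * pw (gt T (off + gp s) - 1)) := by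
  have e : cmb T (f + 1) s off acc = cond (Nat.beq s 0) acc
    (frl (Nat.add off (Nat.div (Nat.mod s 1099511627776) 16777216)) fun i =>
      cond (Nat.beq (gt T i) 0) 1
        (frc (Nat.add acc (Nat.mul (Nat.mod s 16777216) (pk 4096 (Nat.sub (gt T i) 1)))) fun acc =>
          cmb T f (Nat.div s 1099511627776) (Nat.succ i) acc)) := rfl
  rw [e, frl_eq, frc_eq]
  by_cases h : s = 0
  · rw [if_pos h, h]
    rfl
  · rw [if_neg h, beq_false h, cond_false]
    have e2 : Nat.add off (Nat.div (Nat.mod s 1099511627776) 16777216) = off + gp s := rfl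
    rw [e2]
    by_cases h2 : gt T (off + gp s) = 0
    · rw [if_pos h2, h2]
      rfl
    · rw [if_neg h2, beq_false h2, cond_false]
      rfl

section

variable {U : Type} [AddCommGroup U] {P : AddSubgroup U} {Y : ℕ → U}

theorem AR.cmb {T : Tr} {Z : ℕ → U}
    (hT : ∀ i, gt T i ≠ 0 → AR P Y 16777216 (pw (gt T i - 1)) (Z i)) (f : ℕ) :
    ∀ {s off acc b : ℕ} {y : U}, AR P Y b acc y → cmb T f s off acc = 1 ∨
      AR P Y (b + f * 281474976710656) (cmb T f s off acc)
        (y + SWL57.ln f s fun i => Z (off + i)) := by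
  induction f with
  | zero =>
    intro s off acc b y h
    right
    rw [cmb_zero, ln_zero, add_zero]
    exact h.mono (Nat.le_add_right _ _)
  | succ f ih =>
    intro s off acc b y h
    rw [cmb_succ, ln_succ]
    split_ifs with h0 h1
    · right
      rw [add_zero]
      exact h.mono (Nat.le_add_right _ _)
    · exact Or.inl rfl
    · have h2 := h.add ((hT _ h1).smul (s % 16777216))
      have h3 : s % 16777216 * 16777216 ≤ 281474976710656 := by
        have := Nat.mod_lt s (show 0 < 16777216 by norm_num)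
        omega
      rcases ih (s := s / 1099511627776) (off := off + gp s + 1) h2 with h4 | h4
      · exact Or.inl h4
      · right
        have e : (fun i => Z (off + (gp s + 1 + i))) = fun i => Z (off + gp s + 1 + i) := by
          funext i
          congr 1
          omega
        rw [e, ← add_assoc]
        refine h4.mono ?_
        rw [Nat.add_mul]
        omega

end

/-! ### Compositions -/

/-- The check of a composition: `T1` is the table of the word, `T2` the table of the operator,
`T3` the table of the composition. -/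
noncomputable def chC (d : ℕ) (T1 T2 T3 : Tr) : ℕ → ℕ → Bool :=
  Tr.rec (fun v j _ => cond (Nat.beq v 0) true
      (frl j fun j => cond (Nat.beq (gt T1 j) 0) false
        (cond (sml (pk 4096 (Nat.sub v 1)) d)
          (chk (cmb T2 4096 (Nat.sub (gt T1 j) 1) 0
            (Nat.mul 14348906 (pk 4096 (Nat.sub v 1)))) d) false)))
    (fun _ _ a b j st => cond (a j (Nat.mul 2 st)) (b (Nat.add j st) (Nat.mul 2 st)) false) T3

theorem chC_lf (d : ℕ) (T1 T2 : Tr) (v j st : ℕ) : chC d T1 T2 (.lf v) j st =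
    cond (Nat.beq v 0) true (cond (Nat.beq (gt T1 j) 0) false
      (cond (sml (pw (v - 1)) d)
        (chk (cmb T2 4096 (gt T1 j - 1) 0 (14348906 * pw (v - 1))) d) false)) := by
  have e : chC d T1 T2 (.lf v) j st = cond (Nat.beq v 0) true
      (frl j fun j => cond (Nat.beq (gt T1 j) 0) false
        (cond (sml (pk 4096 (Nat.sub v 1)) d)
          (chk (cmb T2 4096 (Nat.sub (gt T1 j) 1) 0
            (Nat.mul 14348906 (pk 4096 (Nat.sub v 1)))) d) false)) := rfl
  rw [e, frl_eq]
  rfl

theorem chC_nd (d : ℕ) (T1 T2 S S' : Tr) (j st : ℕ) :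
    chC d T1 T2 (.nd S S') j st =
      cond (chC d T1 T2 S j (2 * st)) (chC d T1 T2 S' (j + st) (2 * st)) false := rfl

theorem chC_fa {d : ℕ} {T1 T2 T3 : Tr} : ∀ {j st : ℕ}, chC d T1 T2 T3 j st = true →
    Fa (fun j v => gt T1 j ≠ 0 ∧ pw (v - 1) < bs ^ d ∧
      chk (cmb T2 4096 (gt T1 j - 1) 0 (14348906 * pw (v - 1))) d = true) T3 j st := by
  induction T3 with
  | lf v =>
    intro j st h
    refine Fa.lf fun hv => ?_
    rw [chC_lf, beq_false hv, cond_false] at h
    by_cases h1 : gt T1 j = 0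
    · rw [h1] at h
      exact absurd h Bool.false_ne_true
    · rw [beq_false h1, cond_false] at h
      obtain ⟨h2, h3⟩ := cond_false_eq h
      exact ⟨h1, sml_lt h2, h3⟩
  | nd S S' h1 h2 =>
    intro j st h
    rw [chC_nd] at h
    obtain ⟨h3, h4⟩ := cond_false_eq h
    exact Fa.nd (h1 h3) (h2 h4)

section M

variable {r r0 : List Rl} {M : Md r r0} {W : ℕ → Wl}

theorem Fk.row {n : ℕ} {f : Fc} (h : Fk M W n f) {i : ℕ} (hi : gt f.T i ≠ 0) :
    Rw M W n f.t (gt f.T i) (ow (fun k g => M.op k g) (W f.s).k f.w (B M W f.s i)) := by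
  have h1 := h.2 i hi
  rwa [Nat.zero_add, Nat.one_mul] at h1

/-- If the sum with the negative of a row is divisible by `q`, then it is a row. -/
theorem AR.of_sub {P : AddSubgroup M.U} {Y : ℕ → M.U} {s : ℕ} {x : M.U}
    (hq : ∀ z : M.U, q • z ∈ P) (h : (14348906 : ℕ) • SWL57.ln 4096 s Y + x ∈ P) :
    AR P Y 16777216 (pk 4096 s) x := by
  refine ⟨SWL57.ln 4096 s Y, ?_, rep_pk _ _ _⟩
  have e : x - SWL57.ln 4096 s Y =
      ((14348906 : ℕ) • SWL57.ln 4096 s Y + x) - q • SWL57.ln 4096 s Y := by
    rw [q_lit, show (14348907 : ℕ) = 14348906 + 1 from rfl, add_smul, one_smul]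
    abel
  rw [e]
  exact P.sub_mem h (hq _)

theorem chC_fk {n s u t g : ℕ} {w : List ℕ} {T1 T2 T3 : Tr} (hn : n ≤ 15)
    (h1 : Fk M W n ⟨s, w, u, T1⟩) (h2 : Fk M W n ⟨u, [g], t, T2⟩) (hg : okg (W u).k g = true)
    (hc : chC (W t).d T1 T2 T3 0 1 = true) : Fk M W n ⟨s, w ++ [g], t, T3⟩ := by
  have e1 : kw (W s).k w = (W u).k := h1.1
  have e2 : ko (W u).k g = (W t).k := h2.1
  refine ⟨?_, ?_⟩
  · show kw (W s).k (w ++ [g]) = (W t).k
    rw [kw_append, e1, e2]
  · intro i hi
    obtain ⟨h3, h4, h5⟩ := chC_fa hc i hi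
    simp only [Nat.zero_add, Nat.one_mul] at h3 h4 h5 ⊢
    refine ⟨?_, h4⟩
    rw [ow_append, e1]
    set x := ow (fun k g => M.op k g) (W s).k w (B M W s i) with hx
    have h6 : AR (M.cg n (W u).k) (B M W u) 16777216 (pw (gt T1 i - 1)) x := (h1.row h3).1
    have h7 := h6.ln
    have h8 := M.op_cg hg h7
    rw [e2, map_sub, ln_map] at h8
    have h9 : ∀ j, gt T2 j ≠ 0 → AR (M.cg n (W t).k) (B M W t) 16777216 (pw (gt T2 j - 1))
        (M.op (W u).k g (B M W u j)) := fun j hj => (h2.row hj).1
    have h10 : AR (M.cg n (W t).k) (B M W t) (14348906 * 16777216)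
        (14348906 * pw (gt T3 i - 1)) (14348906 • SWL57.ln 4096 (gt T3 i - 1) (B M W t)) :=
      (AR.of_rep (rep_pk _ _ _)).smul 14348906
    have hq : ∀ z : M.U, q • z ∈ M.cg n (W t).k := q_cg M hn (W t).k
    rcases AR.cmb h9 4096 (s := gt T1 i - 1) (off := 0) h10 with h11 | h11
    · rw [h11, chk_one] at h5
      exact absurd h5 Bool.false_ne_true
    · have h12 := h11.chk hq (by rw [bs_lit]; norm_num) h5
      refine AR.of_sub hq ?_
      have e3 : (14348906 : ℕ) • SWL57.ln 4096 (gt T3 i - 1) (B M W t) + M.op (W u).k g x =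
          ((14348906 : ℕ) • SWL57.ln 4096 (gt T3 i - 1) (B M W t) +
            SWL57.ln 4096 (gt T1 i - 1) fun i => M.op (W u).k g (B M W u (0 + i))) +
          (M.op (W u).k g x - SWL57.ln 4096 (gt T1 i - 1) fun i => M.op (W u).k g (B M W u i)) := by
        simp only [Nat.zero_add]
        abel
      show (14348906 : ℕ) • SWL57.ln 4096 (gt T3 i - 1) (B M W t) + M.op (W u).k g x ∈ _
      rw [e3]
      exact AddSubgroup.add_mem _ h12 h8

/-! ### Tables by numbers -/

theorem fk_default {n : ℕ} : Fk M W n ⟨0, [], 0, .lf 0⟩ :=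
  ⟨rfl, Fa.lf fun h => absurd rfl h⟩

theorem gf_fk {n : ℕ} {L : List (List Fc)} (hL : Fs M W n L) (j : ℕ) : Fk M W n (gf L j) := by
  unfold gf
  by_cases h1 : j / 16 < L.length
  · rw [List.getD_eq_getElem _ _ h1]
    by_cases h2 : j % 16 < L[j / 16].length
    · rw [List.getD_eq_getElem _ _ h2]
      exact hL _ (List.getElem_mem h1) _ (List.getElem_mem h2)
    · rw [List.getD_eq_default _ _ (not_lt.1 h2)]
      exact fk_default
  · rw [List.getD_eq_default _ _ (not_lt.1 h1), List.getD_nil]
    exact fk_default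

end M

/-- Equality of words. -/
def beqL : List ℕ → List ℕ → Bool
  | [], [] => true
  | a :: l, b :: l' => Nat.beq a b && beqL l l'
  | _, _ => false

theorem eq_of_beqL : ∀ {l l' : List ℕ}, beqL l l' = true → l = l'
  | [], [], _ => rfl
  | a :: l, b :: l', h => by
    rw [beqL, Bool.and_eq_true] at h
    rw [Nat.eq_of_beq_eq_true h.1, eq_of_beqL h.2]
  | [], _ :: _, h => absurd h Bool.false_ne_true
  | _ :: _, [], h => absurd h Bool.false_ne_true

/-- The table `f` is the composition of the tables with the numbers `m1` and `m2`; the second one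
is the table of an operator. -/
noncomputable def ckC (W : ℕ → Wl) (L : List (List Fc)) (m1 m2 : ℕ) (f : Fc) : Bool :=
  match (gf L m2).w with
  | [g] => Nat.beq f.s (gf L m1).s && (Nat.beq (gf L m1).t (gf L m2).s &&
      (Nat.beq f.t (gf L m2).t && (beqL f.w ((gf L m1).w ++ [g]) &&
      (okg (W (gf L m1).t).k g &&
        frl (W f.t).d fun d => chC d (gf L m1).T (gf L m2).T f.T 0 1))))
  | _ => false

section M

variable {r r0 : List Rl} {M : Md r r0} {W : ℕ → Wl}

theorem ckC_fk {n m1 m2 : ℕ} {L : List (List Fc)} {f : Fc} (hL : Fs M W n L) (hn : n ≤ 15)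
    (h : ckC W L m1 m2 f = true) : Fk M W n f := by
  have h1 := gf_fk hL m1
  have h2 := gf_fk hL m2
  unfold ckC at h
  generalize gf L m1 = f1 at h h1
  generalize gf L m2 = f2 at h h2
  obtain ⟨s1, w1, t1, T1⟩ := f1
  obtain ⟨s2, w2, t2, T2⟩ := f2
  obtain ⟨s3, w3, t3, T3⟩ := f
  match w2, h, h2 with
  | [], h, _ => exact absurd h Bool.false_ne_true
  | _ :: _ :: _, h, _ => exact absurd h Bool.false_ne_true
  | [g], h, h2 =>
    simp only [Bool.and_eq_true, frl_eq] at h
    obtain ⟨a1, a2, a3, a4, a5, a6⟩ := h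
    have b1 := Nat.eq_of_beq_eq_true a1
    have b2 := Nat.eq_of_beq_eq_true a2
    have b3 := Nat.eq_of_beq_eq_true a3
    have b4 := eq_of_beqL a4
    subst b1 b2 b3 b4
    exact chC_fk hn h1 h2 a5 a6

end M

/-! ### Exchanges -/

/-- A case of the table of an exchange: the operator, the level and the negative of the coefficient
of the relation and the table of its word. -/
structure Xe : Type where
  g : ℕ
  s : ℕ
  c : ℕ
  T : Tr

/-- The check of a row of an exchange. -/
noncomputable def chx1 (es : List Xe) (d g s j p : ℕ) : Bool :=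
  List.rec false (fun e _ ih => cond (Nat.beq e.g g) (cond (Nat.beq e.s s)
    (cond (Nat.beq (gt e.T j) 0) false
      (chk (Nat.add p (Nat.mul e.c (pk 4096 (Nat.sub (gt e.T j) 1)))) d)) ih) ih) es

theorem chx1_cons (e : Xe) (es : List Xe) (d g s j p : ℕ) : chx1 (e :: es) d g s j p =
    cond (Nat.beq e.g g) (cond (Nat.beq e.s s) (cond (Nat.beq (gt e.T j) 0) false
      (chk (p + e.c * pw (gt e.T j - 1)) d)) (chx1 es d g s j p)) (chx1 es d g s j p) := rfl

theorem chx1_mem {es : List Xe} {d g s j p : ℕ} (h : chx1 es d g s j p = true) :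
    ∃ e ∈ es, e.g = g ∧ e.s = s ∧ gt e.T j ≠ 0 ∧ chk (p + e.c * pw (gt e.T j - 1)) d = true := by
  induction es with
  | nil => exact absurd h Bool.false_ne_true
  | cons e es ih =>
    rw [chx1_cons] at h
    cases h1 : Nat.beq e.g g with
    | false =>
      rw [h1, cond_false] at h
      obtain ⟨e', he, h2⟩ := ih h
      exact ⟨e', List.mem_cons_of_mem _ he, h2⟩
    | true =>
      rw [h1, cond_true] at h
      cases h2 : Nat.beq e.s s with
      | false =>
        rw [h2, cond_false] at h
        obtain ⟨e', he, h2⟩ := ih h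
        exact ⟨e', List.mem_cons_of_mem _ he, h2⟩
      | true =>
        rw [h2, cond_true] at h
        refine ⟨e, List.mem_cons_self, Nat.eq_of_beq_eq_true h1, Nat.eq_of_beq_eq_true h2, ?_⟩
        by_cases h3 : gt e.T j = 0
        · rw [h3] at h
          exact absurd h Bool.false_ne_true
        · rw [beq_false h3, cond_false] at h
          exact ⟨h3, h⟩

/-- The check of the table of an exchange on the level `t` with the codes `b`. -/
noncomputable def chXT (es : List Xe) (b : Tr) (t d : ℕ) (T : Tr) : ℕ → ℕ → Bool :=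
  Tr.rec (fun v j _ => cond (Nat.beq v 0) true
      (frl j fun j => frl (gt b j) fun c => cond (Nat.beq c 0) false
        (frl (Nat.mod (Nat.div (Nat.sub c 1) 65536) 65536) fun s =>
          frl (Nat.div (Nat.div (Nat.sub c 1) 65536) 65536) fun g =>
          frl (Nat.mod (Nat.sub c 1) 65536) fun i =>
          cond (Nat.ble (Nat.succ s) t) (cond (sml (pk 4096 (Nat.sub v 1)) d)
            (chx1 es d g s i (pk 4096 (Nat.sub v 1))) false) false)))
    (fun _ _ a b j st => cond (a j (Nat.mul 2 st)) (b (Nat.add j st) (Nat.mul 2 st)) false) T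

theorem chXT_lf (es : List Xe) (b : Tr) (t d v j st : ℕ) : chXT es b t d (.lf v) j st =
    cond (Nat.beq v 0) true (cond (Nat.beq (gt b j) 0) false
      (cond (Nat.ble (Nat.succ (cs (gt b j))) t) (cond (sml (pw (v - 1)) d)
        (chx1 es d (cgo (gt b j)) (cs (gt b j)) (cj (gt b j)) (pw (v - 1))) false) false)) := by
  have e : chXT es b t d (.lf v) j st = cond (Nat.beq v 0) true
      (frl j fun j => frl (gt b j) fun c => cond (Nat.beq c 0) false
        (frl (Nat.mod (Nat.div (Nat.sub c 1) 65536) 65536) fun s =>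
          frl (Nat.div (Nat.div (Nat.sub c 1) 65536) 65536) fun g =>
          frl (Nat.mod (Nat.sub c 1) 65536) fun i =>
          cond (Nat.ble (Nat.succ s) t) (cond (sml (pk 4096 (Nat.sub v 1)) d)
            (chx1 es d g s i (pk 4096 (Nat.sub v 1))) false) false)) := rfl
  rw [e]
  simp only [frl_eq]
  rfl

theorem chXT_nd (es : List Xe) (b : Tr) (t d : ℕ) (S S' : Tr) (j st : ℕ) :
    chXT es b t d (.nd S S') j st =
      cond (chXT es b t d S j (2 * st)) (chXT es b t d S' (j + st) (2 * st)) false := rfl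

theorem chXT_fa {es : List Xe} {b : Tr} {t d : ℕ} {T : Tr} : ∀ {j st : ℕ},
    chXT es b t d T j st = true → Fa (fun j v => gt b j ≠ 0 ∧ cs (gt b j) < t ∧
      pw (v - 1) < bs ^ d ∧
      chx1 es d (cgo (gt b j)) (cs (gt b j)) (cj (gt b j)) (pw (v - 1)) = true) T j st := by
  induction T with
  | lf v =>
    intro j st h
    refine Fa.lf fun hv => ?_
    rw [chXT_lf, beq_false hv, cond_false] at h
    by_cases h1 : gt b j = 0
    · rw [h1] at h
      exact absurd h Bool.false_ne_true
    · rw [beq_false h1, cond_false] at h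
      obtain ⟨h2, h3⟩ := cond_false_eq h
      obtain ⟨h4, h5⟩ := cond_false_eq h3
      exact ⟨h1, Nat.le_of_ble_eq_true h2, sml_lt h4, h5⟩
  | nd S S' h1 h2 =>
    intro j st h
    rw [chXT_nd] at h
    obtain ⟨h3, h4⟩ := cond_false_eq h
    exact Fa.nd (h1 h3) (h2 h4)

/-- The cases of an exchange from the numbers of the relations and of the tables; the last argument
receives the list. -/
noncomputable def mkX (r : List Rl) (W : ℕ → Wl) (L : List (List Fc)) (t g : ℕ)
    (X : List (ℕ × ℕ)) (F : List Xe → Bool) : List Xe → Bool :=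
  List.rec F (fun p _ ih es =>
    match r.getD p.1 ⟨0, 0, []⟩ with
    | ⟨k, k', [⟨c, [g0, g']⟩, ⟨x, w⟩]⟩ =>
      decide (c = 1) && (Nat.beq g' g && (beqL w (gf L p.2).w && (Nat.beq (gf L p.2).t t &&
        (Nat.beq k (W (gf L p.2).s).k && (Nat.beq k' (W t).k &&
        frl g0 fun g0 => frl (gf L p.2).s fun s => frl (Int.toNat (x % 14348907)) fun c =>
          ih (⟨g0, s, c, (gf L p.2).T⟩ :: es))))))
    | _ => false) X

/-- The table of the exchange `g` on the level `t`: the list `X` consists of the pairs of the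
number of a relation and the number of a table. -/
noncomputable def ckX (r : List Rl) (W : ℕ → Wl) (L : List (List Fc)) (t g : ℕ)
    (X : List (ℕ × ℕ)) (T : Tr) : Bool :=
  Nat.beq (ko (W t).k g) (W t).k && frl (W t).d fun d =>
    mkX r W L t g X (fun es => chXT es (W t).b t d T 0 1) []

section M

variable {r r0 : List Rl} (M : Md r r0) (W : ℕ → Wl)

/-- The case is correct. -/
def Vx (n t g : ℕ) (e : Xe) : Prop := e.c < 14348907 ∧ ∀ j, gt e.T j ≠ 0 →
  ∃ z : M.U, AR (M.cg n (W t).k) (B M W t) 16777216 (pw (gt e.T j - 1)) z ∧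
    M.op (ko (W e.s).k e.g) g (M.op (W e.s).k e.g (B M W e.s j)) + e.c • z ∈ M.cg n (W t).k

variable {M W}

theorem mkX_spec {n t g : ℕ} {L : List (List Fc)} (hW : Wf W) (hL : Fs M W n L) (hn : n ≤ 15)
    (X : List (ℕ × ℕ)) {F : List Xe → Bool} : ∀ {es : List Xe}, mkX r W L t g X F es = true →
    (∀ e ∈ es, Vx M W n t g e) → ∃ es', F es' = true ∧ ∀ e ∈ es', Vx M W n t g e := by
  induction X with
  | nil => intro es h he; exact ⟨es, h, he⟩
  | cons p X ih =>
    intro es h he
    have e1 : mkX r W L t g (p :: X) F es = (match r.getD p.1 ⟨0, 0, []⟩ with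
      | ⟨k, k', [⟨c, [g0, g']⟩, ⟨x, w⟩]⟩ =>
        decide (c = 1) && (Nat.beq g' g && (beqL w (gf L p.2).w && (Nat.beq (gf L p.2).t t &&
          (Nat.beq k (W (gf L p.2).s).k && (Nat.beq k' (W t).k &&
          frl g0 fun g0 => frl (gf L p.2).s fun s => frl (Int.toNat (x % 14348907)) fun c =>
            mkX r W L t g X F (⟨g0, s, c, (gf L p.2).T⟩ :: es))))))
      | _ => false) := rfl
    rw [e1] at h
    have h1 := gf_fk hL p.2
    have h2 : r.getD p.1 ⟨0, 0, []⟩ ∈ r ∨ r.getD p.1 ⟨0, 0, []⟩ = ⟨0, 0, []⟩ := by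
      by_cases h2 : p.1 < r.length
      · rw [List.getD_eq_getElem _ _ h2]
        exact Or.inl (List.getElem_mem h2)
      · exact Or.inr (List.getD_eq_default _ _ (not_lt.1 h2))
    generalize r.getD p.1 ⟨0, 0, []⟩ = R at h h2
    generalize gf L p.2 = f at h h1
    split at h
    · rename_i k k' c g0 g' x w
      simp only [Bool.and_eq_true, decide_eq_true_eq, frl_eq] at h
      obtain ⟨a1, a2, a3, a4, a5, a6, a7⟩ := h
      have b2 := Nat.eq_of_beq_eq_true a2
      have b3 := eq_of_beqL a3
      have b4 := Nat.eq_of_beq_eq_true a4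
      have b5 := Nat.eq_of_beq_eq_true a5
      have b6 := Nat.eq_of_beq_eq_true a6
      have hR : (⟨k, k', [⟨c, [g0, g']⟩, ⟨x, w⟩]⟩ : Rl) ∈ r := by
        rcases h2 with h2 | h2
        · exact h2
        · exact absurd h2 (by simp)
      refine ih a7 ?_
      intro e hmem
      rcases List.mem_cons.1 hmem with rfl | hmem
      · refine ⟨?_, ?_⟩
        · show (x % 14348907).toNat < 14348907
          have := Int.emod_lt_of_pos x (show (0 : ℤ) < 14348907 by norm_num)
          have := Int.emod_nonneg x (show (14348907 : ℤ) ≠ 0 by norm_num)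
          omega
        · intro j hj
          have h3 := h1.row hj
          rw [b4] at h3
          refine ⟨_, h3.1, ?_⟩
          have h4 := M.rel _ hR (x := B M W f.s j) (by rw [b5]; exact B_lg M hW f.s j) n
          simp only [List.map_cons, List.map_nil, List.sum_cons, List.sum_nil, add_zero] at h4
          rw [a1, b2, b3, b5, b6, one_smul] at h4
          show M.op (ko (W f.s).k g0) g (M.op (W f.s).k g0 (B M W f.s j)) +
            (x % 14348907).toNat • ow (fun k g => M.op k g) (W f.s).k f.w (B M W f.s j) ∈ _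
          set z := ow (fun k g => M.op k g) (W f.s).k f.w (B M W f.s j) with hz
          have h5 : x • z = (x % 14348907).toNat • z + q • ((x / 14348907) • z) := by
            have e2 : ((x % 14348907).toNat : ℤ) = x % 14348907 :=
              Int.toNat_of_nonneg (Int.emod_nonneg x (by norm_num))
            rw [← natCast_zsmul z, ← natCast_zsmul _ q, e2, q_lit, ← mul_smul, ← add_smul]
            congr 1
            push_cast
            omega
          rw [h5, ← add_assoc] at h4
          have h6 := AddSubgroup.sub_mem _ h4 (q_cg M hn (W t).k ((x / 14348907) • z))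
          rw [add_sub_cancel_right] at h6
          exact h6
      · exact he e hmem
    · exact absurd h Bool.false_ne_true

theorem ckX_fk {n t g : ℕ} {L : List (List Fc)} {X : List (ℕ × ℕ)} {T : Tr} (hW : Wf W)
    (hL : Fs M W n L) (hn : n ≤ 15) (h : ckX r W L t g X T = true) :
    Fk M W n ⟨t, [g], t, T⟩ := by
  unfold ckX at h
  rw [Bool.and_eq_true, frl_eq] at h
  have h1 := Nat.eq_of_beq_eq_true h.1
  obtain ⟨es, h2, h3⟩ := mkX_spec hW hL hn X h.2 (fun e he => absurd he List.not_mem_nil)
  refine ⟨h1, ?_⟩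
  intro i hi
  obtain ⟨h4, h5, h6, h7⟩ := chXT_fa h2 i hi
  simp only [Nat.zero_add, Nat.one_mul] at h4 h5 h6 h7 ⊢
  refine ⟨?_, h6⟩
  obtain ⟨e, he, a1, a2, a3, a4⟩ := chx1_mem h7
  obtain ⟨c1, c2⟩ := h3 e he
  obtain ⟨z, z1, z2⟩ := c2 _ a3
  have hk : ko (W e.s).k e.g = (W t).k := by
    rw [a1, a2]
    rcases hW t i h4 with ⟨_, _, h8⟩ | ⟨h8, _⟩
    · exact h8
    · exact absurd h5 h8
  have hx : M.op (W e.s).k e.g (B M W e.s (cj (gt (W t).b i))) = B M W t i := by
    rw [B_code M h4 h5, a1, a2]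
  rw [hk, hx] at z2
  show AR (M.cg n (W t).k) (B M W t) 16777216 (pw (gt T i - 1)) (M.op (W t).k g (B M W t i))
  have hq : ∀ z : M.U, q • z ∈ M.cg n (W t).k := q_cg M hn (W t).k
  have h9 : AR (M.cg n (W t).k) (B M W t) (16777216 + e.c * 16777216)
      (pw (gt T i - 1) + e.c * pw (gt e.T (cj (gt (W t).b i)) - 1))
      (SWL57.ln 4096 (gt T i - 1) (B M W t) + e.c • z) :=
    (AR.of_rep (rep_pk _ _ _)).add (z1.smul e.c)
  have h10 := h9.chk hq (by rw [bs_lit]; omega) a4
  refine ⟨SWL57.ln 4096 (gt T i - 1) (B M W t), ?_, rep_pk _ _ _⟩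
  have e3 := AddSubgroup.sub_mem _ z2 h10
  rwa [add_sub_add_right_eq_sub] at e3

end M

end Pool.Agent.SWL57
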