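import Mathlib
import Pool.Agent.SWL57.Rels
import Pool.Agent.SWW54.Fs

/-!
# The words of the operators
-/

set_option autoImplicit false

namespace Pool.Agent.SWL57

open Pool.Agent.Jac70 Pool.Agent.SWW54

/-- The exchanges which move the rail `j + n` to the position `j`. -/
def dn : ℕ → ℕ → List Lt
  | 0, _ => []
  | n + 1, j => .P (j + n) (j + n + 1) :: dn n j

/-- The formal sum of words of the operator `g` on `k` rails. -/
def xw (k g : ℕ) : List (ℤ × List Lt) :=
  match g / 100 with
  | 0 => [(1, [.o 0])]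
  | 1 => [(1, [.b (g % 100 / 10) (g % 10)])]
  | 2 => [(1, .Y (k - 1) k :: (dn (k - 1 - g % 100 / 10) (g % 100 / 10) ++
      dn (k - g % 10) (g % 10)))]
  | 3 => [(1, .M (k - 2) (k - 1) :: dn (k - 2 - g % 100) (g % 100))]
  | 4 => [(1, [.P (g % 100) (g % 100 + 1)])]
  | _ => (2, [.a (g % 100)]) :: (-1, [.o (g % 100)]) ::
      ((List.range k).filter fun j => !Nat.beq j (g % 100)).map fun j =>
        (1, [.b (min j (g % 100)) (max j (g % 100))])

/-- The product of formal sums. -/
def ml (a b : List (ℤ × List Lt)) : List (ℤ × List Lt) :=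
  a.flatMap fun x => b.map fun y => (x.1 * y.1, x.2 ++ y.2)

/-- The formal sum of a product of operators. -/
def xs : ℕ → List ℕ → List (ℤ × List Lt)
  | _, [] => [(1, [])]
  | k, g :: w => ml (xw k g) (xs (ko k g) w)

/-- The formal sum of a relation. -/
def xr (R : Rl) : List (ℤ × List Lt) :=
  R.ts.flatMap fun t => (xs R.k t.w).map fun y => (t.c * y.1, y.2)

/-- The formal sum of a relation for the first state. -/
def xr0 (R : Rl) : List (ℤ × List Lt) := (xr R).map fun y => (y.1, .E 0 :: y.2)

/-- The mirror image of a letter. -/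
def mi : Lt → Lt
  | .Y i j => .M i j
  | .M i j => .Y i j
  | .E i => .A i
  | .A i => .E i
  | l => l

/-- The mirror image of a word. -/
def mr (w : List Lt) : List Lt := (w.map mi).reverse

/-- The mirror image of a formal sum. -/
def ms (S : List (ℤ × List Lt)) : List (ℤ × List Lt) := S.map fun y => (y.1, mr y.2)

variable (H : Type) [DecidableEq H]

/-- The formal sum vanishes up to torsion after every prefix and before every suffix. -/
def RT (k k' : ℕ) (S : List (ℤ × List Lt)) : Prop :=
  ∀ p u : List Lt, tyc p 0 = some k → tyc u k' = some 9 →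
    sm (fun w => ev H (p ++ w ++ u)) S ∈ Submodule.torsion ℤ (A H)

/-- All relations hold. -/
structure AllR : Prop where
  r1 : ∀ R ∈ rels, RT H R.k R.k' (xr R)
  r2 : ∀ R ∈ rels, RT H R.k' R.k (ms (xr R))
  r3 : ∀ R ∈ relsE, RT H 0 R.k' (xr0 R)
  r4 : ∀ R ∈ relsE, RT H R.k' 9 (ms (xr0 R))

end Pool.Agent.SWL57
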