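import Mathlib
import Pool.Agent.SWL57.Ex

/-!
# The modules of the prefixes and of the suffixes
-/

set_option autoImplicit false

namespace Pool.Agent.SWL57

open Pool.Agent.Jac70 Pool.Agent.SWW54

/-! ### Divisibility up to torsion -/

/-- The elements which are divisible by `3 ^ n` up to torsion. -/
def Dv {B : Type} [AddCommGroup B] (n : ℕ) : AddSubgroup B where
  carrier := {x | ∃ (m : ℕ) (y : B), m ≠ 0 ∧ m • x = (m * 3 ^ n) • y}
  zero_mem' := ⟨1, 0, one_ne_zero, by rw [smul_zero, smul_zero]⟩
  add_mem' := by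
    rintro x x' ⟨m, y, hm, h⟩ ⟨m', y', hm', h'⟩
    refine ⟨m * m', y + y', mul_ne_zero hm hm', ?_⟩
    have h1 : (m * m') • x = (m * m' * 3 ^ n) • y := by
      rw [mul_comm m m', mul_smul, h, ← mul_smul]
      congr 1
      ring
    have h2 : (m * m') • x' = (m * m' * 3 ^ n) • y' := by
      rw [mul_smul, h', ← mul_smul]
      congr 1
      ring
    rw [smul_add, h1, h2, smul_add]
  neg_mem' := by
    rintro x ⟨m, y, hm, h⟩
    exact ⟨m, -y, hm, by rw [smul_neg, h, smul_neg]⟩

section

variable {B : Type} [AddCommGroup B]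

theorem mem_dv {n : ℕ} {x : B} :
    x ∈ Dv (B := B) n ↔ ∃ (m : ℕ) (y : B), m ≠ 0 ∧ m • x = (m * 3 ^ n) • y := Iff.rfl

theorem dv_anti {n : ℕ} {x : B} (h : x ∈ Dv (B := B) (n + 1)) : x ∈ Dv (B := B) n := by
  obtain ⟨m, y, hm, h⟩ := h
  refine ⟨m, 3 • y, hm, ?_⟩
  rw [h, ← mul_smul]
  congr 1
  ring

theorem dv_mul (n : ℕ) (x : B) : (3 ^ n : ℕ) • x ∈ Dv (B := B) n :=
  ⟨1, x, one_ne_zero, by rw [one_smul, one_mul]⟩

theorem dv_div {a n : ℕ} {x : B} (h : (3 ^ a : ℕ) • x ∈ Dv (B := B) (n + a)) :
    x ∈ Dv (B := B) n := by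
  obtain ⟨m, y, hm, h⟩ := h
  refine ⟨m * 3 ^ a, y, mul_ne_zero hm (pow_ne_zero _ (by norm_num)), ?_⟩
  rw [mul_smul, h]
  congr 1
  ring

theorem dv_tors {n : ℕ} {x : B} (h : x ∈ Submodule.torsion ℤ B) : x ∈ Dv (B := B) n := by
  rw [Submodule.mem_torsion_iff] at h
  obtain ⟨a, ha⟩ := h
  have h0 : (a : ℤ) ≠ 0 := nonZeroDivisors.ne_zero a.2
  refine ⟨(a : ℤ).natAbs, 0, Int.natAbs_ne_zero.2 h0, ?_⟩
  rw [smul_zero]
  have h1 : (a : ℤ) • x = 0 := ha
  rcases Int.natAbs_eq (a : ℤ) with h2 | h2
  · rw [h2, natCast_zsmul] at h1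
    exact h1
  · rw [h2, neg_smul, natCast_zsmul, neg_eq_zero] at h1
    exact h1

end

/-! ### Formal sums -/

section

variable {B : Type} [AddCommGroup B]

theorem sm_nil (F : List Lt → B) : sm F [] = 0 := rfl

theorem sm_congr {F F' : List Lt → B} {R : List (ℤ × List Lt)} (h : ∀ t ∈ R, F t.2 = F' t.2) :
    sm F R = sm F' R := by
  unfold sm
  congr 1
  exact List.map_congr_left fun t ht => by rw [h t ht]

theorem sm_add (F F' : List Lt → B) (R : List (ℤ × List Lt)) :
    sm (F + F') R = sm F R + sm F' R := by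
  induction R with
  | nil => rw [sm_nil, sm_nil, sm_nil, add_zero]
  | cons t R ih =>
    rw [sm_cons, sm_cons, sm_cons, ih, Pi.add_apply, smul_add]
    abel

theorem sm_mem {F : List Lt → B} {R : List (ℤ × List Lt)} {S : AddSubgroup B}
    (h : ∀ t ∈ R, F t.2 ∈ S) : sm F R ∈ S := by
  unfold sm
  refine list_sum_mem fun x hx => ?_
  obtain ⟨t, ht, rfl⟩ := List.mem_map.1 hx
  exact S.zsmul_mem (h t ht) _

theorem sm_map (F : List Lt → B) (g : ℤ × List Lt → ℤ × List Lt) (R : List (ℤ × List Lt)) :
    sm F (R.map g) = (R.map fun t => (g t).1 • F (g t).2).sum := by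
  unfold sm
  rw [List.map_map]
  rfl

theorem sm_smul (F : List Lt → B) (c : ℤ) (f : List Lt → List Lt) (R : List (ℤ × List Lt)) :
    sm F (R.map fun t => (c * t.1, f t.2)) = c • sm (fun w => F (f w)) R := by
  induction R with
  | nil => rw [List.map_nil, sm_nil, sm_nil, smul_zero]
  | cons t R ih => rw [List.map_cons, sm_cons, sm_cons, ih, smul_add, mul_smul]

/-- The product of formal sums. -/
theorem sm_ml (F : List Lt → B) (a b : List (ℤ × List Lt)) :
    sm F (ml a b) = sm (fun v => sm (fun w => F (v ++ w)) b) a := by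
  unfold ml
  induction a with
  | nil => rfl
  | cons t a ih => rw [List.flatMap_cons, sm_append, ih, sm_cons, sm_smul F t.1 (fun w => t.2 ++ w)]

/-- The two sums over words may be exchanged. -/
theorem sm_comm (F : List Lt → List Lt → B) (a b : List (ℤ × List Lt)) :
    sm (fun v => sm (fun w => F v w) b) a = sm (fun w => sm (fun v => F v w) a) b := by
  induction a with
  | nil =>
    rw [sm_nil]
    symm
    induction b with
    | nil => rfl
    | cons t b ih => rw [sm_cons, ih, sm_nil, smul_zero, add_zero]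
  | cons s a ih =>
    rw [sm_cons, ih]
    have h1 : (fun w => sm (fun v => F v w) (s :: a)) =
        (fun w => s.1 • F s.2 w) + fun w => sm (fun v => F v w) a := by
      funext w
      rw [sm_cons]
      rfl
    rw [h1, sm_add]
    congr 1
    clear ih h1
    induction b with
    | nil => rw [sm_nil, sm_nil, smul_zero]
    | cons t b ih =>
      rw [sm_cons, sm_cons, smul_add, ih, ← mul_smul, ← mul_smul, mul_comm]

end

/-! ### The types -/

/-- The check of the types of the operators. -/
def tychk : Bool := (List.range 5).all fun k => (List.range 600).all fun g =>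
  !okg k g || (xw k g).all fun t => decide (tyc t.2 k = some (ko k g)) &&
    decide (tyc (mr t.2) (ko k g) = some k)

theorem tychk_ok : tychk = true := by decide +kernel

theorem okg_lt {k g : ℕ} (h : okg k g = true) : k < 5 ∧ g < 600 := by
  unfold okg at h
  by_cases h6 : g / 100 < 6
  · have hg : g < 600 := by omega
    refine ⟨?_, hg⟩
    have h0 : g / 100 = 0 ∨ g / 100 = 1 ∨ g / 100 = 2 ∨ g / 100 = 3 ∨ g / 100 = 4 ∨
      g / 100 = 5 := by omega
    rcases h0 with h0 | h0 | h0 | h0 | h0 | h0 <;> rw [h0] at h <;>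
      simp only [decide_eq_true_eq] at h <;> omega
  · exfalso
    obtain ⟨d, hd⟩ : ∃ d, g / 100 = d + 6 := ⟨g / 100 - 6, by omega⟩
    rw [hd] at h
    simp at h

theorem xw_ty {k g : ℕ} (h : okg k g = true) {t : ℤ × List Lt} (ht : t ∈ xw k g) :
    tyc t.2 k = some (ko k g) ∧ tyc (mr t.2) (ko k g) = some k := by
  obtain ⟨h1, h2⟩ := okg_lt h
  have h3 := tychk_ok
  unfold tychk at h3
  rw [List.all_eq_true] at h3
  have h4 := h3 k (List.mem_range.2 h1)
  rw [List.all_eq_true] at h4
  have h5 := h4 g (List.mem_range.2 h2)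
  rw [h, Bool.not_true, Bool.false_or, List.all_eq_true] at h5
  have h6 := h5 t ht
  rw [Bool.and_eq_true, decide_eq_true_eq, decide_eq_true_eq] at h6
  exact h6

/-! ### The module of the prefixes -/

section

variable (H : Type) [DecidableEq H]

/-- The operators on the values of the suffixes. -/
noncomputable def opP (k g : ℕ) : (List Lt → A H) →+ (List Lt → A H) where
  toFun F u := sm (fun w => F (w ++ u)) (xw k g)
  map_zero' := by
    funext u
    show sm (fun _ => (0 : A H)) (xw k g) = 0
    unfold sm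
    simp
  map_add' F F' := by
    funext u
    exact sm_add _ _ _

theorem opP_apply (k g : ℕ) (F : List Lt → A H) (u : List Lt) :
    opP H k g F u = sm (fun w => F (w ++ u)) (xw k g) := rfl

/-- The value of a product of operators. -/
theorem ow_opP (k : ℕ) (w : List ℕ) (F : List Lt → A H) (u : List Lt) :
    ow (fun k g => opP H k g) k w F u = sm (fun v => F (v ++ u)) (xs k w) := by
  induction w generalizing k F with
  | nil =>
    show F u = sm (fun v => F (v ++ u)) [(1, [])]
    rw [sm_cons, sm_nil, add_zero, one_smul, List.nil_append]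
  | cons g w ih =>
    show ow (fun k g => opP H k g) (ko k g) w (opP H k g F) u = _
    rw [ih]
    show _ = sm (fun v => F (v ++ u)) (ml (xw k g) (xs (ko k g) w))
    rw [sm_ml, ← sm_comm]
    refine sm_congr fun t _ => ?_
    rw [opP_apply]
    refine sm_congr fun t' _ => ?_
    rw [List.append_assoc]

/-- The value of a sum of products of operators. -/
theorem sum_opP (k : ℕ) (ts : List Tm) (F : List Lt → A H) (u : List Lt) :
    (ts.map fun t => t.c • ow (fun k g => opP H k g) k t.w F).sum u =
      sm (fun v => F (v ++ u)) (ts.flatMap fun t => (xs k t.w).map fun y => (t.c * y.1, y.2)) := by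
  induction ts with
  | nil => rfl
  | cons t ts ih =>
    rw [List.map_cons, List.sum_cons, Pi.add_apply, ih, List.flatMap_cons, sm_append]
    congr 1
    rw [sm_smul _ t.c (fun w => w), Pi.smul_apply, ow_opP]

/-- The legal states. -/
def lgP (k : ℕ) : AddSubgroup (List Lt → A H) :=
  AddSubgroup.closure {F | ∃ p : List Lt, tyc p 0 = some k ∧ F = fun u => ev H (p ++ u)}

/-- The states which are divisible by `3 ^ n` up to torsion before every suffix. -/
def cgP (n k : ℕ) : AddSubgroup (List Lt → A H) where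
  carrier := {F | ∀ u, tyc u k = some 9 → F u ∈ Dv (B := A H) n}
  zero_mem' := fun _ _ => zero_mem _
  add_mem' := fun h h' u hu => add_mem (h u hu) (h' u hu)
  neg_mem' := fun h u hu => neg_mem (h u hu)

variable {H}

theorem mem_cgP {n k : ℕ} {F : List Lt → A H} :
    F ∈ cgP H n k ↔ ∀ u, tyc u k = some 9 → F u ∈ Dv (B := A H) n := Iff.rfl

theorem gen_lgP {k : ℕ} {p : List Lt} (hp : tyc p 0 = some k) :
    (fun u => ev H (p ++ u)) ∈ lgP H k := AddSubgroup.subset_closure ⟨p, hp, rfl⟩

/-- Induction over the legal states. -/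
theorem lgP_ind {k : ℕ} {P : (List Lt → A H) → Prop}
    (gen : ∀ p : List Lt, tyc p 0 = some k → P fun u => ev H (p ++ u)) (zero : P 0)
    (add : ∀ F F', P F → P F' → P (F + F')) (neg : ∀ F, P F → P (-F)) {F : List Lt → A H}
    (hF : F ∈ lgP H k) : P F := by
  unfold lgP at hF
  induction hF using AddSubgroup.closure_induction with
  | mem F h =>
    obtain ⟨p, hp, rfl⟩ := h
    exact gen p hp
  | zero => exact zero
  | add F F' _ _ h h' => exact add F F' h h'
  | neg F _ h => exact neg F h

theorem opP_cg {n k g : ℕ} {F : List Lt → A H} (hg : okg k g = true) (hF : F ∈ cgP H n k) :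
    opP H k g F ∈ cgP H n (ko k g) := by
  intro u hu
  rw [opP_apply]
  exact sm_mem fun t ht => hF _ (tyc_append.2 ⟨_, (xw_ty hg ht).1, hu⟩)

theorem sm_lg {k k' : ℕ} {R : List (ℤ × List Lt)} (hR : ∀ t ∈ R, tyc t.2 k = some k')
    {F : List Lt → A H} (hF : F ∈ lgP H k) : (fun u => sm (fun w => F (w ++ u)) R) ∈ lgP H k' := by
  refine lgP_ind (P := fun F => (fun u => sm (fun w => F (w ++ u)) R) ∈ lgP H k') ?_ ?_ ?_ ?_ hF
  · intro p hp
    have key : ∀ R : List (ℤ × List Lt), (∀ t ∈ R, tyc t.2 k = some k') →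
        (fun u => sm (fun w => ev H (p ++ (w ++ u))) R) ∈ lgP H k' := by
      intro R
      induction R with
      | nil => exact fun _ => zero_mem _
      | cons t R ih =>
        intro h
        have h1 : (fun u => sm (fun w => ev H (p ++ (w ++ u))) (t :: R)) =
            t.1 • (fun u => ev H ((p ++ t.2) ++ u)) +
              fun u => sm (fun w => ev H (p ++ (w ++ u))) R := by
          funext u
          rw [sm_cons, Pi.add_apply, Pi.smul_apply, List.append_assoc]
        rw [h1]
        refine add_mem (AddSubgroup.zsmul_mem _ (gen_lgP ?_) _)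
          (ih fun t' ht' => h t' (List.mem_cons_of_mem _ ht'))
        exact tyc_append.2 ⟨_, hp, h t (List.mem_cons_self ..)⟩
    exact key R hR
  · have h1 : (fun u => sm (fun w => (0 : List Lt → A H) (w ++ u)) R) = 0 := by
      funext u
      unfold sm
      simp
    rw [h1]
    exact zero_mem _
  · intro F F' h h'
    have h1 : (fun u => sm (fun w => (F + F') (w ++ u)) R) =
        (fun u => sm (fun w => F (w ++ u)) R) + fun u => sm (fun w => F' (w ++ u)) R := by
      funext u
      exact sm_add (fun w => F (w ++ u)) (fun w => F' (w ++ u)) R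
    rw [h1]
    exact add_mem h h'
  · intro F h
    have h1 : (fun u => sm (fun w => (-F) (w ++ u)) R) =
        -fun u => sm (fun w => F (w ++ u)) R := by
      funext u
      rw [Pi.neg_apply, eq_neg_iff_add_eq_zero]
      have h2 := sm_add (fun w => (-F) (w ++ u)) (fun w => F (w ++ u)) R
      rw [← h2]
      unfold sm
      simp
    rw [h1]
    exact neg_mem h

theorem opP_lg {k g : ℕ} {F : List Lt → A H} (hg : okg k g = true) (hF : F ∈ lgP H k) :
    opP H k g F ∈ lgP H (ko k g) := sm_lg (fun _ ht => (xw_ty hg ht).1) hF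

theorem relP (h : AllR H) {R : Rl} (hR : R ∈ rels) {F : List Lt → A H} (hF : F ∈ lgP H R.k)
    (n : ℕ) : (R.ts.map fun t => t.c • ow (fun k g => opP H k g) R.k t.w F).sum ∈
      cgP H n R.k' := by
  intro u hu
  rw [sum_opP]
  refine lgP_ind (P := fun F => sm (fun v => F (v ++ u)) (xr R) ∈ Dv (B := A H) n) ?_ ?_ ?_ ?_ hF
  · intro p hp
    have h1 := h.r1 R hR p u hp hu
    simp only [List.append_assoc] at h1
    exact dv_tors h1
  · have h1 : sm (fun v => (0 : List Lt → A H) (v ++ u)) (xr R) = 0 := by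
      unfold sm
      simp
    rw [h1]
    exact zero_mem _
  · intro F F' h h'
    have h1 := sm_add (fun v => F (v ++ u)) (fun v => F' (v ++ u)) (xr R)
    show sm ((fun v => F (v ++ u)) + fun v => F' (v ++ u)) (xr R) ∈ _
    rw [h1]
    exact add_mem h h'
  · intro F h
    have h1 : sm (fun v => (-F) (v ++ u)) (xr R) = - sm (fun v => F (v ++ u)) (xr R) := by
      rw [eq_neg_iff_add_eq_zero]
      have h2 := sm_add (fun v => (-F) (v ++ u)) (fun v => F (v ++ u)) (xr R)
      rw [← h2]
      unfold sm
      simp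
    rw [h1]
    exact neg_mem h

theorem sm_xr0 (F : List Lt → A H) (R : Rl) :
    sm F (xr0 R) = sm (fun w => F (.E 0 :: w)) (xr R) := by
  unfold xr0
  have h1 := sm_smul F 1 (fun w => .E 0 :: w) (xr R)
  simp only [one_mul, one_smul] at h1
  exact h1

/-- **The module of the prefixes.** -/
noncomputable def pre (h : AllR H) : Md rels relsE where
  U := List Lt → A H
  op := opP H
  cg := cgP H
  lg := lgP H
  e := fun u => ev H (.E 0 :: u)
  e_lg := gen_lgP (p := [.E 0]) rfl
  op_cg := fun hg hx => opP_cg hg hx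
  op_lg := fun hg hx => opP_lg hg hx
  cg_anti := fun hx u hu => dv_anti (hx u hu)
  cg_mul := fun n k x u _ => dv_mul n (x u)
  cg_div := fun hx u hu => dv_div (hx u hu)
  rel := fun R hR _ hx n => relP h hR hx n
  rel0 := fun R hR _ n u hu => by
    rw [sum_opP]
    have h1 := h.r3 R hR [] u rfl hu
    rw [sm_xr0] at h1
    exact dv_tors h1

end

/-! ### The module of the suffixes -/

section

variable (H : Type) [DecidableEq H]

/-- The function of the suffixes with the mirror images of the words before them. -/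
noncomputable def pl (R : List (ℤ × List Lt)) (Q : List Lt → A H) (u : List Lt) : A H :=
  sm (fun w => Q (mr w ++ u)) R

/-- The operators on the functions of prefixes. -/
noncomputable def opS (k g : ℕ) :
    ((List Lt → A H) → A H) →+ ((List Lt → A H) → A H) where
  toFun F Q := F (pl H (xw k g) Q)
  map_zero' := rfl
  map_add' _ _ := rfl

theorem opS_apply (k g : ℕ) (F : (List Lt → A H) → A H) (Q : List Lt → A H) :
    opS H k g F Q = F (pl H (xw k g) Q) := rfl

theorem mr_append (v w : List Lt) : mr (v ++ w) = mr w ++ mr v := by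
  unfold mr
  rw [List.map_append, List.reverse_append]

theorem pl_ml (a b : List (ℤ × List Lt)) (Q : List Lt → A H) :
    pl H (ml a b) Q = pl H a (pl H b Q) := by
  funext u
  unfold pl
  rw [sm_ml]
  refine sm_congr fun t _ => sm_congr fun t' _ => ?_
  rw [mr_append, List.append_assoc]

theorem pl_one (Q : List Lt → A H) : pl H [(1, [])] Q = Q := by
  funext u
  show sm (fun w => Q (mr w ++ u)) [(1, [])] = Q u
  rw [sm_cons, sm_nil, add_zero, one_smul]
  rfl

/-- The value of a product of operators. -/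
theorem ow_opS (k : ℕ) (w : List ℕ) (F : (List Lt → A H) → A H) (Q : List Lt → A H) :
    ow (fun k g => opS H k g) k w F Q = F (pl H (xs k w) Q) := by
  induction w generalizing k F with
  | nil =>
    show F Q = F (pl H [(1, [])] Q)
    rw [pl_one]
  | cons g w ih =>
    show ow (fun k g => opS H k g) (ko k g) w (opS H k g F) Q = _
    rw [ih, opS_apply, ← pl_ml]
    rfl

theorem sum_opS (k : ℕ) (ts : List Tm) (F : (List Lt → A H) → A H) (Q : List Lt → A H) :
    (ts.map fun t => t.c • ow (fun k g => opS H k g) k t.w F).sum Q =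
      (ts.map fun t => t.c • F (pl H (xs k t.w) Q)).sum := by
  induction ts with
  | nil => rfl
  | cons t ts ih =>
    rw [List.map_cons, List.sum_cons, Pi.add_apply, ih, List.map_cons, List.sum_cons,
      Pi.smul_apply, ow_opS]

/-- The sum of products of operators for the value at a suffix. -/
theorem sum_plS (k : ℕ) (ts : List Tm) (Q : List Lt → A H) (u : List Lt) :
    (ts.map fun t => t.c • pl H (xs k t.w) Q u).sum =
      sm (fun v => Q (mr v ++ u)) (ts.flatMap fun t => (xs k t.w).map fun y => (t.c * y.1, y.2)) := by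
  induction ts with
  | nil => rfl
  | cons t ts ih =>
    rw [List.map_cons, List.sum_cons, ih, List.flatMap_cons, sm_append]
    congr 1
    rw [sm_smul _ t.c (fun w => w)]
    rfl

theorem sm_ms {B : Type} [AddCommGroup B] (F : List Lt → B) (R : List (ℤ × List Lt)) :
    sm F (ms R) = sm (fun w => F (mr w)) R := by
  unfold ms
  have h1 := sm_smul F 1 mr R
  simp only [one_mul, one_smul] at h1
  exact h1

/-- The legal states. -/
def lgS (k : ℕ) : AddSubgroup ((List Lt → A H) → A H) :=
  AddSubgroup.closure {F | ∃ u : List Lt, tyc u k = some 9 ∧ F = fun Q => Q u}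

/-- The states which are divisible by `3 ^ n` up to torsion on the legal prefixes. -/
def cgS (n k : ℕ) : AddSubgroup ((List Lt → A H) → A H) where
  carrier := {F | ∀ Q ∈ lgP H k, F Q ∈ Dv (B := A H) n}
  zero_mem' := fun _ _ => zero_mem _
  add_mem' := fun h h' Q hQ => add_mem (h Q hQ) (h' Q hQ)
  neg_mem' := fun h Q hQ => neg_mem (h Q hQ)

variable {H}

theorem gen_lgS {k : ℕ} {u : List Lt} (hu : tyc u k = some 9) :
    (fun Q : List Lt → A H => Q u) ∈ lgS H k := AddSubgroup.subset_closure ⟨u, hu, rfl⟩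

/-- Induction over the legal states. -/
theorem lgS_ind {k : ℕ} {P : ((List Lt → A H) → A H) → Prop}
    (gen : ∀ u : List Lt, tyc u k = some 9 → P fun Q => Q u) (zero : P 0)
    (add : ∀ F F', P F → P F' → P (F + F')) (neg : ∀ F, P F → P (-F))
    {F : (List Lt → A H) → A H} (hF : F ∈ lgS H k) : P F := by
  unfold lgS at hF
  induction hF using AddSubgroup.closure_induction with
  | mem F h =>
    obtain ⟨u, hu, rfl⟩ := h
    exact gen u hu
  | zero => exact zero
  | add F F' _ _ h h' => exact add F F' h h'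
  | neg F _ h => exact neg F h

/-- The mirror images of words of the right type applied to a legal prefix. -/
theorem pl_lg {k k' : ℕ} {R : List (ℤ × List Lt)} (hR : ∀ t ∈ R, tyc (mr t.2) k' = some k)
    {Q : List Lt → A H} (hQ : Q ∈ lgP H k') : pl H R Q ∈ lgP H k := by
  have h1 : pl H R Q = fun u => sm (fun w => Q (w ++ u)) (ms R) := by
    funext u
    exact (sm_ms (fun w => Q (w ++ u)) R).symm
  rw [h1]
  refine sm_lg ?_ hQ
  intro t ht
  unfold ms at ht
  obtain ⟨t', ht', rfl⟩ := List.mem_map.1 ht
  exact hR t' ht'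

theorem opS_cg {n k g : ℕ} {F : (List Lt → A H) → A H} (hg : okg k g = true)
    (hF : F ∈ cgS H n k) : opS H k g F ∈ cgS H n (ko k g) := by
  intro Q hQ
  rw [opS_apply]
  exact hF _ (pl_lg (fun _ ht => (xw_ty hg ht).2) hQ)

theorem opS_lg {k g : ℕ} {F : (List Lt → A H) → A H} (hg : okg k g = true)
    (hF : F ∈ lgS H k) : opS H k g F ∈ lgS H (ko k g) := by
  refine lgS_ind (P := fun F => opS H k g F ∈ lgS H (ko k g)) ?_ ?_ ?_ ?_ hF
  · intro u hu
    have key : ∀ R : List (ℤ × List Lt), (∀ t ∈ R, tyc (mr t.2) (ko k g) = some k) →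
        (fun Q : List Lt → A H => sm (fun w => Q (mr w ++ u)) R) ∈ lgS H (ko k g) := by
      intro R
      induction R with
      | nil => exact fun _ => zero_mem _
      | cons t R ih =>
        intro h
        have h1 : (fun Q : List Lt → A H => sm (fun w => Q (mr w ++ u)) (t :: R)) =
            t.1 • (fun Q : List Lt → A H => Q (mr t.2 ++ u)) +
              fun Q : List Lt → A H => sm (fun w => Q (mr w ++ u)) R := by
          funext Q
          rw [sm_cons]
          rfl
        rw [h1]
        refine add_mem (AddSubgroup.zsmul_mem _ (gen_lgS ?_) _)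
          (ih fun t' ht' => h t' (List.mem_cons_of_mem _ ht'))
        exact tyc_append.2 ⟨_, h t (List.mem_cons_self ..), hu⟩
    exact key _ fun _ ht => (xw_ty hg ht).2
  · rw [map_zero]
    exact zero_mem _
  · intro F F' h h'
    rw [map_add]
    exact add_mem h h'
  · intro F h
    rw [map_neg]
    exact neg_mem h

theorem relS (h : AllR H) {R : Rl} (hR : R ∈ rels) {F : (List Lt → A H) → A H}
    (hF : F ∈ lgS H R.k) (n : ℕ) :
    (R.ts.map fun t => t.c • ow (fun k g => opS H k g) R.k t.w F).sum ∈ cgS H n R.k' := by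
  intro Q hQ
  rw [sum_opS]
  refine lgS_ind (P := fun F => (R.ts.map fun t => t.c • F (pl H (xs R.k t.w) Q)).sum ∈
    Dv (B := A H) n) ?_ ?_ ?_ ?_ hF
  · intro u hu
    rw [sum_plS]
    refine lgP_ind (P := fun Q => sm (fun v => Q (mr v ++ u)) (xr R) ∈ Dv (B := A H) n)
      ?_ ?_ ?_ ?_ hQ
    · intro p hp
      have h1 := h.r2 R hR p u hp hu
      rw [sm_ms] at h1
      simp only [List.append_assoc] at h1
      exact dv_tors h1
    · have h1 : sm (fun v => (0 : List Lt → A H) (mr v ++ u)) (xr R) = 0 := by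
        unfold sm
        simp
      rw [h1]
      exact zero_mem _
    · intro F F' h h'
      show sm ((fun v => F (mr v ++ u)) + fun v => F' (mr v ++ u)) (xr R) ∈ _
      rw [sm_add]
      exact add_mem h h'
    · intro F h
      have h1 : sm (fun v => (-F) (mr v ++ u)) (xr R) = - sm (fun v => F (mr v ++ u)) (xr R) := by
        rw [eq_neg_iff_add_eq_zero]
        have h2 := sm_add (fun v => (-F) (mr v ++ u)) (fun v => F (mr v ++ u)) (xr R)
        rw [← h2]
        unfold sm
        simp
      rw [h1]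
      exact neg_mem h
  · have h1 : (R.ts.map fun t => t.c • (0 : (List Lt → A H) → A H) (pl H (xs R.k t.w) Q)).sum =
        0 := by
      simp
    rw [h1]
    exact zero_mem _
  · intro F F' h h'
    have h1 : (R.ts.map fun t => t.c • (F + F') (pl H (xs R.k t.w) Q)).sum =
        (R.ts.map fun t => t.c • F (pl H (xs R.k t.w) Q)).sum +
          (R.ts.map fun t => t.c • F' (pl H (xs R.k t.w) Q)).sum := by
      rw [← List.sum_map_add]
      congr 1
      refine List.map_congr_left fun t _ => ?_
      rw [Pi.add_apply, smul_add]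
    rw [h1]
    exact add_mem h h'
  · intro F h
    have h1 : (R.ts.map fun t => t.c • (-F) (pl H (xs R.k t.w) Q)).sum =
        - (R.ts.map fun t => t.c • F (pl H (xs R.k t.w) Q)).sum := by
      rw [eq_neg_iff_add_eq_zero, ← List.sum_map_add]
      simp
    rw [h1]
    exact neg_mem h

/-- **The module of the suffixes.** -/
noncomputable def suf (h : AllR H) : Md rels relsE where
  U := (List Lt → A H) → A H
  op := opS H
  cg := cgS H
  lg := lgS H
  e := fun Q => Q [.A 0]
  e_lg := gen_lgS (u := [.A 0]) rfl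
  op_cg := fun hg hx => opS_cg hg hx
  op_lg := fun hg hx => opS_lg hg hx
  cg_anti := fun hx Q hQ => dv_anti (hx Q hQ)
  cg_mul := fun n k x Q _ => dv_mul n (x Q)
  cg_div := fun hx Q hQ => dv_div (hx Q hQ)
  rel := fun R hR _ hx n => relS h hR hx n
  rel0 := fun R hR _ n Q hQ => by
    rw [sum_opS]
    show (R.ts.map fun t => t.c • pl H (xs R.k t.w) Q [.A 0]).sum ∈ _
    rw [sum_plS]
    refine lgP_ind (P := fun Q => sm (fun v => Q (mr v ++ [.A 0])) (xr R) ∈ Dv (B := A H) n)
      ?_ ?_ ?_ ?_ hQ
    · intro p hp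
      have h1 := h.r4 R hR p [] hp rfl
      rw [sm_ms, sm_xr0] at h1
      have h2 : ∀ v : List Lt, p ++ mr (.E 0 :: v) ++ [] = p ++ (mr v ++ [.A 0]) := by
        intro v
        rw [List.append_nil]
        unfold mr
        rw [List.map_cons, List.reverse_cons]
        rfl
      simp only [h2] at h1
      exact dv_tors h1
    · have h1 : sm (fun v => (0 : List Lt → A H) (mr v ++ [.A 0])) (xr R) = 0 := by
        unfold sm
        simp
      rw [h1]
      exact zero_mem _
    · intro F F' h h'
      show sm ((fun v => F (mr v ++ [.A 0])) + fun v => F' (mr v ++ [.A 0])) (xr R) ∈ _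
      rw [sm_add]
      exact add_mem h h'
    · intro F h
      have h1 : sm (fun v => (-F) (mr v ++ [.A 0])) (xr R) =
          - sm (fun v => F (mr v ++ [.A 0])) (xr R) := by
        rw [eq_neg_iff_add_eq_zero]
        have h2 := sm_add (fun v => (-F) (mr v ++ [.A 0])) (fun v => F (mr v ++ [.A 0])) (xr R)
        rw [← h2]
        unfold sm
        simp
      rw [h1]
      exact neg_mem h

end

/-! ### The pairing -/

/-- The exchanges `j`, ..., `j + n - 1`. -/
def up : ℕ → ℕ → List ℕ
  | 0, _ => []
  | n + 1, j => up n j ++ [400 + (j + n)]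

/-- The mirror image of the operator `g` on `k` rails. -/
def mw (k g : ℕ) : List ℕ :=
  match g / 100 with
  | 2 => up (k - g % 10) (g % 10) ++ (up (k - 1 - g % 100 / 10) (g % 100 / 10) ++ [300 + (k - 1)])
  | 3 => up (k - 2 - g % 100) (g % 100) ++ [200 + 10 * (k - 2) + (k - 1)]
  | _ => [g]

/-- The mirror image of a product of operators on `k` rails. -/
def mww : ℕ → List ℕ → List ℕ
  | _, [] => []
  | k, g :: w => mww (ko k g) w ++ mw k g

/-- The check of the mirror images. -/
def mwchk : Bool := (List.range 5).all fun k => (List.range 600).all fun g =>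
  !okg k g || (decide (xs (ko k g) (mw k g) = ms (xw k g)) && okw (ko k g) (mw k g) &&
    decide (kw (ko k g) (mw k g) = k))

theorem mwchk_ok : mwchk = true := by decide +kernel

theorem mw_spec {k g : ℕ} (h : okg k g = true) : xs (ko k g) (mw k g) = ms (xw k g) ∧
    okw (ko k g) (mw k g) = true ∧ kw (ko k g) (mw k g) = k := by
  obtain ⟨h1, h2⟩ := okg_lt h
  have h3 := mwchk_ok
  unfold mwchk at h3
  rw [List.all_eq_true] at h3
  have h4 := h3 k (List.mem_range.2 h1)
  rw [List.all_eq_true] at h4
  have h5 := h4 g (List.mem_range.2 h2)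
  rw [h, Bool.not_true, Bool.false_or, Bool.and_eq_true, Bool.and_eq_true, decide_eq_true_eq,
    decide_eq_true_eq] at h5
  exact ⟨h5.1.1, h5.1.2, h5.2⟩

theorem ow_app {U : Type} (op : ℕ → ℕ → U → U) (k : ℕ) (v w : List ℕ) (x : U) :
    ow op k (v ++ w) x = ow op (kw k v) w (ow op k v x) := by
  induction v generalizing k x with
  | nil => rfl
  | cons g v ih => exact ih _ _

section

variable {H : Type} [DecidableEq H]

/-- **The mirror image of an operator in the pairing.** -/
theorem opS_eq {k g : ℕ} (hg : okg k g = true) (F : (List Lt → A H) → A H)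
    (Q : List Lt → A H) :
    opS H k g F Q = F (ow (fun k g => opP H k g) (ko k g) (mw k g) Q) := by
  rw [opS_apply]
  congr 1
  funext u
  rw [ow_opP, (mw_spec hg).1, sm_ms]
  rfl

/-- The mirror image of a product of operators in the pairing. -/
theorem owS_eq {k : ℕ} {w : List ℕ} (hw : okw k w = true) (F : (List Lt → A H) → A H)
    (Q : List Lt → A H) :
    ow (fun k g => opS H k g) k w F Q =
      F (ow (fun k g => opP H k g) (kw k w) (mww k w) Q) := by
  induction w generalizing k F with
  | nil => rfl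
  | cons g w ih =>
    unfold okw at hw
    rw [Bool.and_eq_true] at hw
    show ow (fun k g => opS H k g) (ko k g) w (opS H k g F) Q = _
    rw [ih hw.2, opS_eq hw.1]
    have h1 : kw (kw (ko k g) w) (mww (ko k g) w) = ko k g := by
      have key : ∀ (w : List ℕ) (k : ℕ), okw k w = true → kw (kw k w) (mww k w) = k := by
        intro w
        induction w with
        | nil => exact fun _ _ => rfl
        | cons g w ih =>
          intro k hk
          unfold okw at hk
          rw [Bool.and_eq_true] at hk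
          have h2 : ∀ (v v' : List ℕ) (m : ℕ), kw m (v ++ v') = kw (kw m v) v' := by
            intro v
            induction v with
            | nil => exact fun _ _ => rfl
            | cons a v ih => exact fun v' m => ih v' _
          show kw (kw (ko k g) w) (mww (ko k g) w ++ mw k g) = k
          rw [h2, ih _ hk.2, (mw_spec hk.1).2.2]
      exact key w _ hw.2
    show _ = F (ow _ (kw (ko k g) w) (mww (ko k g) w ++ mw k g) Q)
    rw [ow_app, h1]

/-- The pairing is additive for the legal suffixes. -/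
theorem lgS_hom {k : ℕ} {F : (List Lt → A H) → A H} (hF : F ∈ lgS H k) :
    ∃ φ : (List Lt → A H) →+ A H, ∀ Q, F Q = φ Q := by
  refine lgS_ind (P := fun F => ∃ φ : (List Lt → A H) →+ A H, ∀ Q, F Q = φ Q) ?_ ?_ ?_ ?_ hF
  · exact fun u _ => ⟨Pi.evalAddMonoidHom _ u, fun _ => rfl⟩
  · exact ⟨0, fun _ => rfl⟩
  · rintro F F' ⟨φ, h⟩ ⟨φ', h'⟩
    exact ⟨φ + φ', fun Q => by rw [Pi.add_apply, h, h']; rfl⟩
  · rintro F ⟨φ, h⟩
    exact ⟨-φ, fun Q => by rw [Pi.neg_apply, h]; rfl⟩

theorem lgS_add {k : ℕ} {F : (List Lt → A H) → A H} (hF : F ∈ lgS H k) (Q Q' : List Lt → A H) :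
    F (Q + Q') = F Q + F Q' := by
  obtain ⟨φ, h⟩ := lgS_hom hF
  rw [h, h, h, map_add]

theorem lgS_zero {k : ℕ} {F : (List Lt → A H) → A H} (hF : F ∈ lgS H k) : F 0 = 0 := by
  obtain ⟨φ, h⟩ := lgS_hom hF
  rw [h, map_zero]

theorem lgS_zsmul {k : ℕ} {F : (List Lt → A H) → A H} (hF : F ∈ lgS H k) (c : ℤ)
    (Q : List Lt → A H) : F (c • Q) = c • F Q := by
  obtain ⟨φ, h⟩ := lgS_hom hF
  rw [h, h, map_zsmul]

theorem lgS_nsmul {k : ℕ} {F : (List Lt → A H) → A H} (hF : F ∈ lgS H k) (c : ℕ)
    (Q : List Lt → A H) : F (c • Q) = c • F Q := by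
  obtain ⟨φ, h⟩ := lgS_hom hF
  rw [h, h, map_nsmul]

/-- The pairing of a legal suffix with a divisible prefix. -/
theorem lgS_dv {n k : ℕ} {F : (List Lt → A H) → A H} (hF : F ∈ lgS H k) {Q : List Lt → A H}
    (hQ : Q ∈ cgP H n k) : F Q ∈ Dv (B := A H) n := by
  refine lgS_ind (P := fun F => F Q ∈ Dv (B := A H) n) ?_ ?_ ?_ ?_ hF
  · exact fun u hu => hQ u hu
  · exact zero_mem _
  · exact fun F F' h h' => add_mem h h'
  · exact fun F h => neg_mem h

end

end Pool.Agent.SWL57
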