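import Mathlib
import Pool.Agent.SWL57.Eng

/-!
# The check of a closed linear combination

The closed words are written as `V m a b`, where `m` is the block, `a` the index of the basis state
of the first half and `b` the one of the second half. All coefficients are taken modulo
`3 ^ 7 = 2187`.
-/

set_option autoImplicit false

namespace Pool.Agent.SWL57

open Finset

/-! ### Packed rows modulo `2187` -/

/-- The mask with `n` digits. -/
def mask7 : ℕ → ℕ
  | 0 => 0
  | n + 1 => 18442240474082181120 + 18446744073709551616 * mask7 n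

theorem mask7_succ (n : ℕ) : mask7 (n + 1) = 18442240474082181120 + bs * mask7 n := by
  rw [mask7, bs_lit]

theorem mask7_lt : 18442240474082181120 < bs := by norm_num [bs_lit]

theorem lt_of_land7 {x : ℕ} (hx : x < bs) (h : x &&& 18442240474082181120 = 0) :
    x < 2 ^ 52 := by
  rw [bs_eq] at hx
  have h1 := Nat.shiftRight_and_distrib (a := x) (b := 18442240474082181120) (i := 52)
  rw [h] at h1
  simp only [Nat.shiftRight_eq_div_pow] at h1
  have h2 : (18442240474082181120 : ℕ) / 2 ^ 52 = 2 ^ 12 - 1 := by norm_num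
  rw [h2, Nat.and_two_pow_sub_one_eq_mod] at h1
  have h3 : x / 2 ^ 52 < 2 ^ 12 := by
    rw [Nat.div_lt_iff_lt_mul (by norm_num)]
    exact hx.trans_eq (by norm_num)
  rw [Nat.mod_eq_of_lt h3] at h1
  have h4 : x / 2 ^ 52 = 0 := by simpa using h1.symm
  rw [Nat.div_eq_zero_iff] at h4
  rcases h4 with h4 | h4
  · norm_num at h4
  · exact h4

theorem q7_bs : 2187 * 2 ^ 52 < bs := by norm_num [bs_lit]

theorem dig7 (n : ℕ) : ∀ (D : ℕ → ℕ) (N : ℕ), (∀ i, D i < bs) →
    N = ∑ i ∈ range n, D i * bs ^ i → N % 2187 = 0 → (N / 2187) &&& mask7 n = 0 →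
    ∀ i < n, 2187 ∣ D i := by
  induction n with
  | zero => intro D N _ _ _ _ i hi; exact absurd hi (Nat.not_lt_zero _)
  | succ n ih =>
    intro D N hD hN hq hm
    rw [sum_head] at hN
    obtain ⟨Q, hQ⟩ := Nat.dvd_of_mod_eq_zero hq
    have e2 : N / 2187 = Q := by rw [hQ, Nat.mul_div_cancel_left _ (by norm_num)]
    rw [e2, mask7_succ] at hm
    obtain ⟨m1, m2⟩ := land_split Q 18442240474082181120 (mask7 n) mask7_lt hm
    have h0 : Q % bs < 2 ^ 52 := lt_of_land7 (Nat.mod_lt _ bs_pos) m1
    have h1 : 2187 * (Q % bs) < bs :=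
      lt_of_le_of_lt (Nat.mul_le_mul_left _ h0.le) q7_bs
    have e3 : D 0 + bs * (∑ i ∈ range n, D (i + 1) * bs ^ i) =
        2187 * (Q % bs + bs * (Q / bs)) := by
      rw [← hN, hQ, Nat.mod_add_div]
    obtain ⟨e4, e5⟩ := split_key e3 (hD 0) h1
    intro i hi
    cases i with
    | zero => exact ⟨_, e4⟩
    | succ i =>
      refine ih (fun i => D (i + 1)) _ (fun i => hD _) rfl ?_ ?_ i (by omega)
      · rw [e5, Nat.mul_mod_right]
      · rw [e5, Nat.mul_div_cancel_left _ (by norm_num)]
        exact m2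

variable {U : Type} [AddCommGroup U]

theorem Rep.digits {Y : ℕ → U} {b N : ℕ} {x : U} (h : Rep Y b N x) {n : ℕ}
    (hN : N < bs ^ n) : ∃ D : ℕ → ℕ, (∀ i, D i ≤ b) ∧ (∀ i, n ≤ i → D i = 0) ∧
      N = ∑ i ∈ range n, D i * bs ^ i ∧ x = ∑ i ∈ range n, D i • Y i := by
  obtain ⟨m, D, d1, d2, d3, d4⟩ := h
  have d5 : ∀ i, n ≤ i → D i = 0 := by
    intro i hi
    by_contra hne
    have hm : i < m := by
      by_contra hmi
      exact hne (d2 i (by omega))
    have h3 : D i * bs ^ i ≤ N := by
      rw [d3]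
      exact single_le_sum (f := fun i => D i * bs ^ i) (fun _ _ => Nat.zero_le _)
        (mem_range.2 hm)
    have h4 : bs ^ n ≤ bs ^ i := Nat.pow_le_pow_right bs_pos hi
    have h5 : bs ^ i ≤ D i * bs ^ i := Nat.le_mul_of_pos_left _ (Nat.pos_of_ne_zero hne)
    exact absurd (lt_of_lt_of_le hN (h4.trans (h5.trans h3))) (lt_irrefl _)
  refine ⟨D, d1, d5, ?_, ?_⟩
  · rw [d3, ← sum_ext1 d2 n, Nat.add_comm m n, sum_ext1 d5 m]
  · rw [d4, ← sum_ext2 d2 n, Nat.add_comm m n, sum_ext2 d5 m]

/-- The check that all coefficients of a packed row with `n` digits are divisible by `2187`. -/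
def chk7 (N n : ℕ) : Bool :=
  Nat.beq (Nat.mod N 2187) 0 && (Nat.beq (Nat.land (Nat.div N 2187) (mask7 n)) 0 && sml N n)

theorem Rep.chk7 {Y : ℕ → U} {b N n : ℕ} {x : U} (h : Rep Y b N x) (hb : b < bs)
    (hc : chk7 N n = true) : ∃ z : U, x = 2187 • z := by
  unfold SWL57.chk7 at hc
  rw [Bool.and_eq_true, Bool.and_eq_true] at hc
  obtain ⟨h1, h2, h3⟩ := hc
  obtain ⟨D, d1, d2, d3, d4⟩ := h.digits (sml_lt h3)
  have key := dig7 n D N (fun i => (d1 i).trans_lt hb) d3 (Nat.eq_of_beq_eq_true h1)
    (Nat.eq_of_beq_eq_true h2)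
  refine ⟨∑ i ∈ range n, (D i / 2187) • Y i, ?_⟩
  rw [d4, smul_sum]
  refine sum_congr rfl fun i hi => ?_
  rw [← mul_smul, Nat.mul_div_cancel' (key i (mem_range.1 hi))]

/-- The packed form of a sparse row with all coefficients modulo `2187` and `w` bits for every
entry. -/
def pkw (w f : ℕ) : ℕ → ℕ :=
  Nat.rec (fun _ => 0) (fun _ ih s => cond (Nat.beq s 0) 0
    (Nat.mul (Nat.pow 2 (Nat.mul w (Nat.div (Nat.mod s 1099511627776) 16777216)))
      (Nat.add (Nat.mod (Nat.mod s 16777216) 2187) (Nat.mul (Nat.pow 2 w)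
        (ih (Nat.div s 1099511627776)))))) f

theorem pkw_zero (w s : ℕ) : pkw w 0 s = 0 := rfl

theorem pkw_succ (w f s : ℕ) : pkw w (f + 1) s = if s = 0 then 0 else
    2 ^ (w * gp s) * (s % 16777216 % 2187 + 2 ^ w * pkw w f (s / 1099511627776)) := by
  have e : pkw w (f + 1) s = cond (Nat.beq s 0) 0
    (Nat.mul (Nat.pow 2 (Nat.mul w (Nat.div (Nat.mod s 1099511627776) 16777216)))
      (Nat.add (Nat.mod (Nat.mod s 16777216) 2187) (Nat.mul (Nat.pow 2 w)
        (pkw w f (Nat.div s 1099511627776))))) := rfl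
  rw [e]
  by_cases h : s = 0
  · rw [if_pos h, h]
    rfl
  · rw [if_neg h, beq_false h, cond_false]
    rfl

theorem pow_stride (st g : ℕ) : 2 ^ (64 * st * g) = bs ^ (st * g) := by
  rw [bs_eq, ← pow_mul]
  congr 1
  ring

/-- The packed form has at most `st` digits. -/
def RepN (st : ℕ) (Y : ℕ → U) (b N : ℕ) (x : U) : Prop :=
  ∃ D : ℕ → ℕ, (∀ i, D i ≤ b) ∧ (∀ i, st ≤ i → D i = 0) ∧
    N = ∑ i ∈ range st, D i * bs ^ i ∧ x = ∑ i ∈ range st, D i • Y i

/-- Two packed rows one after the other. -/
theorem RepN.app {Y : ℕ → U} {b S N st : ℕ} {x y : U} (hS : RepN st Y b S x)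
    (h : Rep (fun i => Y (st + i)) b N y) : Rep Y b (S + bs ^ st * N) (x + y) := by
  obtain ⟨D, d1, d2, d3, d4⟩ := hS
  obtain ⟨n, D', e1, e2, e3, e4⟩ := h
  obtain ⟨G, hG⟩ : ∃ G : ℕ → ℕ, ∀ i, G i = if i < st then D i else D' (i - st) :=
    ⟨_, fun _ => rfl⟩
  have k1 : ∀ i < st, G i = D i := fun i hi => by rw [hG, if_pos hi]
  have k2 : ∀ i, G (st + i) = D' i := by
    intro i
    rw [hG, if_neg (by omega), Nat.add_sub_cancel_left]
  refine ⟨st + n, G, ?_, ?_, ?_, ?_⟩
  · intro i
    rw [hG]
    split_ifs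
    · exact d1 i
    · exact e1 _
  · intro i hi
    rw [hG, if_neg (by omega)]
    exact e2 _ (by omega)
  · rw [sum_range_add]
    congr 1
    · rw [d3]
      exact sum_congr rfl fun i hi => by rw [k1 i (mem_range.1 hi)]
    · rw [e3, mul_sum]
      refine sum_congr rfl fun i _ => ?_
      rw [k2, pow_add]
      ring
  · rw [sum_range_add]
    congr 1
    · rw [d4]
      exact sum_congr rfl fun i hi => by rw [k1 i (mem_range.1 hi)]
    · rw [e4]
      exact sum_congr rfl fun i _ => by rw [k2]

theorem mod_smul7 (h7 : ∀ x : U, 2187 • x = 0) (c : ℕ) (x : U) : (c % 2187) • x = c • x := by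
  conv_rhs => rw [← Nat.mod_add_div c 2187, add_smul, mul_smul, h7, add_zero]

/-- The product of a row of the first half and a packed row of the second half. -/
theorem rep_outer (h7 : ∀ x : U, 2187 • x = 0) {st : ℕ} (hst : 0 < st) (f : ℕ) :
    ∀ (s : ℕ) (Z : ℕ → ℕ → U) (bS S : ℕ) (x : ℕ → U), Rep (fun b a => Z a b) bS S x →
      S < bs ^ st → Rep (fun i => Z (i / st) (i % st)) (2186 * bS) (pkw (64 * st) f s * S)
        (ln f s x) := by
  induction f with
  | zero =>
    intro s Z bS S x _ _
    rw [pkw_zero, Nat.zero_mul]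
    exact (Rep.zero _).mono (Nat.zero_le _)
  | succ f ih =>
    intro s Z bS S x hS hs
    rw [pkw_succ, ln_succ]
    split_ifs with h0
    · rw [Nat.zero_mul]
      exact (Rep.zero _).mono (Nat.zero_le _)
    · have e1 : 2 ^ (64 * st * gp s) * (s % 16777216 % 2187 + 2 ^ (64 * st) *
          pkw (64 * st) f (s / 1099511627776)) * S = bs ^ (st * gp s) *
            (s % 16777216 % 2187 * S + bs ^ st *
              (pkw (64 * st) f (s / 1099511627776) * S)) := by
        rw [pow_stride]
        have : 2 ^ (64 * st) = bs ^ st := by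
          have := pow_stride st 1
          rwa [Nat.mul_one, Nat.mul_one] at this
        rw [this]
        ring
      rw [e1]
      have hsh : ∀ (g : ℕ), (Rep (fun b a => Z (g + a) b) bS S fun a => x (g + a)) := by
        intro g
        obtain ⟨n, D, d1, d2, d3, d4⟩ := hS
        refine ⟨n, D, d1, d2, d3, ?_⟩
        funext a
        rw [d4, Finset.sum_apply, Finset.sum_apply]
        rfl
      -- the first entry
      have h1 : ∀ c ≤ 2186, RepN st (fun i => Z (gp s + i / st) (i % st)) (2186 * bS) (c * S)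
          (c • x (gp s)) := by
        intro c hc
        obtain ⟨D, d1, d2, d3, d4⟩ := (hsh (gp s)).digits hs
        refine ⟨fun i => c * D i, ?_, ?_, ?_, ?_⟩
        · exact fun i => Nat.mul_le_mul hc (d1 i)
        · intro i hi
          show c * D i = 0
          rw [d2 i hi, Nat.mul_zero]
        · conv_lhs => rw [d3, mul_sum]
          exact sum_congr rfl fun i _ => (Nat.mul_assoc _ _ _).symm
        · have e2 : x (gp s) = ∑ i ∈ range st, D i • Z (gp s) i := by
            have e3 := congrFun d4 0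
            rw [Finset.sum_apply] at e3
            exact e3
          rw [e2, smul_sum]
          refine sum_congr rfl fun i hi => ?_
          have hi' := mem_range.1 hi
          show c • D i • Z (gp s) i = (c * D i) • Z (gp s + i / st) (i % st)
          rw [Nat.div_eq_of_lt hi', Nat.mod_eq_of_lt hi', Nat.add_zero, mul_smul]
      have h2 := ih (s / 1099511627776) (fun a b => Z (gp s + 1 + a) b) bS S
        (fun a => x (gp s + 1 + a)) (hsh (gp s + 1)) hs
      have h3 : Rep (fun i => (fun i => Z (gp s + i / st) (i % st)) (st + i)) (2186 * bS)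
          (pkw (64 * st) f (s / 1099511627776) * S)
            (ln f (s / 1099511627776) fun a => x (gp s + 1 + a)) := by
        have e4 : (fun i => (fun i => Z (gp s + i / st) (i % st)) (st + i)) =
            fun i => Z (gp s + 1 + i / st) (i % st) := by
          funext i
          show Z (gp s + (st + i) / st) ((st + i) % st) = _
          rw [Nat.add_div_left _ hst, Nat.add_mod_left]
          congr 1
          show gp s + (i / st + 1) = gp s + 1 + i / st
          omega
        rw [e4]
        exact h2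
      have h4 : Rep (fun i => Z (gp s + i / st) (i % st)) (2186 * bS)
          (s % 16777216 % 2187 * S + bs ^ st * (pkw (64 * st) f (s / 1099511627776) * S))
          ((s % 16777216) • x (gp s) + ln f (s / 1099511627776) fun a => x (gp s + 1 + a)) := by
        rw [← mod_smul7 h7 (s % 16777216)]
        exact (h1 _ (Nat.le_of_lt_succ (Nat.mod_lt _ (by norm_num)))).app h3
      have h5 := Rep.shift (Y := fun i => Z (i / st) (i % st)) (st * gp s) (b := 2186 * bS)
        (N := s % 16777216 % 2187 * S + bs ^ st * (pkw (64 * st) f (s / 1099511627776) * S))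
        (x := (s % 16777216) • x (gp s) + ln f (s / 1099511627776) fun a => x (gp s + 1 + a)) ?_
      · exact h5
      · have e6 : (fun i => (fun i => Z (i / st) (i % st)) (st * gp s + i)) =
            fun i => Z (gp s + i / st) (i % st) := by
          funext i
          show Z ((st * gp s + i) / st) ((st * gp s + i) % st) = _
          rw [Nat.mul_add_div hst, Nat.mul_add_mod]
        rw [e6]
        exact h4

/-! ### The sum over the second half -/

/-- The leaf of a table, the identity if there is no table. -/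
noncomputable def gl (T : Option Tr) (i : ℕ) : ℕ :=
  Option.rec (cond (Nat.ble 65536 i) 0 (Nat.add (Nat.mul 16777216 i) 2)) (fun T => gt T i) T

/-- The value of a packed list of entries `coefficient + 2 ^ 24 * index` with 48 bits. -/
def svl (f : ℕ) : ℕ → (ℕ → U) → U :=
  Nat.rec (fun _ _ => 0) (fun _ ih L φ => cond (Nat.beq L 0) 0
    ((L % 16777216) • φ (L % 281474976710656 / 16777216) + ih (L / 281474976710656) φ)) f

theorem svl_zero (L : ℕ) (φ : ℕ → U) : svl 0 L φ = 0 := rfl

theorem svl_succ (f L : ℕ) (φ : ℕ → U) : svl (f + 1) L φ = if L = 0 then 0 else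
    (L % 16777216) • φ (L % 281474976710656 / 16777216) + svl f (L / 281474976710656) φ := by
  have e : svl (f + 1) L φ = cond (Nat.beq L 0) 0
    ((L % 16777216) • φ (L % 281474976710656 / 16777216) + svl f (L / 281474976710656) φ) := rfl
  rw [e]
  by_cases h : L = 0
  · rw [if_pos h, h]
    rfl
  · rw [if_neg h, beq_false h, cond_false]

/-- The packed sum of the rows of the second half. -/
noncomputable def sL (T : Option Tr) (f : ℕ) : ℕ → ℕ :=
  Nat.rec (fun _ => 0) (fun _ ih L => cond (Nat.beq L 0) 0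
    (Nat.add (Nat.mul (Nat.mod (Nat.mod L 16777216) 2187)
      (Nat.rec (pkw 64 4096 (Nat.pred (gl T 0))) (fun j _ => pkw 64 4096 (Nat.pred (gl T (j + 1))))
        (Nat.div (Nat.mod L 281474976710656) 16777216)))
      (ih (Nat.div L 281474976710656)))) f

theorem sL_zero (T : Option Tr) (L : ℕ) : sL T 0 L = 0 := rfl

theorem sL_succ (T : Option Tr) (f L : ℕ) : sL T (f + 1) L = if L = 0 then 0 else
    L % 16777216 % 2187 * pkw 64 4096 (gl T (L % 281474976710656 / 16777216) - 1) +
      sL T f (L / 281474976710656) := by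
  have e : sL T (f + 1) L = cond (Nat.beq L 0) 0
    (Nat.add (Nat.mul (Nat.mod (Nat.mod L 16777216) 2187)
      (Nat.rec (pkw 64 4096 (Nat.pred (gl T 0))) (fun j _ => pkw 64 4096 (Nat.pred (gl T (j + 1))))
        (Nat.div (Nat.mod L 281474976710656) 16777216)))
      (sL T f (Nat.div L 281474976710656))) := rfl
  have e2 : ∀ j : ℕ, (Nat.rec (pkw 64 4096 (Nat.pred (gl T 0)))
      (fun j _ => pkw 64 4096 (Nat.pred (gl T (j + 1)))) j : ℕ) = pkw 64 4096 (gl T j - 1) := by
    intro j
    cases j <;> rfl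
  rw [e, e2]
  by_cases h : L = 0
  · rw [if_pos h, h]
    rfl
  · rw [if_neg h, beq_false h, cond_false]
    rfl

/-- The number of the entries, at least. -/
def fl (L : ℕ) : ℕ := Nat.succ (Nat.div (Nat.log2 L) 48)

theorem rep_pkw (h7 : ∀ x : U, 2187 • x = 0) (s : ℕ) (Y : ℕ → U) :
    Rep Y 2186 (pkw 64 4096 s) (ln 4096 s Y) := by
  have h1 : Rep (fun b (a : ℕ) => (fun a b => Y a) a b) 1 1 (fun a : ℕ => Y a) := by
    refine ⟨1, fun i => if i = 0 then 1 else 0, ?_, ?_, ?_, ?_⟩
    · intro i
      show (if i = 0 then 1 else 0) ≤ 1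
      split_ifs <;> omega
    · intro i hi
      show (if i = 0 then 1 else 0) = 0
      rw [if_neg (by omega)]
    · rw [sum_range_one]
      show 1 = 1 * bs ^ 0
      rw [pow_zero, Nat.mul_one]
    · rw [sum_range_one]
      show (fun a => Y a) = 1 • fun a => Y a
      rw [one_smul]
  have h2 := rep_outer h7 (st := 1) Nat.one_pos 4096 s (fun a _ => Y a) 1 1 (fun a => Y a) h1
    (by rw [pow_one]; exact one_lt_bs)
  rw [Nat.mul_one, Nat.mul_one, Nat.mul_one] at h2
  have e : (fun i => (fun a _ => Y a) (i / 1) (i % 1)) = Y := by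
    funext i
    show Y (i / 1) = Y i
    rw [Nat.div_one]
  rw [e] at h2
  exact h2

theorem rep_sL (h7 : ∀ x : U, 2187 • x = 0) (T : Option Tr) (Y : ℕ → U) (f : ℕ) : ∀ L : ℕ,
    Rep Y (f * (2186 * 2186)) (sL T f L) (svl f L fun j => ln 4096 (gl T j - 1) Y) := by
  induction f with
  | zero =>
    intro L
    exact (Rep.zero _).mono (Nat.zero_le _)
  | succ f ih =>
    intro L
    rw [sL_succ, svl_succ]
    split_ifs with h
    · exact (Rep.zero _).mono (Nat.zero_le _)
    · rw [Nat.add_mul, Nat.one_mul, Nat.add_comm (f * _)]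
      refine Rep.add ?_ (ih _)
      rw [← mod_smul7 h7 (L % 16777216)]
      refine ((rep_pkw h7 _ Y).smul _).mono ?_
      exact Nat.mul_le_mul_right _ (Nat.le_of_lt_succ (Nat.mod_lt _ (by norm_num)))

/-! ### The sum over the terms, the items and the batches -/

/-- A term of a batch: the coefficient, the block, the tables of the first and of the second
half. -/
structure Ct : Type where
  c : ℕ
  m : ℕ
  T1 : Option Tr
  T2 : Option Tr

/-- A batch: the terms and the items. An item is an index of the first half and a packed list of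
indices of the second half. -/
structure Cb : Type where
  ts : List Ct
  its : List (ℕ × ℕ)

/-- The packed value of a term. -/
noncomputable def tv (m st i L : ℕ) (t : Ct) : ℕ :=
  Ct.rec (fun c m' T1 T2 => cond (Nat.beq m' m)
    (Nat.mul (pkw (Nat.mul 64 st) 4096 (Nat.pred (gl T1 i)))
      (Nat.mul (Nat.mod c 2187) (sL T2 (fl L) L))) 0) t

/-- The bound of a term. -/
noncomputable def tb (m L : ℕ) (t : Ct) : ℕ :=
  Ct.rec (fun _ m' _ _ => cond (Nat.beq m' m) (fl L) 0) t

/-- All rows of the second half are present. -/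
noncomputable def pr2 (T : Option Tr) (f : ℕ) : ℕ → Bool :=
  Nat.rec (fun _ => true) (fun _ ih L => cond (Nat.beq L 0) true
    (cond (Nat.rec (Nat.beq (gl T 0) 0) (fun j _ => Nat.beq (gl T (j + 1)) 0)
        (Nat.div (Nat.mod L 281474976710656) 16777216))
      false (ih (Nat.div L 281474976710656)))) f

/-- The check of a term. -/
noncomputable def tc (m st i L : ℕ) (t : Ct) : Bool :=
  Ct.rec (fun _ m' T1 T2 => cond (Nat.beq m' m)
    (cond (Nat.beq (gl T1 i) 0) false (cond (pr2 T2 (fl L) L) (sml (sL T2 (fl L) L) st) false))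
      true) t

/-- The sum over a list of terms. -/
noncomputable def tsum (F : Ct → ℕ) (l : List Ct) : ℕ :=
  List.rec 0 (fun t _ ih => Nat.add (F t) ih) l

/-- The conjunction over a list of terms. -/
noncomputable def tall (F : Ct → Bool) (l : List Ct) : Bool :=
  List.rec true (fun t _ ih => cond (F t) ih false) l

/-- The sum over the items. -/
noncomputable def isum (F : ℕ → ℕ → ℕ) (l : List (ℕ × ℕ)) : ℕ :=
  List.rec 0 (fun p _ ih => Nat.add (Prod.rec (fun i L => F i L) p) ih) l

/-- The conjunction over the items. -/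
noncomputable def iall (F : ℕ → ℕ → Bool) (l : List (ℕ × ℕ)) : Bool :=
  List.rec true (fun p _ ih => cond (Prod.rec (fun i L => F i L) p) ih false) l

/-- The sum over the batches. -/
noncomputable def bsum (F : ℕ → ℕ → Ct → ℕ) (l : List Cb) : ℕ :=
  List.rec 0 (fun b _ ih => Nat.add
    (Cb.rec (fun ts its => isum (fun i L => tsum (F i L) ts) its) b) ih) l

/-- The conjunction over the batches. -/
noncomputable def ball (F : ℕ → ℕ → Ct → Bool) (l : List Cb) : Bool :=
  List.rec true (fun b _ ih => cond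
    (Cb.rec (fun ts its => iall (fun i L => tall (F i L) ts) its) b) ih false) l

/-- The check of the block `m`. -/
noncomputable def cbk (m st n : ℕ) (l : List Cb) : Bool :=
  cond (ball (tc m st) l) (cond (Nat.blt (bsum (fun _ => tb m) l) 800000)
    (frc (bsum (tv m st) l) fun N => chk7 N n) false) false

theorem pr2_succ (T : Option Tr) (f L : ℕ) : pr2 T (f + 1) L = if L = 0 then true else
    (if gl T (L % 281474976710656 / 16777216) = 0 then false else
      pr2 T f (L / 281474976710656)) := by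
  have e : pr2 T (f + 1) L = cond (Nat.beq L 0) true
    (cond (Nat.rec (Nat.beq (gl T 0) 0) (fun j _ => Nat.beq (gl T (j + 1)) 0)
        (Nat.div (Nat.mod L 281474976710656) 16777216))
      false (pr2 T f (Nat.div L 281474976710656))) := rfl
  have e2 : ∀ j : ℕ, (Nat.rec (Nat.beq (gl T 0) 0) (fun j _ => Nat.beq (gl T (j + 1)) 0) j :
      Bool) = Nat.beq (gl T j) 0 := by
    intro j
    cases j <;> rfl
  rw [e, e2]
  by_cases h : L = 0
  · rw [if_pos h, h]
    rfl
  · rw [if_neg h, beq_false h, cond_false]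
    by_cases h' : gl T (L % 281474976710656 / 16777216) = 0
    · rw [if_pos h']
      have : Nat.beq (gl T (Nat.div (Nat.mod L 281474976710656) 16777216)) 0 = true := by
        rw [show gl T (Nat.div (Nat.mod L 281474976710656) 16777216) = 0 from h']
        rfl
      rw [this]
      rfl
    · rw [if_neg h']
      have : Nat.beq (gl T (Nat.div (Nat.mod L 281474976710656) 16777216)) 0 = false :=
        beq_false h'
      rw [this]
      rfl

/-! ### Soundness -/

theorem ln_add (f : ℕ) : ∀ (s : ℕ) (Y Y' : ℕ → U),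
    ln f s (Y + Y') = ln f s Y + ln f s Y' := by
  induction f with
  | zero => intro s Y Y'; exact (add_zero _).symm
  | succ f ih =>
    intro s Y Y'
    rw [ln_succ, ln_succ, ln_succ]
    split_ifs
    · exact (add_zero _).symm
    · have e : (fun i => (Y + Y') (gp s + 1 + i)) =
          (fun i => Y (gp s + 1 + i)) + fun i => Y' (gp s + 1 + i) := rfl
      rw [e, ih, Pi.add_apply, smul_add]
      abel

/-- The linear combination of a row as a homomorphism. -/
def lnH (f s : ℕ) : (ℕ → U) →+ U := AddMonoidHom.mk' (ln f s) fun Y Y' => ln_add f s Y Y'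

theorem svl_map {V : Type} [AddCommGroup V] (φ : U →+ V) (f : ℕ) : ∀ (L : ℕ) (ψ : ℕ → U),
    φ (svl f L ψ) = svl f L fun j => φ (ψ j) := by
  induction f with
  | zero => intro L ψ; exact map_zero φ
  | succ f ih =>
    intro L ψ
    rw [svl_succ, svl_succ]
    split_ifs
    · exact map_zero φ
    · rw [map_add, map_nsmul, ih]

theorem svl_congr {T : Option Tr} (f : ℕ) : ∀ (L : ℕ) (φ ψ : ℕ → U), pr2 T f L = true →
    (∀ j, gl T j ≠ 0 → φ j = ψ j) → svl f L φ = svl f L ψ := by
  induction f with
  | zero => intro L φ ψ _ _; rfl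
  | succ f ih =>
    intro L φ ψ h h'
    rw [pr2_succ] at h
    rw [svl_succ, svl_succ]
    split_ifs with h0
    · rfl
    · rw [if_neg h0] at h
      split_ifs at h with h1
      rw [h' _ h1, ih _ φ ψ h h']

variable {G : Type} [AddCommGroup G]

/-- The values of a term are given by the tables. -/
def Okt (V : ℕ → ℕ → ℕ → G) (x : Ct × (ℕ → ℕ → G)) : Prop :=
  ∀ i j, gl x.1.T1 i ≠ 0 → gl x.1.T2 j ≠ 0 →
    x.2 i j = ln 4096 (gl x.1.T1 i - 1) fun a => ln 4096 (gl x.1.T2 j - 1) fun b => V x.1.m a b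

theorem beq_ne {a b : ℕ} (h : a ≠ b) : Nat.beq a b = false := by
  cases h' : Nat.beq a b with
  | false => rfl
  | true => exact absurd (Nat.eq_of_beq_eq_true h') h

theorem beq_self (a : ℕ) : Nat.beq a a = true := by
  induction a with
  | zero => rfl
  | succ a ih => exact ih

theorem tv_eq (m st i L : ℕ) (t : Ct) : tv m st i L t = if t.m = m then
    pkw (64 * st) 4096 (gl t.T1 i - 1) * (t.c % 2187 * sL t.T2 (fl L) L) else 0 := by
  obtain ⟨c, m', T1, T2⟩ := t
  have e : tv m st i L ⟨c, m', T1, T2⟩ = cond (Nat.beq m' m)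
    (pkw (64 * st) 4096 (gl T1 i - 1) * (c % 2187 * sL T2 (fl L) L)) 0 := rfl
  rw [e]
  by_cases h : m' = m
  · subst h
    rw [beq_self, if_pos rfl]
    rfl
  · rw [beq_ne h, if_neg h]
    rfl

theorem tb_eq (m L : ℕ) (t : Ct) : tb m L t = if t.m = m then fl L else 0 := by
  obtain ⟨c, m', T1, T2⟩ := t
  have e : tb m L ⟨c, m', T1, T2⟩ = cond (Nat.beq m' m) (fl L) 0 := rfl
  rw [e]
  by_cases h : m' = m
  · subst h
    rw [beq_self, if_pos rfl]
    rfl
  · rw [beq_ne h, if_neg h]
    rfl

theorem tc_eq {m st i L : ℕ} {t : Ct} (h : tc m st i L t = true) (hm : t.m = m) :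
    gl t.T1 i ≠ 0 ∧ pr2 t.T2 (fl L) L = true ∧ sL t.T2 (fl L) L < bs ^ st := by
  obtain ⟨c, m', T1, T2⟩ := t
  have e : tc m st i L ⟨c, m', T1, T2⟩ = cond (Nat.beq m' m)
    (cond (Nat.beq (gl T1 i) 0) false (cond (pr2 T2 (fl L) L) (sml (sL T2 (fl L) L) st) false))
      true := rfl
  rw [e] at h
  simp only at hm
  subst hm
  rw [beq_self, cond_true] at h
  refine ⟨?_, ?_, ?_⟩
  · intro h0
    simp only at h0
    rw [h0] at h
    exact absurd (show false = true from h) (by decide)
  · show pr2 T2 (fl L) L = true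
    cases h1 : Nat.beq (gl T1 i) 0 with
    | true => rw [h1] at h; exact absurd (show false = true from h) (by decide)
    | false =>
      rw [h1, cond_false] at h
      cases h2 : pr2 T2 (fl L) L with
      | true => rfl
      | false => rw [h2] at h; exact absurd (show false = true from h) (by decide)
  · show sL T2 (fl L) L < bs ^ st
    cases h1 : Nat.beq (gl T1 i) 0 with
    | true => rw [h1] at h; exact absurd (show false = true from h) (by decide)
    | false =>
      rw [h1, cond_false] at h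
      cases h2 : pr2 T2 (fl L) L with
      | true => rw [h2, cond_true] at h; exact sml_lt h
      | false => rw [h2] at h; exact absurd (show false = true from h) (by decide)

/-- The value of a term. -/
theorem rep_term (h7 : ∀ x : G, 2187 • x = 0) {V : ℕ → ℕ → ℕ → G} {m st : ℕ} (hst : 0 < st)
    {i L : ℕ} {x : Ct × (ℕ → ℕ → G)} (hx : Okt V x) (hc : tc m st i L x.1 = true) :
    Rep (fun k => V m (k / st) (k % st)) (2186 * 2186 * 2186 * 2186 * tb m L x.1)
      (tv m st i L x.1) (if x.1.m = m then x.1.c • svl (fl L) L (x.2 i) else 0) := by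
  rw [tv_eq, tb_eq]
  split_ifs with hm
  · obtain ⟨h1, h2, h3⟩ := tc_eq hc hm
    have k1 := rep_sL (U := ℕ → G) (fun y => by funext a; exact h7 (y a)) x.1.T2
      (fun b a => V m a b) (fl L) L
    have k2 := rep_outer h7 hst 4096 (gl x.1.T1 i - 1) (V m) _ _ _ k1 h3
    have k3 : ln 4096 (gl x.1.T1 i - 1) (svl (fl L) L fun j => ln 4096 (gl x.1.T2 j - 1)
        fun b a => V m a b) = svl (fl L) L (x.2 i) := by
      have k4 := svl_map (lnH (U := G) 4096 (gl x.1.T1 i - 1)) (fl L) L
        fun j => ln 4096 (gl x.1.T2 j - 1) fun b a => V m a b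
      refine Eq.trans k4 (svl_congr (fl L) L _ _ h2 fun j hj => ?_)
      rw [hx i j h1 hj]
      show ln 4096 (gl x.1.T1 i - 1) (ln 4096 (gl x.1.T2 j - 1) fun b a => V m a b) = _
      congr 1
      funext a
      have k5 := ln_map (Pi.evalAddMonoidHom (fun _ : ℕ => G) a) 4096 (gl x.1.T2 j - 1)
        fun b a => V m a b
      rw [hm]
      exact k5
    rw [k3] at k2
    have k6 := k2.smul (x.1.c % 2187)
    rw [mod_smul7 h7] at k6
    have e1 : x.1.c % 2187 * (pkw (64 * st) 4096 (gl x.1.T1 i - 1) * sL x.1.T2 (fl L) L) =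
        pkw (64 * st) 4096 (gl x.1.T1 i - 1) * (x.1.c % 2187 * sL x.1.T2 (fl L) L) := by ring
    rw [e1] at k6
    refine k6.mono ?_
    have h4 : x.1.c % 2187 ≤ 2186 := Nat.le_of_lt_succ (Nat.mod_lt _ (by norm_num))
    calc x.1.c % 2187 * (2186 * (fl L * (2186 * 2186)))
        ≤ 2186 * (2186 * (fl L * (2186 * 2186))) := Nat.mul_le_mul_right _ h4
      _ = 2186 * 2186 * 2186 * 2186 * fl L := by ring
  · exact (Rep.zero _).mono (Nat.zero_le _)

theorem cond_and {a b : Bool} (h : cond a b false = true) : a = true ∧ b = true := by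
  cases a
  · exact absurd (show false = true from h) (by decide)
  · exact ⟨rfl, h⟩

/-- The value of a list of terms. -/
theorem rep_tsum (h7 : ∀ x : G, 2187 • x = 0) {V : ℕ → ℕ → ℕ → G} {m st : ℕ} (hst : 0 < st)
    {i L : ℕ} : ∀ xs : List (Ct × (ℕ → ℕ → G)), (∀ x ∈ xs, Okt V x) →
    tall (tc m st i L) (xs.map Prod.fst) = true →
    Rep (fun k => V m (k / st) (k % st))
      (2186 * 2186 * 2186 * 2186 * tsum (tb m L) (xs.map Prod.fst))
      (tsum (tv m st i L) (xs.map Prod.fst))
      (xs.map fun x => if x.1.m = m then x.1.c • svl (fl L) L (x.2 i) else 0).sum := by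
  intro xs
  induction xs with
  | nil => intro _ _; exact Rep.zero _
  | cons x xs ih =>
    intro hx hc
    obtain ⟨h1, h2⟩ := cond_and (a := tc m st i L x.1) hc
    have k1 := rep_term h7 hst (hx x (List.mem_cons_self ..)) h1
    have k2 := ih (fun y hy => hx y (List.mem_cons_of_mem _ hy)) h2
    have k3 := k1.add k2
    rw [← Nat.mul_add] at k3
    exact k3

/-- A batch with the values of the terms. -/
structure Sb (G : Type) : Type where
  xs : List (Ct × (ℕ → ℕ → G))
  its : List (ℕ × ℕ)

/-- The data of a batch. -/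
def Sb.cb (B : Sb G) : Cb := ⟨B.xs.map Prod.fst, B.its⟩

/-- The part of a batch in the block `m`. -/
def Sb.vm (B : Sb G) (m : ℕ) : G := (B.its.map fun p => (B.xs.map fun x =>
  if x.1.m = m then x.1.c • svl (fl p.2) p.2 (x.2 p.1) else 0).sum).sum

/-- The value of a batch. -/
def Sb.vt (B : Sb G) : G := (B.its.map fun p => svl (fl p.2) p.2 fun j =>
  (B.xs.map fun x => x.1.c • x.2 p.1 j).sum).sum

theorem rep_isum (h7 : ∀ x : G, 2187 • x = 0) {V : ℕ → ℕ → ℕ → G} {m st : ℕ} (hst : 0 < st)
    (xs : List (Ct × (ℕ → ℕ → G))) (hx : ∀ x ∈ xs, Okt V x) : ∀ its : List (ℕ × ℕ),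
    iall (fun i L => tall (tc m st i L) (xs.map Prod.fst)) its = true →
    Rep (fun k => V m (k / st) (k % st))
      (2186 * 2186 * 2186 * 2186 * isum (fun _ L => tsum (tb m L) (xs.map Prod.fst)) its)
      (isum (fun i L => tsum (tv m st i L) (xs.map Prod.fst)) its)
      (its.map fun p => (xs.map fun x =>
        if x.1.m = m then x.1.c • svl (fl p.2) p.2 (x.2 p.1) else 0).sum).sum := by
  intro its
  induction its with
  | nil => intro _; exact Rep.zero _
  | cons p its ih =>
    intro hc
    obtain ⟨i, L⟩ := p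
    obtain ⟨h1, h2⟩ := cond_and (a := tall (tc m st i L) (xs.map Prod.fst)) hc
    have k3 := (rep_tsum h7 hst (i := i) xs hx h1).add (ih h2)
    rw [← Nat.mul_add] at k3
    rw [List.map_cons, List.sum_cons]
    exact k3

theorem rep_bsum (h7 : ∀ x : G, 2187 • x = 0) {V : ℕ → ℕ → ℕ → G} {m st : ℕ} (hst : 0 < st) :
    ∀ Bs : List (Sb G), (∀ B ∈ Bs, ∀ x ∈ B.xs, Okt V x) →
    ball (tc m st) (Bs.map Sb.cb) = true →
    Rep (fun k => V m (k / st) (k % st))
      (2186 * 2186 * 2186 * 2186 * bsum (fun _ => tb m) (Bs.map Sb.cb))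
      (bsum (tv m st) (Bs.map Sb.cb)) (Bs.map fun B => B.vm m).sum := by
  intro Bs
  induction Bs with
  | nil => intro _ _; exact Rep.zero _
  | cons B Bs ih =>
    intro hx hc
    obtain ⟨h1, h2⟩ := cond_and
      (a := iall (fun i L => tall (tc m st i L) (B.xs.map Prod.fst)) B.its) hc
    have k3 := (rep_isum h7 hst B.xs (hx B (List.mem_cons_self ..)) B.its h1).add
      (ih (fun C hC => hx C (List.mem_cons_of_mem _ hC)) h2)
    rw [← Nat.mul_add] at k3
    exact k3

/-- **The check of a block.** -/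
theorem cbk_sound (h7 : ∀ x : G, 2187 • x = 0) {V : ℕ → ℕ → ℕ → G} {m st n : ℕ}
    (hst : 0 < st) (Bs : List (Sb G)) (hx : ∀ B ∈ Bs, ∀ x ∈ B.xs, Okt V x)
    (hc : cbk m st n (Bs.map Sb.cb) = true) : (Bs.map fun B => B.vm m).sum = 0 := by
  unfold cbk at hc
  obtain ⟨h1, h2⟩ := cond_and hc
  obtain ⟨h3, h4⟩ := cond_and h2
  rw [frc_eq] at h4
  have k1 := rep_bsum h7 hst Bs hx h1
  have h5 : bsum (fun _ => tb m) (Bs.map Sb.cb) < 800000 := by
    have := Nat.blt_eq ▸ h3
    simpa using this
  obtain ⟨z, hz⟩ := k1.chk7 (by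
    rw [bs_lit]
    have := Nat.mul_le_mul_left (2186 * 2186 * 2186 * 2186) h5.le
    omega) h4
  rw [hz, h7]

theorem svl_zero_fun (f : ℕ) : ∀ L : ℕ, svl f L (fun _ => (0 : G)) = 0 := by
  induction f with
  | zero => intro L; rfl
  | succ f ih =>
    intro L
    rw [svl_succ]
    split_ifs
    · rfl
    · rw [smul_zero, ih, add_zero]

theorem svl_add (f : ℕ) : ∀ (L : ℕ) (φ ψ : ℕ → G),
    svl f L (fun j => φ j + ψ j) = svl f L φ + svl f L ψ := by
  induction f with
  | zero => intro L φ ψ; exact (add_zero _).symm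
  | succ f ih =>
    intro L φ ψ
    rw [svl_succ, svl_succ, svl_succ]
    split_ifs
    · exact (add_zero _).symm
    · rw [ih, smul_add]
      abel

theorem svl_smul (c f : ℕ) : ∀ (L : ℕ) (φ : ℕ → G),
    svl f L (fun j => c • φ j) = c • svl f L φ := by
  induction f with
  | zero => intro L φ; exact (smul_zero _).symm
  | succ f ih =>
    intro L φ
    rw [svl_succ, svl_succ]
    split_ifs
    · exact (smul_zero _).symm
    · rw [ih, smul_add, ← mul_smul, ← mul_smul, Nat.mul_comm]

theorem svl_sum (f L : ℕ) (xs : List (Ct × (ℕ → ℕ → G))) (i : ℕ) :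
    svl f L (fun j => (xs.map fun x => x.1.c • x.2 i j).sum) =
      (xs.map fun x => x.1.c • svl f L (x.2 i)).sum := by
  induction xs with
  | nil => exact svl_zero_fun f L
  | cons x xs ih =>
    simp only [List.map_cons, List.sum_cons]
    rw [svl_add, ih, svl_smul]

theorem sum_blocks (M : ℕ) : ∀ xs : List (Ct × G), (∀ x ∈ xs, x.1.m < M) →
    (xs.map fun x => x.2).sum =
      ∑ m ∈ range M, (xs.map fun x => if x.1.m = m then x.2 else 0).sum := by
  intro xs
  induction xs with
  | nil => intro _; simp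
  | cons x xs ih =>
    intro h
    rw [List.map_cons, List.sum_cons, ih fun y hy => h y (List.mem_cons_of_mem _ hy)]
    simp only [List.map_cons, List.sum_cons]
    rw [sum_add_distrib]
    congr 1
    rw [sum_ite_eq, if_pos (mem_range.2 (h x (List.mem_cons_self ..)))]

theorem Sb.vt_eq {B : Sb G} {M : ℕ} (h : ∀ x ∈ B.xs, x.1.m < M) :
    B.vt = ∑ m ∈ range M, B.vm m := by
  unfold Sb.vt Sb.vm
  generalize B.its = its
  induction its with
  | nil => simp
  | cons p its ih =>
    simp only [List.map_cons, List.sum_cons]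
    rw [sum_add_distrib, ih]
    congr 1
    rw [svl_sum]
    have h1 := sum_blocks M (B.xs.map fun x => (x.1, x.1.c • svl (fl p.2) p.2 (x.2 p.1)))
      (by
        intro y hy
        obtain ⟨x, hx, rfl⟩ := List.mem_map.1 hy
        exact h x hx)
    simp only [List.map_map, Function.comp_def] at h1
    exact h1

/-- **Soundness of the closed check.** -/
theorem clo_sound (h7 : ∀ x : G, 2187 • x = 0) {V : ℕ → ℕ → ℕ → G} {M : ℕ}
    (Bs : List (Sb G)) (hx : ∀ B ∈ Bs, ∀ x ∈ B.xs, Okt V x ∧ x.1.m < M)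
    (hc : ∀ m < M, ∃ st n, 0 < st ∧ cbk m st n (Bs.map Sb.cb) = true) :
    (Bs.map Sb.vt).sum = 0 := by
  have h1 : (Bs.map Sb.vt).sum = ∑ m ∈ range M, (Bs.map fun B => B.vm m).sum := by
    clear hc
    induction Bs with
    | nil => simp
    | cons B Bs ih =>
      simp only [List.map_cons, List.sum_cons]
      rw [sum_add_distrib, ih fun C hC => hx C (List.mem_cons_of_mem _ hC),
        Sb.vt_eq fun x h => (hx B (List.mem_cons_self ..) x h).2]
  rw [h1]
  refine sum_eq_zero fun m hm => ?_
  obtain ⟨st, n, h2, h3⟩ := hc m (mem_range.1 hm)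
  exact cbk_sound h7 h2 Bs (fun B hB x h => (hx B hB x h).1) h3

end Pool.Agent.SWL57
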