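import Mathlib
import Pool.Agent.SWL57.In
import Pool.Agent.SWW54.Cl

/-!
# Closed ladders with symmetric legs and bubbles are symmetric up to torsion
-/

set_option autoImplicit false

namespace Pool.Agent.SWL57

open Pool.Agent.Jac70 Pool.Agent.SWW54

/-! ### Formal sums -/

theorem sm_xs_append {V : Type} [AddCommGroup V] (F : List Lt → V) (k : ℕ) (v w : List ℕ) :
    sm F (xs k (v ++ w)) = sm (fun a => sm (fun b => F (a ++ b)) (xs (kw k v) w)) (xs k v) := by
  induction v generalizing k F with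
  | nil =>
    show sm F (xs k w) = sm (fun a => sm (fun b => F (a ++ b)) (xs k w)) [(1, [])]
    rw [sm_cons, sm_nil, add_zero, one_smul]
    rfl
  | cons g v ih =>
    show sm F (ml (xw k g) (xs (ko k g) (v ++ w))) =
      sm (fun a => sm (fun b => F (a ++ b)) (xs (kw (ko k g) v) w)) (ml (xw k g) (xs (ko k g) v))
    rw [sm_ml, sm_ml]
    refine sm_congr fun t _ => ?_
    rw [ih]
    refine sm_congr fun t' _ => sm_congr fun t'' _ => ?_
    rw [List.append_assoc]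

/-- The operators of a ladder. -/
def Lo (l : List ℕ) : Prop := ∀ g ∈ l, g = 0 ∨ g = 101 ∨ g = 500

/-- The letters of a ladder. -/
def Ll (v : List Lt) : Prop := ∀ l ∈ v, l = Lt.a 0 ∨ l = Lt.b 0 1 ∨ l = Lt.o 0

theorem xw_0 : xw 2 0 = [(1, [Lt.o 0])] := by decide +kernel

theorem xw_101 : xw 2 101 = [(1, [Lt.b 0 1])] := by decide +kernel

theorem xw_500 : xw 2 500 = [(2, [Lt.a 0]), (-1, [Lt.o 0]), (1, [Lt.b 0 1])] := by decide +kernel

theorem xw_201 : xw 1 201 = [(1, [Lt.Y 0 1])] := by decide +kernel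

theorem xw_300 : xw 2 300 = [(1, [Lt.M 0 1])] := by decide +kernel

theorem ko_lo {g : ℕ} (h : g = 0 ∨ g = 101 ∨ g = 500) : ko 2 g = 2 := by
  rcases h with rfl | rfl | rfl <;> rfl

theorem kw_lo {l : List ℕ} (h : Lo l) : kw 2 l = 2 := by
  induction l with
  | nil => rfl
  | cons g l ih =>
    show kw (ko 2 g) l = 2
    rw [ko_lo (h g (List.mem_cons_self ..))]
    exact ih fun x hx => h x (List.mem_cons_of_mem _ hx)

theorem xw_lo {g : ℕ} (h : g = 0 ∨ g = 101 ∨ g = 500) {t : ℤ × List Lt} (ht : t ∈ xw 2 g) :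
    Ll t.2 ∧ t.2.reverse = t.2 := by
  rcases h with rfl | rfl | rfl
  · rw [xw_0] at ht
    obtain rfl := List.mem_singleton.1 ht
    refine ⟨fun l hl => ?_, rfl⟩
    obtain rfl := List.mem_singleton.1 hl
    exact Or.inr (Or.inr rfl)
  · rw [xw_101] at ht
    obtain rfl := List.mem_singleton.1 ht
    refine ⟨fun l hl => ?_, rfl⟩
    obtain rfl := List.mem_singleton.1 hl
    exact Or.inr (Or.inl rfl)
  · rw [xw_500] at ht
    simp only [List.mem_cons, List.not_mem_nil, or_false] at ht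
    rcases ht with rfl | rfl | rfl
    · refine ⟨fun l hl => ?_, rfl⟩
      obtain rfl := List.mem_singleton.1 hl
      exact Or.inl rfl
    · refine ⟨fun l hl => ?_, rfl⟩
      obtain rfl := List.mem_singleton.1 hl
      exact Or.inr (Or.inr rfl)
    · refine ⟨fun l hl => ?_, rfl⟩
      obtain rfl := List.mem_singleton.1 hl
      exact Or.inr (Or.inl rfl)

theorem xs_lo {l : List ℕ} (h : Lo l) : ∀ t ∈ xs 2 l, Ll t.2 := by
  induction l with
  | nil =>
    intro t ht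
    obtain rfl := List.mem_singleton.1 ht
    exact fun x hx => absurd hx (List.not_mem_nil)
  | cons g l ih =>
    intro t ht
    have hg := h g (List.mem_cons_self ..)
    have ht' : t ∈ ml (xw 2 g) (xs (ko 2 g) l) := ht
    rw [ko_lo hg] at ht'
    unfold ml at ht'
    obtain ⟨a, ha, hb⟩ := List.mem_flatMap.1 ht'
    obtain ⟨b, hb', rfl⟩ := List.mem_map.1 hb
    intro x hx
    rcases List.mem_append.1 hx with hx | hx
    · exact (xw_lo hg ha).1 x hx
    · exact ih (fun y hy => h y (List.mem_cons_of_mem _ hy)) b hb' x hx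

/-- The words of the reversed product are the reversed words. -/
theorem sm_xs_reverse {V : Type} [AddCommGroup V] {l : List ℕ} (h : Lo l) :
    ∀ F : List Lt → V, sm F (xs 2 l.reverse) = sm (fun v => F v.reverse) (xs 2 l) := by
  induction l with
  | nil =>
    intro F
    show sm F [(1, [])] = sm (fun v => F v.reverse) [(1, [])]
    rw [sm_cons, sm_cons, sm_nil, sm_nil]
    rfl
  | cons g l ih =>
    intro F
    have hg := h g (List.mem_cons_self ..)
    have hl : Lo l := fun x hx => h x (List.mem_cons_of_mem _ hx)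
    have hr : Lo l.reverse := fun x hx => hl x (List.mem_reverse.1 hx)
    rw [List.reverse_cons, sm_xs_append, kw_lo hr, ih hl]
    have e : xs 2 (g :: l) = ml (xw 2 g) (xs 2 l) := by
      show ml (xw 2 g) (xs (ko 2 g) l) = _
      rw [ko_lo hg]
    have e2 : sm (fun v => F v.reverse) (ml (xw 2 g) (xs 2 l)) =
        sm (fun b => sm (fun a => F (a ++ b).reverse) (xw 2 g)) (xs 2 l) := by
      rw [sm_ml]
      exact sm_comm (fun a b => F (a ++ b).reverse) _ _
    rw [e, e2]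
    refine sm_congr fun t _ => ?_
    show sm (fun b => F (t.2.reverse ++ b)) (ml (xw 2 g) [(1, [])]) = _
    rw [sm_ml]
    refine sm_congr fun t' ht' => ?_
    rw [sm_cons, sm_nil, add_zero, one_smul, List.append_nil, List.reverse_append,
      (xw_lo hg ht').2]

section

variable {H : Type} [DecidableEq H]

/-- Congruence up to torsion. -/
def Tg (x y : A H) : Prop := x - y ∈ Submodule.torsion ℤ (A H)

theorem Tg.refl (x : A H) : Tg x x := by
  unfold Tg
  rw [sub_self]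
  exact Submodule.zero_mem _

theorem Tg.symm {x y : A H} (h : Tg x y) : Tg y x := by
  unfold Tg at h ⊢
  rw [← neg_sub]
  exact Submodule.neg_mem _ h

theorem Tg.trans {x y z : A H} (h : Tg x y) (h' : Tg y z) : Tg x z := by
  unfold Tg at h h' ⊢
  rw [← sub_add_sub_cancel x y z]
  exact Submodule.add_mem _ h h'

theorem Tg.smul {x y : A H} (c : ℤ) (h : Tg x y) : Tg (c • x) (c • y) := by
  unfold Tg at h ⊢
  rw [← smul_sub]
  exact Submodule.smul_mem _ _ h

theorem rel0_mem : (⟨2, 1, [⟨1, [300, 0]⟩, ⟨-2, [101, 300]⟩]⟩ : Rl) ∈ rels :=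
  List.mem_of_getElem? (i := 0) rfl

theorem rel1_mem : (⟨2, 1, [⟨1, [300, 0]⟩, ⟨-1, [0, 300]⟩]⟩ : Rl) ∈ rels :=
  List.mem_of_getElem? (i := 1) rfl

theorem rel6_mem : (⟨1, 2, [⟨2, [201, 101]⟩, ⟨-1, [201, 0]⟩]⟩ : Rl) ∈ rels :=
  List.mem_of_getElem? (i := 6) rfl

theorem rel11_mem : (⟨2, 2, [⟨1, [500, 0]⟩, ⟨-1, [0, 500]⟩]⟩ : Rl) ∈ rels :=
  List.mem_of_getElem? (i := 11) rfl

theorem rel13_mem : (⟨2, 2, [⟨1, [101, 0]⟩, ⟨-1, [0, 101]⟩]⟩ : Rl) ∈ rels :=
  List.mem_of_getElem? (i := 13) rfl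

theorem xr0_eq : xr ⟨2, 1, [⟨1, [300, 0]⟩, ⟨-2, [101, 300]⟩]⟩ =
    [(1, [Lt.M 0 1, Lt.o 0]), (-2, [Lt.b 0 1, Lt.M 0 1])] := by decide +kernel

theorem xr1_eq : xr ⟨2, 1, [⟨1, [300, 0]⟩, ⟨-1, [0, 300]⟩]⟩ =
    [(1, [Lt.M 0 1, Lt.o 0]), (-1, [Lt.o 0, Lt.M 0 1])] := by decide +kernel

theorem xr6_eq : xr ⟨1, 2, [⟨2, [201, 101]⟩, ⟨-1, [201, 0]⟩]⟩ =
    [(2, [Lt.Y 0 1, Lt.b 0 1]), (-1, [Lt.Y 0 1, Lt.o 0])] := by decide +kernel

theorem xr11_eq : xr ⟨2, 2, [⟨1, [500, 0]⟩, ⟨-1, [0, 500]⟩]⟩ =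
    [(2, [Lt.a 0, Lt.o 0]), (-1, [Lt.o 0, Lt.o 0]), (1, [Lt.b 0 1, Lt.o 0]),
      (-2, [Lt.o 0, Lt.a 0]), (1, [Lt.o 0, Lt.o 0]), (-1, [Lt.o 0, Lt.b 0 1])] := by
  decide +kernel

theorem xr13_eq : xr ⟨2, 2, [⟨1, [101, 0]⟩, ⟨-1, [0, 101]⟩]⟩ =
    [(1, [Lt.b 0 1, Lt.o 0]), (-1, [Lt.o 0, Lt.b 0 1])] := by decide +kernel

/-- The bubble commutes with the letters of a ladder. -/
theorem o_comm1 (h : AllR H) {l : Lt} (hl : l = Lt.a 0 ∨ l = Lt.b 0 1 ∨ l = Lt.o 0)
    {p u : List Lt} (hp : tyc p 0 = some 2) (hu : tyc u 2 = some 9) :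
    Tg (ev H (p ++ [l, Lt.o 0] ++ u)) (ev H (p ++ [Lt.o 0, l] ++ u)) := by
  have hb := h.r1 _ rel13_mem p u hp hu
  rw [xr13_eq] at hb
  simp only [sm_cons, sm_nil, one_smul, add_zero, neg_one_zsmul] at hb
  rcases hl with rfl | rfl | rfl
  · have ha := h.r1 _ rel11_mem p u hp hu
    rw [xr11_eq] at ha
    simp only [sm_cons, sm_nil, one_smul, add_zero, neg_one_zsmul] at ha
    have h1 := Submodule.sub_mem _ ha hb
    have h2 : (2 : ℤ) • (ev H (p ++ [Lt.a 0, Lt.o 0] ++ u) - ev H (p ++ [Lt.o 0, Lt.a 0] ++ u)) ∈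
        Submodule.torsion ℤ (A H) := by
      convert h1 using 1
      module
    exact mem_tors_of_smul (by norm_num) h2
  · unfold Tg
    rw [sub_eq_add_neg]
    exact hb
  · exact Tg.refl _

theorem lt_ty {l : Lt} (hl : l = Lt.a 0 ∨ l = Lt.b 0 1 ∨ l = Lt.o 0) :
    tyc [l] 2 = some 2 := by
  rcases hl with rfl | rfl | rfl <;> rfl

theorem ll_ty {v : List Lt} (h : Ll v) : tyc v 2 = some 2 := by
  induction v with
  | nil => rfl
  | cons l v ih =>
    have e : l :: v = [l] ++ v := rfl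
    rw [e]
    exact tyc_append.2 ⟨2, lt_ty (h l (List.mem_cons_self ..)),
      ih fun x hx => h x (List.mem_cons_of_mem _ hx)⟩

/-- The bubble moves to the front. -/
theorem o_comm (h : AllR H) {v : List Lt} (hv : Ll v) {p u : List Lt}
    (hp : tyc p 0 = some 2) (hu : tyc u 2 = some 9) :
    Tg (ev H (p ++ (v ++ [Lt.o 0]) ++ u)) (ev H (p ++ (Lt.o 0 :: v) ++ u)) := by
  induction v generalizing p with
  | nil => exact Tg.refl _
  | cons l v ih =>
    have hl := hv l (List.mem_cons_self ..)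
    have hv' : Ll v := fun x hx => hv x (List.mem_cons_of_mem _ hx)
    have h1 := ih hv' (p := p ++ [l]) (tyc_append.2 ⟨2, hp, lt_ty hl⟩)
    have h2 := o_comm1 h hl hp (u := v ++ u) (tyc_append.2 ⟨2, ll_ty hv', hu⟩)
    refine Tg.trans ?_ (Tg.trans h1 ?_)
    · have e : p ++ (l :: v ++ [Lt.o 0]) ++ u = p ++ [l] ++ (v ++ [Lt.o 0]) ++ u := by simp
      rw [e]
      exact Tg.refl _
    · have e1 : p ++ [l] ++ Lt.o 0 :: v ++ u = p ++ [l, Lt.o 0] ++ (v ++ u) := by simp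
      have e2 : p ++ (Lt.o 0 :: l :: v) ++ u = p ++ [Lt.o 0, l] ++ (v ++ u) := by simp
      rw [e1, e2]
      exact h2

/-- The closed ladder. -/
noncomputable def lad (H : Type) [DecidableEq H] (v : List Lt) : A H :=
  ev H ([Lt.E 0, Lt.Y 0 1] ++ v ++ [Lt.M 0 1, Lt.A 0])

theorem lad_front (h : AllR H) {v : List Lt} (hv : Ll v) :
    Tg (lad H (Lt.o 0 :: v)) ((2 : ℤ) • lad H (Lt.b 0 1 :: v)) := by
  have hu : tyc (v ++ [Lt.M 0 1, Lt.A 0]) 2 = some 9 := tyc_append.2 ⟨2, ll_ty hv, rfl⟩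
  have h1 := h.r1 _ rel6_mem [Lt.E 0] (v ++ [Lt.M 0 1, Lt.A 0]) rfl hu
  rw [xr6_eq] at h1
  simp only [sm_cons, sm_nil, add_zero, neg_one_zsmul] at h1
  unfold Tg lad
  rw [← neg_mem_iff]
  convert h1 using 1
  simp only [List.cons_append, List.nil_append, List.append_assoc]
  abel

theorem lad_back (h : AllR H) {v : List Lt} (hv : Ll v) :
    Tg (lad H (v ++ [Lt.o 0])) ((2 : ℤ) • lad H (v ++ [Lt.b 0 1])) := by
  have hp : tyc ([Lt.E 0, Lt.Y 0 1] ++ v) 0 = some 2 := tyc_append.2 ⟨2, rfl, ll_ty hv⟩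
  have h1 := h.r1 _ rel0_mem ([Lt.E 0, Lt.Y 0 1] ++ v) [Lt.A 0] hp rfl
  have h2 := h.r1 _ rel1_mem ([Lt.E 0, Lt.Y 0 1] ++ v) [Lt.A 0] hp rfl
  rw [xr0_eq] at h1
  rw [xr1_eq] at h2
  simp only [sm_cons, sm_nil, add_zero, neg_one_zsmul, one_smul] at h1 h2
  have h3 := Submodule.sub_mem _ h1 h2
  unfold Tg lad
  convert h3 using 1
  simp only [List.cons_append, List.nil_append, List.append_assoc]
  module

/-- **Closed ladders are symmetric.** -/
theorem lad_rev (h : AllR H) (n : ℕ) : ∀ v : List Lt, Ll v → v.count (Lt.o 0) ≤ n →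
    Tg (lad H v) (lad H v.reverse) := by
  induction n with
  | zero =>
    intro v hv hc
    have h0 : Lad v := by
      intro l hl
      rcases hv l hl with rfl | rfl | rfl
      · exact Or.inl rfl
      · exact Or.inr (Or.inr rfl)
      · exact absurd (List.count_pos_iff.2 hl) (by omega)
    exact rev_lad h0
  | succ n ih =>
    intro v hv hc
    by_cases hm : Lt.o 0 ∈ v
    · obtain ⟨v1, v2, rfl⟩ := List.append_of_mem hm
      have k1 : Ll v1 := fun x hx => hv x (List.mem_append_left _ hx)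
      have k2 : Ll v2 := fun x hx => hv x (List.mem_append_right _ (List.mem_cons_of_mem _ hx))
      have k3 : Ll (v1 ++ v2) := fun x hx => (List.mem_append.1 hx).elim (k1 x) (k2 x)
      have k4 : Ll (Lt.b 0 1 :: (v1 ++ v2)) := by
        intro x hx
        rcases List.mem_cons.1 hx with rfl | hx
        · exact Or.inr (Or.inl rfl)
        · exact k3 x hx
      have k5 : Ll (v2.reverse) := fun x hx => k2 x (List.mem_reverse.1 hx)
      have k6 : Ll (v1.reverse) := fun x hx => k1 x (List.mem_reverse.1 hx)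
      have k7 : Ll (v2.reverse ++ v1.reverse) := fun x hx =>
        (List.mem_append.1 hx).elim (k5 x) (k6 x)
      have e1 := o_comm h k1 (p := [Lt.E 0, Lt.Y 0 1]) (u := v2 ++ [Lt.M 0 1, Lt.A 0]) rfl
        (tyc_append.2 ⟨2, ll_ty k2, rfl⟩)
      have e2 := o_comm h k6 (p := [Lt.E 0, Lt.Y 0 1] ++ v2.reverse)
        (u := [Lt.M 0 1, Lt.A 0]) (tyc_append.2 ⟨2, rfl, ll_ty k5⟩) rfl
      have c1 : (Lt.b 0 1 :: (v1 ++ v2)).count (Lt.o 0) ≤ n := by
        have : (v1 ++ Lt.o 0 :: v2).count (Lt.o 0) = v1.count (Lt.o 0) + (v2.count (Lt.o 0) + 1) := by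
          rw [List.count_append, List.count_cons_self]
        rw [List.count_cons_of_ne (by decide), List.count_append]
        omega
      have e3 := ih _ k4 c1
      -- the two ends
      have a1 : Tg (lad H (v1 ++ Lt.o 0 :: v2)) (lad H (Lt.o 0 :: (v1 ++ v2))) := by
        unfold lad
        have b1 : [Lt.E 0, Lt.Y 0 1] ++ (v1 ++ Lt.o 0 :: v2) ++ [Lt.M 0 1, Lt.A 0] =
            [Lt.E 0, Lt.Y 0 1] ++ (v1 ++ [Lt.o 0]) ++ (v2 ++ [Lt.M 0 1, Lt.A 0]) := by simp
        have b2 : [Lt.E 0, Lt.Y 0 1] ++ (Lt.o 0 :: (v1 ++ v2)) ++ [Lt.M 0 1, Lt.A 0] =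
            [Lt.E 0, Lt.Y 0 1] ++ (Lt.o 0 :: v1) ++ (v2 ++ [Lt.M 0 1, Lt.A 0]) := by simp
        rw [b1, b2]
        exact e1
      have a2 : Tg (lad H (v1 ++ Lt.o 0 :: v2).reverse)
          (lad H ((v2.reverse ++ v1.reverse) ++ [Lt.o 0])) := by
        unfold lad
        have b1 : [Lt.E 0, Lt.Y 0 1] ++ (v1 ++ Lt.o 0 :: v2).reverse ++ [Lt.M 0 1, Lt.A 0] =
            [Lt.E 0, Lt.Y 0 1] ++ v2.reverse ++ (Lt.o 0 :: v1.reverse) ++
              [Lt.M 0 1, Lt.A 0] := by simp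
        have b2 : [Lt.E 0, Lt.Y 0 1] ++ (v2.reverse ++ v1.reverse ++ [Lt.o 0]) ++
            [Lt.M 0 1, Lt.A 0] = [Lt.E 0, Lt.Y 0 1] ++ v2.reverse ++
              (v1.reverse ++ [Lt.o 0]) ++ [Lt.M 0 1, Lt.A 0] := by simp
        rw [b1, b2]
        exact e2.symm
      refine (a1.trans (lad_front h k3)).trans (Tg.trans (e3.smul 2) ?_)
      have e4 : (Lt.b 0 1 :: (v1 ++ v2)).reverse = (v2.reverse ++ v1.reverse) ++ [Lt.b 0 1] := by
        simp
      rw [e4]
      exact ((lad_back h k7).symm).trans a2.symm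
    · refine ih v hv ?_
      rw [List.count_eq_zero_of_not_mem hm]
      exact Nat.zero_le _

theorem sm_sub {V : Type} [AddCommGroup V] (F F' : List Lt → V) (R : List (ℤ × List Lt)) :
    sm F R - sm F' R = sm (fun w => F w - F' w) R := by
  rw [sub_eq_iff_eq_add]
  have h1 := sm_add (fun w => F w - F' w) F' R
  rw [← h1]
  refine sm_congr fun t _ => ?_
  rw [Pi.add_apply, sub_add_cancel]

/-- The reversal for sums of words. -/
theorem sm_lad_rev (h : AllR H) {l : List ℕ} (hl : Lo l) :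
    Tg (sm (lad H) (xs 2 l)) (sm (lad H) (xs 2 l.reverse)) := by
  rw [sm_xs_reverse hl]
  unfold Tg
  rw [sm_sub]
  exact sm_mem (S := (Submodule.torsion ℤ (A H)).toAddSubgroup)
    fun t ht => lad_rev h _ t.2 (xs_lo hl t ht) le_rfl

end

end Pool.Agent.SWL57
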