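import Mathlib
import Pool.Agent.SWL57.Clo
import Pool.Agent.SWL57.CloR

/-!
# The closed check: the pairing of prefixes and suffixes
-/

set_option autoImplicit false

namespace Pool.Agent.SWL57

open Finset Pool.Agent.Jac70 Pool.Agent.SWW54

/-! ### Rows of tables -/

theorem digits_inj (n : ℕ) : ∀ D D' : ℕ → ℕ, (∀ i, D i < bs) → (∀ i, D' i < bs) →
    ∑ i ∈ range n, D i * bs ^ i = ∑ i ∈ range n, D' i * bs ^ i → ∀ i < n, D i = D' i := by
  induction n with
  | zero => intro D D' _ _ _ i hi; exact absurd hi (Nat.not_lt_zero _)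
  | succ n ih =>
    intro D D' h h' he
    rw [sum_head, sum_head] at he
    have h1 : D 0 = D' 0 := by
      have h2 := congrArg (· % bs) he
      simp only [Nat.add_mul_mod_self_left] at h2
      rwa [Nat.mod_eq_of_lt (h 0), Nat.mod_eq_of_lt (h' 0)] at h2
    rw [h1] at he
    have h3 := Nat.eq_of_mul_eq_mul_left bs_pos (Nat.add_left_cancel he)
    intro i hi
    cases i with
    | zero => exact h1
    | succ i => exact ih _ _ (fun i => h _) (fun i => h' _) h3 i (by omega)

theorem Rep.uni {U : Type} [AddCommGroup U] {Y : ℕ → U} {b b' N : ℕ} {x x' : U}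
    (h : Rep Y b N x) (h' : Rep Y b' N x') (hb : b < bs) (hb' : b' < bs) : x = x' := by
  obtain ⟨n, D, h1, h2, h3, h4⟩ := h
  obtain ⟨n', D', h1', h2', h3', h4'⟩ := h'
  have k1 : ∑ i ∈ range (n + n'), D i * bs ^ i = ∑ i ∈ range (n + n'), D' i * bs ^ i := by
    rw [sum_ext1 h2 n', Nat.add_comm n n', sum_ext1 h2' n, ← h3, ← h3']
  have k2 := digits_inj (n + n') D D' (fun i => (h1 i).trans_lt hb)
    (fun i => (h1' i).trans_lt hb') k1
  rw [h4, h4', ← sum_ext2 h2 n', ← sum_ext2 h2' n, Nat.add_comm n' n]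
  exact sum_congr rfl fun i hi => by rw [k2 i (mem_range.1 hi)]

theorem small_bs : 16777216 < bs := by norm_num [bs_lit]

/-- The row of an element as a linear combination. -/
theorem ar_ln {U : Type} [AddCommGroup U] {P : AddSubgroup U} {Y : ℕ → U} {s : ℕ} {x : U}
    (h : AR P Y 16777216 (pw s) x) : x - ln 4096 s Y ∈ P := by
  obtain ⟨y, h1, h2⟩ := h
  rwa [Rep.uni (rep_pk 4096 s Y) h2 small_bs small_bs]

theorem ln_unit {U : Type} [AddCommGroup U] (Y : ℕ → U) {i : ℕ} (hi : i < 65536) :
    ln 4096 (16777216 * i + 1) Y = Y i := by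
  have h1 : gp (16777216 * i + 1) = i := by
    unfold gp
    omega
  have h2 : (16777216 * i + 1) % 16777216 = 1 := by omega
  have h3 : (16777216 * i + 1) / 1099511627776 = 0 := by omega
  rw [ln_succ, if_neg (by omega), h1, h2, h3, one_smul, ln_succ, if_pos rfl, add_zero]

theorem gl_none (i : ℕ) : gl none i = if i < 65536 then 16777216 * i + 2 else 0 := by
  have e : gl none i = cond (Nat.ble 65536 i) 0 (16777216 * i + 2) := rfl
  rw [e]
  split_ifs with h
  · have : Nat.ble 65536 i = false := by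
      rw [← Bool.not_eq_true, Nat.ble_eq]
      omega
    rw [this]
    rfl
  · have : Nat.ble 65536 i = true := by
      rw [Nat.ble_eq]
      omega
    rw [this]
    rfl

section

variable {r r0 : List Rl} (M : Md r r0) (W : ℕ → Wl)

/-- The tables given by the number of a fact; `0` is the identity. -/
noncomputable def ot (L : List (List Fc)) (f : ℕ) : Option Tr :=
  Nat.rec none (fun j _ => some (Fc.T (gf L j))) f

/-- The word of a fact. -/
def fw (L : List (List Fc)) (f : ℕ) : List ℕ := if f = 0 then [] else (gf L (f - 1)).w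

/-- The first level of a fact. -/
def fs (L : List (List Fc)) (s f : ℕ) : ℕ := if f = 0 then s else (gf L (f - 1)).s

/-- The last level of a fact. -/
def ft (L : List (List Fc)) (s f : ℕ) : ℕ := if f = 0 then s else (gf L (f - 1)).t

variable {M W}

theorem fk_dft {n : ℕ} : Fk M W n ⟨0, [], 0, .lf 0⟩ := by
  refine ⟨rfl, fun i hi => ?_⟩
  rw [gt_lf] at hi
  exact absurd (by split_ifs <;> rfl) hi

theorem getD_mm {α : Type} (l : List α) (i : ℕ) (d : α) : l.getD i d ∈ l ∨ l.getD i d = d := by
  by_cases h : i < l.length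
  · left
    rw [List.getD_eq_getElem _ _ h]
    exact List.getElem_mem h
  · right
    exact List.getD_eq_default _ _ (not_lt.1 h)

theorem fk_gfl {n : ℕ} {L : List (List Fc)} (h : Fs M W n L) (j : ℕ) : Fk M W n (gf L j) := by
  unfold gf
  rcases getD_mm L (j / 16) [] with h1 | h1
  · rcases getD_mm (L.getD (j / 16) []) (j % 16) ⟨0, [], 0, .lf 0⟩ with h2 | h2
    · exact h _ h1 _ h2
    · rw [h2]
      exact fk_dft
  · rw [h1]
    rcases getD_mm ([] : List Fc) (j % 16) ⟨0, [], 0, .lf 0⟩ with h2 | h2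
    · exact absurd h2 (List.not_mem_nil)
    · rw [h2]
      exact fk_dft

/-- The rows of a table. -/
theorem tab_row {n : ℕ} {L : List (List Fc)} (h : Fs M W n L) {s f i : ℕ} (hs : fs L s f = s)
    (hi : gl (ot L f) i ≠ 0) :
    ow (fun k g => M.op k g) (W s).k (fw L f) (B M W s i) -
      ln 4096 (gl (ot L f) i - 1) (B M W (ft L s f)) ∈ M.cg n (W (ft L s f)).k := by
  cases f with
  | zero =>
    have e : ot L 0 = none := rfl
    rw [e] at hi ⊢
    rw [gl_none] at hi ⊢
    split_ifs at hi ⊢ with h0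
    · rw [show 16777216 * i + 2 - 1 = 16777216 * i + 1 from rfl, ln_unit _ h0]
      show B M W s i - B M W s i ∈ _
      rw [sub_self]
      exact AddSubgroup.zero_mem _
    · exact absurd rfl hi
  | succ j =>
    have e : ot L (j + 1) = some (gf L j).T := rfl
    have e1 : fs L s (j + 1) = (gf L j).s := rfl
    have e2 : fw L (j + 1) = (gf L j).w := rfl
    have e3 : ft L s (j + 1) = (gf L j).t := rfl
    have e4 : ∀ T i, gl (some T) i = gt T i := fun _ _ => rfl
    rw [e1] at hs
    rw [e, e4] at hi ⊢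
    rw [e2, e3, ← hs]
    have h1 := (fk_gfl h j).2 i hi
    rw [Nat.zero_add, Nat.one_mul] at h1
    exact ar_ln h1.1

theorem tab_k {n : ℕ} {L : List (List Fc)} (h : Fs M W n L) {s f : ℕ} (hs : fs L s f = s) :
    kw (W s).k (fw L f) = (W (ft L s f)).k := by
  cases f with
  | zero => rfl
  | succ j =>
    have e1 : fs L s (j + 1) = (gf L j).s := rfl
    have e2 : fw L (j + 1) = (gf L j).w := rfl
    have e3 : ft L s (j + 1) = (gf L j).t := rfl
    rw [e1] at hs
    rw [e2, e3, ← hs]
    exact (fk_gfl h j).1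

end

/-! ### Moving operators to the suffix -/

theorem kw_app (k : ℕ) (v w : List ℕ) : kw k (v ++ w) = kw (kw k v) w := by
  induction v generalizing k with
  | nil => rfl
  | cons g v ih => exact ih _

theorem okw_app (k : ℕ) (v w : List ℕ) :
    okw k (v ++ w) = (okw k v && okw (kw k v) w) := by
  induction v generalizing k with
  | nil => rfl
  | cons g v ih =>
    show (okg k g && okw (ko k g) (v ++ w)) = _
    rw [ih, ← Bool.and_assoc]
    rfl

theorem kw_mww {k : ℕ} {w : List ℕ} (h : okw k w = true) : kw (kw k w) (mww k w) = k := by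
  induction w generalizing k with
  | nil => rfl
  | cons g w ih =>
    unfold okw at h
    rw [Bool.and_eq_true] at h
    show kw (kw (ko k g) w) (mww (ko k g) w ++ mw k g) = k
    rw [kw_app, ih h.2, (mw_spec h.1).2.2]

theorem okw_mww {k : ℕ} {w : List ℕ} (h : okw k w = true) :
    okw (kw k w) (mww k w) = true := by
  induction w generalizing k with
  | nil => rfl
  | cons g w ih =>
    unfold okw at h
    rw [Bool.and_eq_true] at h
    show okw (kw (ko k g) w) (mww (ko k g) w ++ mw k g) = true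
    rw [okw_app, ih h.2, kw_mww h.2, (mw_spec h.1).2.1]
    rfl

theorem mi_mi (l : Lt) : mi (mi l) = l := by
  cases l <;> rfl

theorem mr_mr (w : List Lt) : mr (mr w) = w := by
  unfold mr
  rw [List.map_reverse, List.reverse_reverse, List.map_map]
  have : (mi ∘ mi) = id := by
    funext l
    exact mi_mi l
  rw [this, List.map_id]

section

variable {H : Type} [DecidableEq H]

theorem eq_opS {k g : ℕ} (hg : okg k g = true) (F : (List Lt → A H) → A H)
    (Q : List Lt → A H) :
    F (opP H k g Q) = ow (fun k g => opS H k g) (ko k g) (mw k g) F Q := by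
  rw [ow_opS, (mw_spec hg).1]
  congr 1
  funext u
  unfold pl
  rw [sm_ms, opP_apply]
  refine sm_congr fun t _ => ?_
  rw [mr_mr]

/-- **The operators move to the suffix.** -/
theorem eq_owS {k : ℕ} {w : List ℕ} (hw : okw k w = true) (F : (List Lt → A H) → A H)
    (Q : List Lt → A H) :
    F (ow (fun k g => opP H k g) k w Q) =
      ow (fun k g => opS H k g) (kw k w) (mww k w) F Q := by
  induction w generalizing k Q with
  | nil => rfl
  | cons g w ih =>
    unfold okw at hw
    rw [Bool.and_eq_true] at hw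
    show F (ow (fun k g => opP H k g) (ko k g) w (opP H k g Q)) = _
    rw [ih hw.2]
    show _ = ow (fun k g => opS H k g) (kw (ko k g) w) (mww (ko k g) w ++ mw k g) F Q
    rw [ow_app, kw_mww hw.2]
    exact eq_opS hw.1 _ _

end

section

variable (H : Type) [DecidableEq H]

/-- A product of operators as a homomorphism. -/
noncomputable def owH (k : ℕ) (w : List ℕ) : (List Lt → A H) →+ (List Lt → A H) :=
  AddMonoidHom.mk' (ow (fun k g => opP H k g) k w) (by
    intro x y
    induction w generalizing k x y with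
    | nil => rfl
    | cons g w ih =>
      show ow _ (ko k g) w (opP H k g (x + y)) = ow _ (ko k g) w (opP H k g x) +
        ow _ (ko k g) w (opP H k g y)
      rw [map_add, ih])

variable {H}

theorem owP_lg {k : ℕ} {w : List ℕ} (hw : okw k w = true) {x : List Lt → A H}
    (hx : x ∈ lgP H k) : ow (fun k g => opP H k g) k w x ∈ lgP H (kw k w) := by
  induction w generalizing k x with
  | nil => exact hx
  | cons g w ih =>
    unfold okw at hw
    rw [Bool.and_eq_true] at hw
    exact ih hw.2 (opP_lg hw.1 hx)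

theorem owP_cg {n k : ℕ} {w : List ℕ} (hw : okw k w = true) {x : List Lt → A H}
    (hx : x ∈ cgP H n k) : ow (fun k g => opP H k g) k w x ∈ cgP H n (kw k w) := by
  induction w generalizing k x with
  | nil => exact hx
  | cons g w ih =>
    unfold okw at hw
    rw [Bool.and_eq_true] at hw
    exact ih hw.2 (opP_cg hw.1 hx)

theorem owS_lg {k : ℕ} {w : List ℕ} (hw : okw k w = true) {x : (List Lt → A H) → A H}
    (hx : x ∈ lgS H k) : ow (fun k g => opS H k g) k w x ∈ lgS H (kw k w) := by
  induction w generalizing k x with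
  | nil => exact hx
  | cons g w ih =>
    unfold okw at hw
    rw [Bool.and_eq_true] at hw
    exact ih hw.2 (opS_lg hw.1 hx)

end

/-! ### The data of the closed check -/

/-- A block: the level of the prefix, the operator in the middle, the level of the suffix. -/
structure Bl : Type where
  u : ℕ
  g : List ℕ
  v : ℕ

/-- A term of a batch: the fact of the prefix, the block, the fact of the suffix. -/
structure Pt : Type where
  f1 : ℕ
  m : ℕ
  f2 : ℕ

/-- A batch: the relation, the levels of the prefix and of the suffix, the terms, the items. -/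
structure Bd : Type where
  r : ℕ
  s : ℕ
  t : ℕ
  ps : List Pt
  its : List (ℕ × ℕ)

/-- The terms of a relation or of a given list. -/
def rt (xt : List (List Tm)) (r : ℕ) : List Tm :=
  cond (Nat.blt r 1000) (rels.getD r ⟨0, 0, []⟩).ts (xt.getD (r - 1000) [])

/-- The data of a term. -/
noncomputable def mkt (L : List (List Fc)) (tm : Tm) (p : Pt) : Ct :=
  ⟨(tm.c % 2187).toNat, p.m, ot L p.f1, ot L p.f2⟩

/-- The data of a batch. -/
noncomputable def mkb (xt : List (List Tm)) (L : List (List Fc)) (b : Bd) : Cb :=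
  ⟨List.zipWith (mkt L) (rt xt b.r) b.ps, b.its⟩

/-- The block with the number `m`. -/
def gb (bl : List Bl) (m : ℕ) : Bl := bl.getD m ⟨0, [], 0⟩

/-- The check of a term. -/
def okp (W : ℕ → Wl) (L : List (List Fc)) (bl : List Bl) (s t : ℕ) (tm : Tm) (p : Pt) : Bool :=
  let b := gb bl p.m
  let w1 := fw L p.f1
  let w2 := tm.w.drop (w1.length + b.g.length)
  decide (p.m < bl.length) && decide (fs L s p.f1 = s) && decide (ft L s p.f1 = b.u) &&
    decide (tm.w = w1 ++ (b.g ++ w2)) && okw (W s).k tm.w &&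
    decide (kw (W s).k tm.w = (W t).k) && decide (fs L t p.f2 = t) &&
    decide (ft L t p.f2 = b.v) && decide (fw L p.f2 = mww (kw (W s).k (w1 ++ b.g)) w2)

/-- The check of the words of a reversal. -/
def okrv : List Tm → Bool
  | [t1, t2] =>
    let l := (t1.w.drop 1).dropLast
    decide (t1.c = 1) && decide (t2.c = -1) && decide (t1.w = 201 :: (l ++ [300])) &&
      decide (t2.w = 201 :: (l.reverse ++ [300])) &&
      l.all fun g => decide (g = 0 ∨ g = 101 ∨ g = 500)
  | _ => false

/-- The check of all terms. -/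
def okps (W : ℕ → Wl) (L : List (List Fc)) (bl : List Bl) (s t : ℕ) : List Tm → List Pt → Bool
  | [], [] => true
  | tm :: ts, p :: ps => okp W L bl s t tm p && okps W L bl s t ts ps
  | _, _ => false

/-- The check of a batch of a relation. -/
def okb (W : ℕ → Wl) (xt : List (List Tm)) (L : List (List Fc)) (bl : List Bl) (b : Bd) : Bool :=
  okps W L bl b.s b.t (rt xt b.r) b.ps && (if b.r < 1000 then decide (b.r < rels.length) &&
    decide ((rels.getD b.r ⟨0, 0, []⟩).k = (W b.s).k) &&
    decide ((rels.getD b.r ⟨0, 0, []⟩).k' = (W b.t).k)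
    else decide (b.s = 0) && decide (b.t = 0) && okrv (rt xt b.r) &&
      b.its.all fun p => decide (p.1 = 0) && decide (p.2 < 16777216))

/-- The check of the first batch. -/
def ok0 (W : ℕ → Wl) (xt : List (List Tm)) (L : List (List Fc)) (bl : List Bl) (b : Bd) : Bool :=
  okps W L bl 0 0 (xt.getD 0 []) b.ps && decide (b.r = 1000) && decide (b.s = 0) &&
    decide (b.t = 0) && decide (b.its = [(0, 1)])

section

variable {H : Type} [DecidableEq H]

/-- The value of a closed word. -/
noncomputable def cv (H : Type) [DecidableEq H] (w : List ℕ) : A H :=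
  ow (fun k g => opP H k g) 1 w (fun u => ev H (.E 0 :: u)) [.A 0]

theorem cv_eq (w : List ℕ) : cv H w = sm (fun v => ev H (.E 0 :: (v ++ [.A 0]))) (xs 1 w) := by
  unfold cv
  rw [ow_opP]

theorem sum_cv (ts : List Tm) : (ts.map fun t => t.c • cv H t.w).sum =
    sm (fun v => ev H (.E 0 :: (v ++ [.A 0]))) (xr ⟨1, 1, ts⟩) := by
  have h1 := sum_opP (H := H) 1 ts (fun u => ev H (.E 0 :: u)) [.A 0]
  have h2 : (ts.map fun t => t.c • cv H t.w).sum =
      (ts.map fun t => t.c • ow (fun k g => opP H k g) 1 t.w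
        (fun u => ev H (.E 0 :: u))).sum [.A 0] := by
    clear h1
    induction ts with
    | nil => rfl
    | cons t ts ih =>
      rw [List.map_cons, List.sum_cons, List.map_cons, List.sum_cons, Pi.add_apply, ih]
      rfl
  rw [h2, h1]
  rfl

/-! ### The values -/

/-- The group of the values. -/
abbrev Gq (H : Type) [DecidableEq H] : Type := A H ⧸ Dv (B := A H) 7

/-- The projection to the group of the values. -/
noncomputable def pq (H : Type) [DecidableEq H] : A H →+ Gq H := QuotientAddGroup.mk' _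

theorem pq_eq {x y : A H} (h : x - y ∈ Dv (B := A H) 7) : pq H x = pq H y := by
  rw [← sub_eq_zero, ← map_sub]
  exact (QuotientAddGroup.eq_zero_iff _).2 h

theorem pq_zero {x : A H} (h : x ∈ Dv (B := A H) 7) : pq H x = 0 :=
  (QuotientAddGroup.eq_zero_iff _).2 h

theorem h7q (x : Gq H) : 2187 • x = 0 := by
  obtain ⟨a, rfl⟩ := QuotientAddGroup.mk'_surjective _ x
  rw [← map_nsmul]
  exact pq_zero (dv_mul 7 a)

theorem dv_le {n : ℕ} (hn : 7 ≤ n) {x : A H} (h : x ∈ Dv (B := A H) n) :
    x ∈ Dv (B := A H) 7 := by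
  obtain ⟨k, rfl⟩ := Nat.exists_eq_add_of_le hn
  induction k with
  | zero => exact h
  | succ k ih => exact ih (by omega) (dv_anti h)

theorem mod_z (c : ℤ) (x : Gq H) : (c % 2187).toNat • x = c • x := by
  have h1 : ((c % 2187).toNat : ℤ) = c % 2187 :=
    Int.toNat_of_nonneg (Int.emod_nonneg _ (by norm_num))
  rw [← natCast_zsmul, h1]
  have h2 : c • x = (c % 2187 + 2187 * (c / 2187)) • x := by rw [Int.emod_add_mul_ediv]
  rw [h2, add_smul, mul_smul, show (2187 : ℤ) = ((2187 : ℕ) : ℤ) from rfl, natCast_zsmul, h7q,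
    add_zero]

theorem core {n k1 k2 : ℕ} (hn : 7 ≤ n) {g : List ℕ} (hg : okw k1 g = true)
    (hk : kw k1 g = k2) {F : (List Lt → A H) → A H} (hF : F ∈ lgS H k2) {Q : List Lt → A H}
    {E : ℕ → List Lt → A H} {Φ : ℕ → (List Lt → A H) → A H} {r1 r2 : ℕ}
    (hQ : Q - ln 4096 r1 E ∈ cgP H n k1) (hF' : F - ln 4096 r2 Φ ∈ cgS H n k2)
    (hE : ∀ a, E a ∈ lgP H k1) : pq H (F (ow (fun k g => opP H k g) k1 g Q)) =
      ln 4096 r1 fun a => ln 4096 r2 fun b =>
        pq H (Φ b (ow (fun k g => opP H k g) k1 g (E a))) := by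
  obtain ⟨φ, hφ⟩ := lgS_hom hF
  have v2 : pq H (F (ow (fun k g => opP H k g) k1 g Q)) =
      pq H (φ (owH H k1 g (ln 4096 r1 E))) := by
    rw [hφ]
    refine pq_eq (dv_le hn ?_)
    show φ (owH H k1 g Q) - φ (owH H k1 g (ln 4096 r1 E)) ∈ _
    rw [← map_sub, ← map_sub, ← hφ]
    refine lgS_dv hF ?_
    rw [← hk]
    exact owP_cg hg hQ
  rw [v2]
  refine Eq.trans (ln_map (((pq H).comp φ).comp (owH H k1 g)) 4096 r1 E) ?_
  congr 1
  funext a
  have hE' : ow (fun k g => opP H k g) k1 g (E a) ∈ lgP H k2 := by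
    rw [← hk]
    exact owP_lg hg (hE a)
  show pq H (φ (ow (fun k g => opP H k g) k1 g (E a))) = _
  rw [← hφ]
  have v3 : pq H (F (ow (fun k g => opP H k g) k1 g (E a))) =
      pq H (ln 4096 r2 Φ (ow (fun k g => opP H k g) k1 g (E a))) :=
    pq_eq (dv_le hn (hF' _ hE'))
  rw [v3]
  exact ln_map ((pq H).comp (Pi.evalAddMonoidHom (fun _ : List Lt → A H => A H)
    (ow (fun k g => opP H k g) k1 g (E a)))) 4096 r2 Φ

variable (h : AllR H) (W : ℕ → Wl)

/-- The basis elements of the prefixes. -/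
noncomputable def BP (t i : ℕ) : List Lt → A H := B (pre h) W t i

/-- The basis elements of the suffixes. -/
noncomputable def BS (t i : ℕ) : (List Lt → A H) → A H := B (suf h) W t i

/-- The values of the blocks. -/
noncomputable def Vb (bl : List Bl) (m a b : ℕ) : Gq H :=
  pq H (BS h W (gb bl m).v b (ow (fun k g => opP H k g) (W (gb bl m).u).k (gb bl m).g
    (BP h W (gb bl m).u a)))

/-- The values of a product of operators. -/
noncomputable def vw (s t : ℕ) (tm : Tm) (i j : ℕ) : Gq H :=
  pq H (BS h W t j (ow (fun k g => opP H k g) (W s).k tm.w (BP h W s i)))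

variable {h W}

theorem bp_lg (hW : Wf W) (t i : ℕ) : BP h W t i ∈ lgP H (W t).k := B_lg (pre h) hW t i

theorem bs_lg (hW : Wf W) (t i : ℕ) : BS h W t i ∈ lgS H (W t).k := B_lg (suf h) hW t i

theorem okp_spec {L : List (List Fc)} {bl : List Bl} {s t : ℕ} {tm : Tm} {p : Pt}
    (hk : okp W L bl s t tm p = true) : ∃ w2 : List ℕ, p.m < bl.length ∧ fs L s p.f1 = s ∧
      ft L s p.f1 = (gb bl p.m).u ∧ tm.w = fw L p.f1 ++ ((gb bl p.m).g ++ w2) ∧
      okw (W s).k tm.w = true ∧ kw (W s).k tm.w = (W t).k ∧ fs L t p.f2 = t ∧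
      ft L t p.f2 = (gb bl p.m).v ∧
      fw L p.f2 = mww (kw (W s).k (fw L p.f1 ++ (gb bl p.m).g)) w2 := by
  unfold okp at hk
  simp only [Bool.and_eq_true, decide_eq_true_eq] at hk
  obtain ⟨⟨⟨⟨⟨⟨⟨⟨h1, h2⟩, h3⟩, h4⟩, h5⟩, h6⟩, h7⟩, h8⟩, h9⟩ := hk
  exact ⟨_, h1, h2, h3, h4, h5, h6, h7, h8, h9⟩

/-- The values of a term are given by the tables. -/
theorem okt_of (hW : Wf W) {n : ℕ} (hn : 7 ≤ n) {L : List (List Fc)} (hP : Fs (pre h) W n L)
    (hS : Fs (suf h) W n L) {bl : List Bl} {s t : ℕ} {tm : Tm} {p : Pt}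
    (hk : okp W L bl s t tm p = true) : Okt (Vb h W bl) (mkt L tm p, vw h W s t tm) := by
  obtain ⟨w2, -, e1, e2, e3, e4, e5, e6, e7, e8⟩ := okp_spec hk
  intro i j hi hj
  have hi' : gl (ot L p.f1) i ≠ 0 := hi
  have hj' : gl (ot L p.f2) j ≠ 0 := hj
  show vw h W s t tm i j = ln 4096 (gl (ot L p.f1) i - 1) fun a =>
    ln 4096 (gl (ot L p.f2) j - 1) fun b => Vb h W bl p.m a b
  have r1 : ow (fun k g => opP H k g) (W s).k (fw L p.f1) (BP h W s i) -
      ln 4096 (gl (ot L p.f1) i - 1) (BP h W (ft L s p.f1)) ∈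
        cgP H n (W (ft L s p.f1)).k := tab_row hP e1 hi'
  have r2 : ow (fun k g => opS H k g) (W t).k (fw L p.f2) (BS h W t j) -
      ln 4096 (gl (ot L p.f2) j - 1) (BS h W (ft L t p.f2)) ∈
        cgS H n (W (ft L t p.f2)).k := tab_row hS e6 hj'
  have q1 := tab_k hP e1
  have q2 := tab_k hS e6
  rw [e2] at r1 q1
  rw [e7] at r2 q2
  -- the types
  have o1 : okw (W s).k (fw L p.f1 ++ ((gb bl p.m).g ++ w2)) = true := by rw [← e3]; exact e4
  rw [okw_app, okw_app, Bool.and_eq_true, Bool.and_eq_true] at o1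
  obtain ⟨o1, o2, o3⟩ := o1
  rw [q1] at o2 o3
  have q3 : kw (W s).k (fw L p.f1 ++ (gb bl p.m).g) = kw (W (gb bl p.m).u).k (gb bl p.m).g := by
    rw [kw_app, q1]
  rw [q3] at e8
  have q4 : kw (kw (W (gb bl p.m).u).k (gb bl p.m).g) w2 = (W t).k := by
    rw [← e5, e3, kw_app, kw_app, q1]
  have q5 : kw (W (gb bl p.m).u).k (gb bl p.m).g = (W (gb bl p.m).v).k := by
    rw [← q2, e8, ← q4, kw_mww o3]
  have hF2 : ow (fun k g => opS H k g) (W t).k (fw L p.f2) (BS h W t j) ∈
      lgS H (W (gb bl p.m).v).k := by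
    rw [← q2]
    refine owS_lg ?_ (bs_lg hW t j)
    rw [e8, ← q4]
    exact okw_mww o3
  have v1 : vw h W s t tm i j = pq H (ow (fun k g => opS H k g) (W t).k (fw L p.f2)
      (BS h W t j) (ow (fun k g => opP H k g) (W (gb bl p.m).u).k (gb bl p.m).g
        (ow (fun k g => opP H k g) (W s).k (fw L p.f1) (BP h W s i)))) := by
    unfold vw
    rw [e3, ow_app, q1, ow_app, eq_owS o3 (BS h W t j), q4, ← e8]
  rw [v1]
  exact core hn o2 q5 hF2 r1 r2 fun a => bp_lg hW _ a

/-- The terms of a batch with their values. -/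
noncomputable def zx (h : AllR H) (W : ℕ → Wl) (L : List (List Fc)) (s t : ℕ) (ts : List Tm)
    (ps : List Pt) : List (Ct × (ℕ → ℕ → Gq H)) :=
  List.zipWith (fun tm p => (mkt L tm p, vw h W s t tm)) ts ps

theorem zx_fst (L : List (List Fc)) (s t : ℕ) (ts : List Tm) (ps : List Pt) :
    (zx h W L s t ts ps).map Prod.fst = List.zipWith (mkt L) ts ps := by
  unfold zx
  rw [List.map_zipWith]

theorem zx_ok (hW : Wf W) {n : ℕ} (hn : 7 ≤ n) {L : List (List Fc)} (hP : Fs (pre h) W n L)
    (hS : Fs (suf h) W n L) {bl : List Bl} {s t : ℕ} : ∀ (ts : List Tm) (ps : List Pt),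
    okps W L bl s t ts ps = true → ∀ x ∈ zx h W L s t ts ps,
      Okt (Vb h W bl) x ∧ x.1.m < bl.length := by
  intro ts
  induction ts with
  | nil => intro ps _ x hx; exact absurd hx (by unfold zx; simp)
  | cons tm ts ih =>
    intro ps hk x hx
    cases ps with
    | nil => exact absurd hx (by unfold zx; simp)
    | cons p ps =>
      have hk' : (okp W L bl s t tm p && okps W L bl s t ts ps) = true := hk
      rw [Bool.and_eq_true] at hk'
      have hx' : x ∈ (mkt L tm p, vw h W s t tm) :: zx h W L s t ts ps := hx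
      rcases List.mem_cons.1 hx' with rfl | hx'
      · obtain ⟨w2, h1, -⟩ := okp_spec hk'.1
        exact ⟨okt_of hW hn hP hS hk'.1, h1⟩
      · exact ih ps hk'.2 x hx'

theorem zx_sum {L : List (List Fc)} {bl : List Bl} {s t : ℕ} (i j : ℕ) :
    ∀ (ts : List Tm) (ps : List Pt), okps W L bl s t ts ps = true →
      ((zx h W L s t ts ps).map fun x => x.1.c • x.2 i j).sum =
        (ts.map fun tm => tm.c • vw h W s t tm i j).sum := by
  intro ts
  induction ts with
  | nil => intro ps _; cases ps <;> rfl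
  | cons tm ts ih =>
    intro ps hk
    cases ps with
    | nil => exact absurd (show false = true from hk) (by decide)
    | cons p ps =>
      have hk' : (okp W L bl s t tm p && okps W L bl s t ts ps) = true := hk
      rw [Bool.and_eq_true] at hk'
      show (tm.c % 2187).toNat • vw h W s t tm i j +
        ((zx h W L s t ts ps).map fun x => x.1.c • x.2 i j).sum = _
      rw [ih ps hk'.2, mod_z, List.map_cons, List.sum_cons]

/-- A batch with its values. -/
noncomputable def sbt (h : AllR H) (W : ℕ → Wl) (xt : List (List Tm)) (L : List (List Fc))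
    (b : Bd) : Sb (Gq H) := ⟨zx h W L b.s b.t (rt xt b.r) b.ps, b.its⟩

theorem sbt_cb (xt : List (List Tm)) (L : List (List Fc)) (b : Bd) :
    (sbt h W xt L b).cb = mkb xt L b := by
  unfold Sb.cb sbt mkb
  simp only
  rw [zx_fst]

/-- The sum of the values of a relation. -/
theorem sum_vw {s t i j : ℕ} {ts : List Tm} (hW : Wf W) :
    (ts.map fun tm => tm.c • vw h W s t tm i j).sum =
      pq H (BS h W t j (ts.map fun tm => tm.c • ow (fun k g => opP H k g) (W s).k tm.w
        (BP h W s i)).sum) := by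
  obtain ⟨φ, hφ⟩ := lgS_hom (bs_lg (h := h) hW t j)
  rw [hφ, map_list_sum, map_list_sum, List.map_map, List.map_map]
  congr 1
  refine List.map_congr_left fun tm _ => ?_
  show _ = pq H (φ (tm.c • _))
  rw [map_zsmul, map_zsmul, ← hφ]
  rfl

theorem cv_lad {l : List ℕ} (hl : Lo l) :
    cv H (201 :: (l ++ [300])) = sm (lad H) (xs 2 l) := by
  rw [cv_eq]
  have e1 : xs 1 (201 :: (l ++ [300])) = ml [(1, [Lt.Y 0 1])] (xs 2 (l ++ [300])) := by
    show ml (xw 1 201) (xs (ko 1 201) (l ++ [300])) = _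
    rw [xw_201]
    rfl
  have e2 : xs 2 [300] = ml [(1, [Lt.M 0 1])] [(1, [])] := by
    show ml (xw 2 300) (xs (ko 2 300) []) = _
    rw [xw_300]
    rfl
  rw [e1, sm_ml, sm_cons, sm_nil, add_zero, one_smul, sm_xs_append, kw_lo hl, e2]
  refine sm_congr fun t _ => ?_
  rw [sm_ml, sm_cons, sm_nil, add_zero, one_smul, sm_cons, sm_nil, add_zero, one_smul]
  unfold lad
  congr 1
  simp

/-- The reversal of a closed ladder. -/
theorem rev_cv (h : AllR H) {l : List ℕ} (hl : Lo l) :
    cv H (201 :: (l ++ [300])) - cv H (201 :: (l.reverse ++ [300])) ∈ Dv (B := A H) 7 := by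
  have hr : Lo l.reverse := fun x hx => hl x (List.mem_reverse.1 hx)
  rw [cv_lad hl, cv_lad hr]
  exact dv_tors (sm_lad_rev h hl)

theorem svl_of_zero {f : ℕ} : ∀ {L : ℕ} {φ : ℕ → Gq H}, L < 16777216 → φ 0 = 0 →
    svl f L φ = 0 := by
  cases f with
  | zero => intro L φ _ _; rfl
  | succ f =>
    intro L φ hL h0
    rw [svl_succ]
    have h1 : L % 281474976710656 / 16777216 = 0 := by omega
    have h2 : L / 281474976710656 = 0 := by omega
    have h3 : svl f 0 φ = 0 := by
      cases f with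
      | zero => rfl
      | succ f => rw [svl_succ, if_pos rfl]
    split_ifs
    · rfl
    · rw [h1, h2, h0, smul_zero, h3, add_zero]

theorem B_start (M : Md rels relsE) (h0 : gt (W 0).b 0 ≠ 0) : B M W 0 0 = M.e := by
  rw [B, if_neg h0, if_neg (Nat.not_lt_zero _)]

theorem bp_start (h0 : gt (W 0).b 0 ≠ 0) : BP h W 0 0 = fun u => ev H (.E 0 :: u) :=
  B_start (pre h) h0

theorem bs_start (h0 : gt (W 0).b 0 ≠ 0) : BS h W 0 0 = fun Q => Q [.A 0] :=
  B_start (suf h) h0

/-- The values between the start and the end. -/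
theorem vw_zero (hW : Wf W) (h0 : gt (W 0).b 0 ≠ 0) (tm : Tm) :
    vw h W 0 0 tm 0 0 = pq H (cv H tm.w) := by
  have hk : (W 0).k = 1 := by
    rcases hW 0 0 h0 with ⟨h1, _⟩ | ⟨_, h1⟩
    · exact absurd h1 (Nat.not_lt_zero _)
    · exact h1
  unfold vw
  rw [bs_start h0, bp_start h0, hk]
  rfl

/-- The batches of the relations have the value zero. -/
theorem okb_zero (hW : Wf W) (h0 : gt (W 0).b 0 ≠ 0) {xt : List (List Tm)}
    {L : List (List Fc)} {bl : List Bl} {b : Bd} (hb : okb W xt L bl b = true) :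
    (sbt h W xt L b).vt = 0 := by
  unfold okb at hb
  rw [Bool.and_eq_true] at hb
  obtain ⟨hb, hc⟩ := hb
  unfold Sb.vt
  refine List.sum_eq_zero fun y hy => ?_
  obtain ⟨p, hp, rfl⟩ := List.mem_map.1 hy
  have key : ∀ i j, ((zx h W L b.s b.t (rt xt b.r) b.ps).map fun x => x.1.c • x.2 i j).sum =
      pq H (BS h W b.t j ((rt xt b.r).map fun tm => tm.c • ow (fun k g => opP H k g)
        (W b.s).k tm.w (BP h W b.s i)).sum) := fun i j => by
    rw [zx_sum i j _ _ hb, sum_vw hW]
  by_cases hr : b.r < 1000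
  · rw [if_pos hr] at hc
    simp only [Bool.and_eq_true, decide_eq_true_eq] at hc
    obtain ⟨⟨c1, c2⟩, c3⟩ := hc
    have hR : rels.getD b.r ⟨0, 0, []⟩ ∈ rels := by
      rw [List.getD_eq_getElem _ _ c1]
      exact List.getElem_mem c1
    have e1 : rt xt b.r = (rels.getD b.r ⟨0, 0, []⟩).ts := by
      unfold rt
      have : Nat.blt b.r 1000 = true := by
        rw [Nat.blt_eq]
        exact hr
      rw [this, cond_true]
    have e2 : (fun j => ((sbt h W xt L b).xs.map fun x => x.1.c • x.2 p.1 j).sum) =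
        fun _ => 0 := by
      funext j
      refine Eq.trans (key p.1 j) (pq_zero ?_)
      rw [e1, ← c2]
      refine lgS_dv (bs_lg hW b.t j) ?_
      rw [← c3]
      refine relP h hR ?_ 7
      rw [c2]
      exact bp_lg hW b.s p.1
    rw [e2]
    exact svl_zero_fun _ _
  · rw [if_neg hr] at hc
    simp only [Bool.and_eq_true, decide_eq_true_eq] at hc
    obtain ⟨⟨⟨c1, c2⟩, c3⟩, c4⟩ := hc
    rw [List.all_eq_true] at c4
    have c5 := c4 p hp
    simp only [Bool.and_eq_true, decide_eq_true_eq] at c5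
    refine svl_of_zero c5.2 ?_
    show ((zx h W L b.s b.t (rt xt b.r) b.ps).map fun x => x.1.c • x.2 p.1 0).sum = 0
    rw [zx_sum _ _ _ _ hb, c1, c2, c5.1]
    -- the two terms
    match hts : rt xt b.r, c3 with
    | [t1, t2], c3 =>
      unfold okrv at c3
      simp only [Bool.and_eq_true, decide_eq_true_eq] at c3
      obtain ⟨⟨⟨⟨d1, d2⟩, d3⟩, d4⟩, d5⟩ := c3
      have hl : Lo ((t1.w.drop 1).dropLast) := by
        rw [List.all_eq_true] at d5
        exact fun g hg => by simpa using d5 g hg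
      simp only [List.map_cons, List.map_nil, List.sum_cons, List.sum_nil, add_zero]
      rw [vw_zero hW h0, vw_zero hW h0, d1, d2, one_smul, neg_one_zsmul, ← sub_eq_add_neg,
        ← map_sub]
      refine pq_zero ?_
      rw [d3, d4]
      exact rev_cv h hl

/-- **The closed check.** -/
theorem clo_main (h : AllR H) (hW : Wf W) (h0 : gt (W 0).b 0 ≠ 0) {n : ℕ} (hn : 7 ≤ n)
    {L : List (List Fc)} (hP : Fs (pre h) W n L) (hS : Fs (suf h) W n L) (bl : List Bl)
    (xt : List (List Tm)) (b0 : Bd) (bs : List Bd) (c0 : ok0 W xt L bl b0 = true)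
    (cb : ∀ b ∈ bs, okb W xt L bl b = true)
    (cc : ∀ m < bl.length, ∃ st n, 0 < st ∧
      cbk m st n ((b0 :: bs).map (mkb xt L)) = true) :
    sm (fun v => ev H (.E 0 :: (v ++ [.A 0]))) (xr ⟨1, 1, xt.getD 0 []⟩) ∈
      Dv (B := A H) 7 := by
  unfold ok0 at c0
  simp only [Bool.and_eq_true, decide_eq_true_eq] at c0
  obtain ⟨⟨⟨⟨a1, a2⟩, a3⟩, a4⟩, a5⟩ := c0
  have e0 : rt xt b0.r = xt.getD 0 [] := by
    rw [a2]
    rfl
  have k1 : (((b0 :: bs).map (sbt h W xt L)).map Sb.vt).sum = 0 := by
    refine clo_sound h7q (V := Vb h W bl) (M := bl.length) _ ?_ ?_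
    · intro B hB x hx
      obtain ⟨b, hb, rfl⟩ := List.mem_map.1 hB
      rcases List.mem_cons.1 hb with rfl | hb
      · have hx' : x ∈ zx h W L b.s b.t (rt xt b.r) b.ps := hx
        rw [a3, a4, e0] at hx'
        exact zx_ok hW hn hP hS _ _ a1 x hx'
      · have hb' := cb b hb
        unfold okb at hb'
        rw [Bool.and_eq_true] at hb'
        exact zx_ok hW hn hP hS _ _ hb'.1 x hx
    · intro m hm
      obtain ⟨st, n, h1, h2⟩ := cc m hm
      refine ⟨st, n, h1, ?_⟩
      rw [List.map_map]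
      have e : (Sb.cb ∘ sbt h W xt L) = mkb xt L := by
        funext b
        exact sbt_cb xt L b
      rw [e]
      exact h2
  have k2 : ((bs.map (sbt h W xt L)).map Sb.vt).sum = 0 := by
    refine List.sum_eq_zero fun y hy => ?_
    rw [List.map_map] at hy
    obtain ⟨b, hb, rfl⟩ := List.mem_map.1 hy
    exact okb_zero hW h0 (cb b hb)
  rw [List.map_cons, List.map_cons, List.sum_cons, k2, add_zero] at k1
  have k3 : (sbt h W xt L b0).vt =
      ((zx h W L 0 0 (xt.getD 0 []) b0.ps).map fun x => x.1.c • x.2 0 0).sum := by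
    unfold Sb.vt
    show ((b0.its.map fun p => svl (fl p.2) p.2 fun j =>
      ((zx h W L b0.s b0.t (rt xt b0.r) b0.ps).map fun x => x.1.c • x.2 p.1 j).sum)).sum = _
    rw [a5, e0, a3, a4]
    simp only [List.map_cons, List.map_nil, List.sum_cons, List.sum_nil, add_zero]
    have e1 : fl 1 = 1 := by
      unfold fl
      decide
    rw [e1, svl_succ, if_neg (by norm_num), svl_zero, add_zero]
    norm_num
  rw [k3, zx_sum _ _ _ _ a1] at k1
  have k4 : ((xt.getD 0 []).map fun tm => tm.c • vw h W 0 0 tm 0 0).sum =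
      pq H (((xt.getD 0 []).map fun t => t.c • cv H t.w).sum) := by
    rw [map_list_sum, List.map_map]
    congr 1
    refine List.map_congr_left fun tm _ => ?_
    show _ = pq H (tm.c • cv H tm.w)
    rw [vw_zero hW h0, map_zsmul]
  rw [k4, sum_cv] at k1
  exact (QuotientAddGroup.eq_zero_iff _).1 k1

end

end Pool.Agent.SWL57
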