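import Mathlib
import Pool.Agent.SWL57.Bt

/-!
# Tables of an operator by linear combinations of relations
-/

set_option autoImplicit false

namespace Pool.Agent.SWL57

open Finset

/-! ### The check of a table -/

/-- The check of an entry of a table: `j` is the index, `v` the entry, `lam` the coefficients. -/
noncomputable def ch1 (S : BT) (o d ds top a3 j v lam : ℕ) : Bool :=
  cond (Nat.ble (Nat.succ j) ds)
    (cond (sml (pk 4096 (Nat.sub v 1)) d)
      (chk (lsum S 4096 lam (Nat.mul a3 (Nat.add (pk 4096 (Nat.sub v 1))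
        (Nat.mul 14348906 (Nat.pow 2 (Nat.mul 64 (Nat.add o j))))))) top) false) false

/-- The check of a table. -/
noncomputable def chT (S : BT) (o d ds top a3 : ℕ) (T : Tr) : Tr → ℕ → ℕ → Bool :=
  Tr.rec (fun v L j _ => cond (Nat.beq v 0) true (ch1 S o d ds top a3 j v (gt L 0)))
    (fun _ _ a b L j st => Tr.rec
      (fun v => cond (a (.lf v) j (Nat.mul 2 st)) (b (.lf 0) (Nat.add j st) (Nat.mul 2 st)) false)
      (fun l r _ _ => cond (a l j (Nat.mul 2 st)) (b r (Nat.add j st) (Nat.mul 2 st)) false) L) T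

theorem chT_lf (S : BT) (o d ds top a3 v j st : ℕ) (L : Tr) :
    chT S o d ds top a3 (.lf v) L j st =
      cond (Nat.beq v 0) true (ch1 S o d ds top a3 j v (gt L 0)) := rfl

theorem chT_nd (S : BT) (o d ds top a3 j st : ℕ) (T T' L : Tr) :
    ∃ L1 L2, chT S o d ds top a3 (.nd T T') L j st =
      cond (chT S o d ds top a3 T L1 j (2 * st))
        (chT S o d ds top a3 T' L2 (j + st) (2 * st)) false := by
  cases L with
  | lf v => exact ⟨.lf v, .lf 0, rfl⟩
  | nd l r => exact ⟨l, r, rfl⟩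

section M

variable {r r0 : List Rl} {M : Md r r0} {W : ℕ → Wl}

theorem ch1_rw {t s o g n a a3 top j v lam : ℕ} {bl : List Bk} {S : BT}
    (ho : okl W t top bl = true) (hb : (⟨o, g, s⟩ : Bk) ∈ bl) (hn : n + a ≤ 15)
    (ha : a3 = 3 ^ a) (hS : ∀ u, Gd (M.cg (n + a) (W t).k) (sy M W t bl) (gS S u))
    (h : ch1 S o (W t).d (W s).d top a3 j v lam = true) :
    Rw M W n t v (M.op (W s).k g (B M W s j)) := by
  unfold ch1 at h
  obtain ⟨h1, h2⟩ := cond_false_eq h
  obtain ⟨h3, h4⟩ := cond_false_eq h2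
  have hj : j < (W s).d := Nat.le_of_ble_eq_true h1
  have hp : pk 4096 (v - 1) < bs ^ (W t).d := sml_lt h3
  obtain ⟨-, -, h5⟩ := sy_blk (M := M) ho _ hb
  have h6 : sy M W t bl (o + j) = M.op (W s).k g (B M W s j) := h5 j hj
  have e1 : ln 4096 (v - 1) (sy M W t bl) = ln 4096 (v - 1) (B M W t) :=
    ln_congr 4096 _ _ _ _ hp (sy_low ho)
  have h7 : AR (M.cg (n + a) (W t).k) (sy M W t bl) 16777216 (pk 4096 (v - 1))
      (ln 4096 (v - 1) (B M W t)) := by
    rw [← e1]
    exact AR.of_rep (rep_pk _ _ _)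
  have h8 : AR (M.cg (n + a) (W t).k) (sy M W t bl) 1 (bs ^ (o + j))
      (M.op (W s).k g (B M W s j)) := by
    rw [← h6]
    exact AR.of_rep (rep_one _ _)
  have h9 := (h7.add (h8.smul 14348906)).smul a3
  have h10 := h9.lsum hS 4096 (x := lam)
  have e2 : Nat.mul a3 (Nat.add (pk 4096 (Nat.sub v 1))
        (Nat.mul 14348906 (Nat.pow 2 (Nat.mul 64 (Nat.add o j))))) =
      a3 * (pk 4096 (v - 1) + 14348906 * bs ^ (o + j)) := by
    rw [bs_eq, ← pow_mul]
    rfl
  rw [e2] at h4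
  have ha2 : a3 ≤ 14348907 := by
    rw [ha]
    calc 3 ^ a ≤ 3 ^ 15 := Nat.pow_le_pow_right (by norm_num) (by omega)
      _ = 14348907 := by norm_num
  have h11 := h10.chk (fun z => q_cg M hn _ z) (by rw [bs_lit]; omega) h4
  rw [ha] at h11
  have h12 := M.cg_div h11
  have h13 : M.op (W s).k g (B M W s j) - ln 4096 (v - 1) (B M W t) ∈ M.cg n (W t).k := by
    have e3 : M.op (W s).k g (B M W s j) - ln 4096 (v - 1) (B M W t) =
        q • M.op (W s).k g (B M W s j) -
          (ln 4096 (v - 1) (B M W t) + 14348906 • M.op (W s).k g (B M W s j)) := by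
      rw [q_lit, show (14348907 : ℕ) = 14348906 + 1 from rfl, add_smul, one_smul]
      abel
    rw [e3]
    exact (M.cg n (W t).k).sub_mem (q_cg M (by omega) _ _) h12
  exact ⟨⟨_, h13, rep_pk _ _ _⟩, hp⟩

theorem chT_fa {t s o g n a a3 top : ℕ} {bl : List Bk} {S : BT}
    (ho : okl W t top bl = true) (hb : (⟨o, g, s⟩ : Bk) ∈ bl) (hn : n + a ≤ 15)
    (ha : a3 = 3 ^ a) (hS : ∀ u, Gd (M.cg (n + a) (W t).k) (sy M W t bl) (gS S u)) {T : Tr} :
    ∀ {L : Tr} {j st : ℕ}, chT S o (W t).d (W s).d top a3 T L j st = true →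
      Fa (fun i v => Rw M W n t v (M.op (W s).k g (B M W s i))) T j st := by
  induction T with
  | lf v =>
    intro L j st h
    refine Fa.lf fun hv => ?_
    rw [chT_lf, beq_false hv, cond_false] at h
    exact ch1_rw ho hb hn ha hS h
  | nd T T' h1 h2 =>
    intro L j st h
    obtain ⟨L1, L2, e⟩ := chT_nd S o (W t).d (W s).d top a3 j st T T' L
    rw [e] at h
    obtain ⟨h3, h4⟩ := cond_false_eq h
    exact Fa.nd (h1 h3) (h2 h4)

/-- The check of a table is sound. -/
theorem chT_fk {t s o g n a a3 top : ℕ} {bl : List Bk} {S : BT}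
    (ho : okl W t top bl = true) (hb : (⟨o, g, s⟩ : Bk) ∈ bl) (hn : n + a ≤ 15)
    (ha : a3 = 3 ^ a) (hS : ∀ u, Gd (M.cg (n + a) (W t).k) (sy M W t bl) (gS S u)) {T L : Tr}
    (h : chT S o (W t).d (W s).d top a3 T L 0 1 = true) : Fk M W n ⟨s, [g], t, T⟩ := by
  refine ⟨?_, chT_fa ho hb hn ha hS h⟩
  obtain ⟨_, h1, _⟩ := sy_blk (M := M) ho _ hb
  exact h1

end M

end Pool.Agent.SWL57
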